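import Pool.Graph.R_pool_sql_team_seeded_b0a926ef.R553.HW.Clos

/-!
# Amalgams and clique minors (helper15)

Hadwiger's conjecture passes from the clique inflations of the two pieces of an amalgam to the
amalgam.
-/

set_option autoImplicit false

namespace Pool.Agent.H15.AM

open Pool.Agent.R553.HW

/-- The subgraph induced by `X` together with `c` new vertices that are adjacent to each other and
to the vertices in `N`. -/
def clone {V : Type} (G : SimpleGraph V) (X N : Set V) (c : ℕ) : SimpleGraph (X ⊕ Fin c) where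
  Adj x y :=
    match x, y with
    | Sum.inl x, Sum.inl y => G.Adj x y
    | Sum.inl x, Sum.inr _ => x.1 ∈ N
    | Sum.inr _, Sum.inl y => y.1 ∈ N
    | Sum.inr i, Sum.inr j => i ≠ j
  symm := ⟨by
    rintro (x | i) (y | j) h
    · exact SimpleGraph.Adj.symm h
    · exact h
    · exact h
    · exact fun h' => h h'.symm⟩
  loopless := ⟨by
    rintro (x | i) h
    · exact G.irrefl h
    · exact h rfl⟩

theorem clone_ll {V : Type} {G : SimpleGraph V} {X N : Set V} {c : ℕ} {x y : X} :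
    (clone G X N c).Adj (Sum.inl x) (Sum.inl y) ↔ G.Adj x y := Iff.rfl

theorem clone_lr {V : Type} {G : SimpleGraph V} {X N : Set V} {c : ℕ} {x : X} {j : Fin c} :
    (clone G X N c).Adj (Sum.inl x) (Sum.inr j) ↔ x.1 ∈ N := Iff.rfl

theorem clone_rl {V : Type} {G : SimpleGraph V} {X N : Set V} {c : ℕ} {x : X} {j : Fin c} :
    (clone G X N c).Adj (Sum.inr j) (Sum.inl x) ↔ x.1 ∈ N := Iff.rfl

theorem clone_rr {V : Type} {G : SimpleGraph V} {X N : Set V} {c : ℕ} {i j : Fin c} :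
    (clone G X N c).Adj (Sum.inr i) (Sum.inr j) ↔ i ≠ j := Iff.rfl

theorem perm_ext {ι : Type} {k : ℕ} (f1 f2 : ι → Fin k) (i1 : Function.Injective f1)
    (i2 : Function.Injective f2) : ∃ σ : Equiv.Perm (Fin k), ∀ i, σ (f2 i) = f1 i := by
  classical
  let e : {c // c ∈ Set.range f2} ≃ {c // c ∈ Set.range f1} :=
    (Equiv.ofInjective f2 i2).symm.trans (Equiv.ofInjective f1 i1)
  refine ⟨e.extendSubtype, fun v => ?_⟩
  have h3 : e.extendSubtype (f2 v) = e ⟨f2 v, ⟨v, rfl⟩⟩ :=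
    Equiv.extendSubtype_apply_of_mem e _ ⟨v, rfl⟩
  rw [h3]
  show ((Equiv.ofInjective f1 i1) ((Equiv.ofInjective f2 i2).symm ⟨f2 v, ⟨v, rfl⟩⟩)).1 = f1 v
  have h4 : (Equiv.ofInjective f2 i2).symm ⟨f2 v, ⟨v, rfl⟩⟩ = v := by
    rw [Equiv.symm_apply_eq]
    rfl
  rw [h4]
  rfl

/-- An amalgam: `G` is covered by `X₁` and `X₂`, the intersection `K` of `X₁` and `X₂` is a clique
that is complete to `A₁ ∪ A₂`, the sets `A₁ ⊆ X₁ \ X₂` and `A₂ ⊆ X₂ \ X₁` are complete to each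
other, and there are no other edges between `X₁ \ X₂` and `X₂ \ X₁`. -/
structure Amal {V : Type} (G : SimpleGraph V) (X₁ X₂ A₁ A₂ : Set V) : Prop where
  cover : ∀ v, v ∈ X₁ ∨ v ∈ X₂
  clique : ∀ x y, x ∈ X₁ → x ∈ X₂ → y ∈ X₁ → y ∈ X₂ → x ≠ y → G.Adj x y
  sub1 : ∀ x ∈ A₁, x ∈ X₁ ∧ x ∉ X₂
  sub2 : ∀ x ∈ A₂, x ∈ X₂ ∧ x ∉ X₁
  comp1 : ∀ x ∈ A₁, ∀ y, y ∈ X₁ → y ∈ X₂ → G.Adj x y
  comp2 : ∀ x ∈ A₂, ∀ y, y ∈ X₁ → y ∈ X₂ → G.Adj x y
  comp : ∀ x ∈ A₁, ∀ y ∈ A₂, G.Adj x y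
  none : ∀ x y, x ∉ X₂ → y ∉ X₁ → G.Adj x y → x ∈ A₁ ∧ y ∈ A₂

section main

variable {V : Type} {G : SimpleGraph V} {X₁ X₂ A₁ A₂ : Set V}

theorem Amal.symm (h : Amal G X₁ X₂ A₁ A₂) : Amal G X₂ X₁ A₂ A₁ where
  cover v := (h.cover v).symm
  clique x y h1 h2 h3 h4 := h.clique x y h2 h1 h4 h3
  sub1 := h.sub2
  sub2 := h.sub1
  comp1 x hx y h1 h2 := h.comp2 x hx y h2 h1
  comp2 x hx y h1 h2 := h.comp1 x hx y h2 h1
  comp x hx y hy := (h.comp y hy x hx).symm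
  none x y hx hy hxy := (h.none y x hy hx hxy.symm).symm

/-- The set of the vertices adjacent to the new vertices. -/
def NN (X₁ X₂ A₁ : Set V) : Set V := {x | (x ∈ X₁ ∧ x ∈ X₂) ∨ x ∈ A₁}

/-- Colourings of the two pieces with enough new vertices combine. -/
theorem col_amal (h : Amal G X₁ X₂ A₁ A₂) [Finite V] (k c1 c2 : ℕ)
    (h1 : (clone G X₁ (NN X₁ X₂ A₁) c1).Colorable k)
    (h2 : (clone G X₂ (NN X₂ X₁ A₂) c2).Colorable k)
    (hk : k ≤ c1 + c2 + Nat.card {v // v ∈ X₁ ∧ v ∈ X₂}) : G.Colorable k := by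
  classical
  obtain ⟨C1⟩ := h1
  obtain ⟨C2⟩ := h2
  let K := {v // v ∈ X₁ ∧ v ∈ X₂}
  let g1 : K ⊕ Fin c1 → Fin k := Sum.elim (fun v => C1 (Sum.inl ⟨v.1, v.2.1⟩))
    (fun j => C1 (Sum.inr j))
  let g2 : K ⊕ Fin c2 → Fin k := Sum.elim (fun v => C2 (Sum.inl ⟨v.1, v.2.2⟩))
    (fun j => C2 (Sum.inr j))
  have i1 : Function.Injective g1 := by
    rintro (a | a) (b | b) hab
    · congr 1
      by_contra hne
      have h3 : G.Adj a.1 b.1 :=
        h.clique _ _ a.2.1 a.2.2 b.2.1 b.2.2 (fun h => hne (Subtype.ext h))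
      exact C1.valid (v := Sum.inl ⟨a.1, a.2.1⟩) (w := Sum.inl ⟨b.1, b.2.1⟩) h3 hab
    · exfalso
      exact C1.valid (v := Sum.inl ⟨a.1, a.2.1⟩) (w := Sum.inr b) (Or.inl a.2) hab
    · exfalso
      exact C1.valid (v := Sum.inr a) (w := Sum.inl ⟨b.1, b.2.1⟩) (Or.inl b.2) hab
    · congr 1
      by_contra hne
      exact C1.valid (v := Sum.inr a) (w := Sum.inr b) hne hab
  have i2 : Function.Injective g2 := by
    rintro (a | a) (b | b) hab
    · congr 1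
      by_contra hne
      have h3 : G.Adj a.1 b.1 :=
        h.clique _ _ a.2.1 a.2.2 b.2.1 b.2.2 (fun h => hne (Subtype.ext h))
      exact C2.valid (v := Sum.inl ⟨a.1, a.2.2⟩) (w := Sum.inl ⟨b.1, b.2.2⟩) h3 hab
    · exfalso
      exact C2.valid (v := Sum.inl ⟨a.1, a.2.2⟩) (w := Sum.inr b) (Or.inl a.2.symm) hab
    · exfalso
      exact C2.valid (v := Sum.inr a) (w := Sum.inl ⟨b.1, b.2.2⟩) (Or.inl b.2.symm) hab
    · congr 1
      by_contra hne
      exact C2.valid (v := Sum.inr a) (w := Sum.inr b) hne hab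
  -- the colours that are missed by `g2`
  let M := {c : Fin k // c ∉ Set.range g2}
  have hM : Nat.card M ≤ c1 := by
    have e1 : Nat.card M + Nat.card (Set.range g2) = k := by
      have := Fintype.card_subtype_compl (fun c : Fin k => c ∈ Set.range g2)
      have h5 : Fintype.card {c : Fin k // c ∈ Set.range g2} ≤ Fintype.card (Fin k) :=
        Fintype.card_subtype_le _
      rw [Nat.card_eq_fintype_card, Nat.card_eq_fintype_card]
      rw [Fintype.card_fin] at this h5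
      change Fintype.card {c : Fin k // c ∉ Set.range g2} + Fintype.card {c : Fin k // c ∈ Set.range g2} = k
      omega
    have e2 : Nat.card (Set.range g2) = Nat.card K + c2 := by
      have : Nat.card (Set.range g2) = Nat.card (K ⊕ Fin c2) :=
        Nat.card_congr (Equiv.ofInjective g2 i2).symm
      rw [this, Nat.card_sum, Nat.card_fin]
    have : Nat.card K = Nat.card {v // v ∈ X₁ ∧ v ∈ X₂} := rfl
    omega
  obtain ⟨j⟩ : Nonempty (M ↪ Fin c1) := by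
    apply Function.Embedding.nonempty_of_card_le
    rw [Fintype.card_fin, ← Nat.card_eq_fintype_card]
    exact hM
  let f1 : K ⊕ M → Fin k := fun x => g1 (Sum.map id j x)
  let f2 : K ⊕ M → Fin k := Sum.elim (fun v => g2 (Sum.inl v)) (fun c => c.1)
  have j1 : Function.Injective f1 :=
    i1.comp (Function.Injective.sumMap Function.injective_id j.injective)
  have j2 : Function.Injective f2 := by
    rintro (a | a) (b | b) hab
    · exact congrArg _ (Sum.inl_injective (i2 hab))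
    · exact absurd ⟨Sum.inl a, hab⟩ b.2
    · exact absurd ⟨Sum.inl b, hab.symm⟩ a.2
    · exact congrArg _ (Subtype.ext hab)
  obtain ⟨σ, hσ⟩ := perm_ext f1 f2 j1 j2
  let C : V → Fin k := fun v =>
    if h' : v ∈ X₁ then C1 (Sum.inl ⟨v, h'⟩)
    else σ (C2 (Sum.inl ⟨v, (h.cover v).resolve_left h'⟩))
  have hC1 : ∀ v (h' : v ∈ X₁), C v = C1 (Sum.inl ⟨v, h'⟩) := fun v h' => dif_pos h'
  have hC2 : ∀ v (h' : v ∈ X₂), C v = σ (C2 (Sum.inl ⟨v, h'⟩)) := by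
    intro v h'
    by_cases hv : v ∈ X₁
    · rw [hC1 v hv]
      exact (hσ (Sum.inl ⟨v, hv, h'⟩)).symm
    · exact dif_neg hv
  -- vertices of `A₂` get colours of new vertices of the first piece
  have hA2 : ∀ v ∈ A₂, ∃ i : Fin c1, C v = C1 (Sum.inr i) := by
    intro v hv
    have hv2 := (h.sub2 v hv).1
    have hm : C2 (Sum.inl ⟨v, hv2⟩) ∉ Set.range g2 := by
      rintro ⟨a | a, ha⟩
      · exact C2.valid (v := Sum.inl ⟨a.1, a.2.2⟩) (w := Sum.inl ⟨v, hv2⟩)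
          ((h.comp2 v hv a.1 a.2.1 a.2.2).symm) ha
      · exact C2.valid (v := Sum.inr a) (w := Sum.inl ⟨v, hv2⟩) (Or.inr hv) ha
    refine ⟨j ⟨_, hm⟩, ?_⟩
    rw [hC2 v hv2]
    exact hσ (Sum.inr ⟨_, hm⟩)
  have key : ∀ x ∈ A₁, ∀ y ∈ A₂, C x ≠ C y := by
    intro x hx y hy hxy
    obtain ⟨i, hi⟩ := hA2 y hy
    rw [hi, hC1 x (h.sub1 x hx).1] at hxy
    exact C1.valid (v := Sum.inl ⟨x, (h.sub1 x hx).1⟩) (w := Sum.inr i) (Or.inr hx) hxy
  refine ⟨SimpleGraph.Coloring.mk C ?_⟩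
  intro x y hxy
  by_cases hx1 : x ∈ X₁ <;> by_cases hx2 : x ∈ X₂ <;> by_cases hy1 : y ∈ X₁ <;>
    by_cases hy2 : y ∈ X₂
  all_goals first
    | (rw [hC1 x hx1, hC1 y hy1]
       exact C1.valid (v := Sum.inl ⟨x, hx1⟩) (w := Sum.inl ⟨y, hy1⟩) hxy)
    | (rw [hC2 x hx2, hC2 y hy2]
       intro h'
       exact C2.valid (v := Sum.inl ⟨x, hx2⟩) (w := Sum.inl ⟨y, hy2⟩) hxy (σ.injective h'))
    | (exact absurd (h.cover x) (by tauto))
    | (exact absurd (h.cover y) (by tauto))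
    | skip
  · obtain ⟨h3, h4⟩ := h.none x y hx2 hy1 hxy
    exact key x h3 y h4
  · obtain ⟨h3, h4⟩ := h.none y x hy2 hx1 hxy.symm
    exact (key y h3 x h4).symm

end main

theorem conn_map {V W : Type} (G : SimpleGraph V) (H : SimpleGraph W) (h : W → V) (S : Set W)
    (hS : (H.induce S).Connected)
    (ha : ∀ u (hu : u ∈ S) v (hv : v ∈ S), H.Adj u v →
      (G.induce (h '' S)).Reachable ⟨h u, u, hu, rfl⟩ ⟨h v, v, hv, rfl⟩) :
    (G.induce (h '' S)).Connected := by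
  have key : ∀ (a b : S) (_ : (H.induce S).Walk a b),
      (G.induce (h '' S)).Reachable ⟨h a, a, a.2, rfl⟩ ⟨h b, b, b.2, rfl⟩ := by
    intro a b p
    induction p with
    | nil => exact SimpleGraph.Reachable.refl _
    | cons hadj p ih => exact (ha _ (Subtype.mem _) _ (Subtype.mem _) hadj).trans ih
  rw [SimpleGraph.connected_iff]
  constructor
  · rintro ⟨_, u, hu, rfl⟩ ⟨_, v, hv, rfl⟩
    obtain ⟨p⟩ := hS.preconnected ⟨u, hu⟩ ⟨v, hv⟩
    exact key _ _ p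
  · obtain ⟨w⟩ := hS.nonempty
    exact ⟨⟨h w, w, w.2, rfl⟩⟩

/-- Connected sets can play the new vertices. -/
theorem clone_minor {V ι : Type} {G : SimpleGraph V} {X N : Set V} {c : ℕ} (B : Fin c → Set V)
    (h1 : ∀ i, (G.induce (B i)).Connected) (h2 : ∀ i j, i ≠ j → Disjoint (B i) (B j))
    (h3 : ∀ i j, i ≠ j → ∃ u ∈ B i, ∃ v ∈ B j, G.Adj u v) (h4 : ∀ i, ∀ v ∈ B i, v ∉ X)
    (h5 : ∀ i, ∀ x ∈ X, x ∈ N → ∃ v ∈ B i, G.Adj x v) (hm : CMt (clone G X N c) ι) :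
    CMt G ι := by
  refine CMt_comp G (clone G X N c) (Sum.elim (fun x => {x.1}) B) ?_ ?_ ?_ hm
  · rintro (x | i)
    · exact conn_singleton G _
    · exact h1 i
  · rintro (x | i) (y | j) hne
    · show Disjoint ({x.1} : Set V) {y.1}
      rw [Set.disjoint_singleton]
      exact fun h => hne (congrArg _ (Subtype.ext h))
    · show Disjoint ({x.1} : Set V) (B j)
      rw [Set.disjoint_singleton_left]
      exact fun h => h4 _ _ h x.2
    · show Disjoint (B i) ({y.1} : Set V)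
      rw [Set.disjoint_singleton_right]
      exact fun h => h4 _ _ h y.2
    · exact h2 i j (fun h => hne (congrArg _ h))
  · rintro (x | i) (y | j) hadj
    · exact ⟨x.1, rfl, y.1, rfl, hadj⟩
    · obtain ⟨v, hv, hxv⟩ := h5 j x.1 x.2 hadj
      exact ⟨x.1, rfl, v, hv, hxv⟩
    · obtain ⟨v, hv, hxv⟩ := h5 i y.1 y.2 hadj
      exact ⟨v, hv, y.1, rfl, hxv.symm⟩
    · exact h3 i j hadj

theorem clone_zero {V ι : Type} {G : SimpleGraph V} {X N : Set V}
    (hm : CMt (clone G X N 0) ι) : CMt G ι :=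
  clone_minor (fun i => i.elim0) (fun i => i.elim0) (fun i => i.elim0) (fun i => i.elim0)
    (fun i => i.elim0) (fun i => i.elim0) hm

theorem clone_big {V : Type} {G : SimpleGraph V} {X N : Set V} (k : ℕ) :
    ¬ (clone G X N (k + 1)).Colorable k := by
  rintro ⟨C⟩
  have hi : Function.Injective (fun j : Fin (k + 1) => C (Sum.inr j)) := by
    intro a b hab
    by_contra hne
    exact C.valid (v := Sum.inr a) (w := Sum.inr b) hne hab
  have := Fintype.card_le_of_injective _ hi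
  simp at this

theorem exists_last {p : ℕ → Prop} (h0 : p 0) (k : ℕ) (hk : ¬ p k) : ∃ c, p c ∧ ¬ p (c + 1) := by
  by_contra hcon
  push Not at hcon
  have : ∀ n, p n := by
    intro n
    induction n with
    | zero => exact h0
    | succ n ih => exact hcon n ih
  exact hk (this k)

section main2

variable {V : Type} {G : SimpleGraph V} {X₁ X₂ A₁ A₂ : Set V}

/-- The case of a branch set made of new vertices. -/
theorem case_new (h : Amal G X₁ X₂ A₁ A₂) [Finite V] (k s c1 c2 : ℕ)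
    (hk : c1 + c2 + Nat.card {v // v ∈ X₁ ∧ v ∈ X₂} + 1 ≤ k)
    (f : Fin (k + 1) → Set (X₁ ⊕ Fin (c1 + 1)))
    (f1 : ∀ i, ((clone G X₁ (NN X₁ X₂ A₁) (c1 + 1)).induce (f i)).Connected)
    (f2 : ∀ i j, i ≠ j → Disjoint (f i) (f j))
    (f3 : ∀ i j, i ≠ j → ∃ u ∈ f i, ∃ v ∈ f j, (clone G X₁ (NN X₁ X₂ A₁) (c1 + 1)).Adj u v)
    (i0 : Fin (k + 1)) (hi0 : ∀ x ∈ f i0, ∃ j, x = Sum.inr j)
    (h2 : CMt (clone G X₂ (NN X₂ X₁ A₂) (c2 + 1)) (Fin (k + s))) : CMt G (Fin (k + s)) := by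
  classical
  let K := {v // v ∈ X₁ ∧ v ∈ X₂}
  let ψ : K ⊕ Fin (c1 + 1) → X₁ ⊕ Fin (c1 + 1) := Sum.map (fun v => ⟨v.1, v.2.1⟩) id
  let T := {i // ∃ z, ψ z ∈ f i}
  let J := {i // ¬ ∃ z, ψ z ∈ f i}
  have hT : Nat.card T ≤ Nat.card K + (c1 + 1) := by
    have hz : ∀ i : T, ∃ z, ψ z ∈ f i.1 := fun i => i.2
    choose z hz using hz
    have hinj : Function.Injective z := by
      intro a b hab
      by_contra hne
      have h1 : a.1 ≠ b.1 := fun h => hne (Subtype.ext h)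
      refine Set.disjoint_left.1 (f2 a.1 b.1 h1) (hz a) ?_
      rw [hab]
      exact hz b
    have := Nat.card_le_card_of_injective z hinj
    rwa [Nat.card_sum, Nat.card_fin] at this
  have hJ : c2 + 1 ≤ Nat.card J := by
    have e1 : Nat.card J + Nat.card T = k + 1 := by
      have := Fintype.card_subtype_compl (fun i : Fin (k + 1) => ∃ z, ψ z ∈ f i)
      have h5 : Fintype.card {i : Fin (k + 1) // ∃ z, ψ z ∈ f i} ≤ Fintype.card (Fin (k + 1)) :=
        Fintype.card_subtype_le _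
      rw [Fintype.card_fin] at this h5
      rw [Nat.card_eq_fintype_card, Nat.card_eq_fintype_card]
      change Fintype.card {i : Fin (k + 1) // ¬ ∃ z, ψ z ∈ f i} +
        Fintype.card {i : Fin (k + 1) // ∃ z, ψ z ∈ f i} = k + 1
      omega
    have : Nat.card K = Nat.card {v // v ∈ X₁ ∧ v ∈ X₂} := rfl
    omega
  obtain ⟨g⟩ : Nonempty (Fin (c2 + 1) ↪ J) := by
    apply Function.Embedding.nonempty_of_card_le
    rw [Fintype.card_fin, ← Nat.card_eq_fintype_card]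
    exact hJ
  -- elements of the sets with index in `J`
  have hel : ∀ (i : J), ∀ x ∈ f i.1, ∃ y : X₁, x = Sum.inl y ∧ y.1 ∉ X₂ := by
    rintro i (y | j) hx
    · refine ⟨y, rfl, fun hy => i.2 ⟨Sum.inl ⟨y.1, y.2, hy⟩, hx⟩⟩
    · exact absurd ⟨Sum.inr j, hx⟩ i.2
  obtain ⟨w0⟩ := (f1 (g 0).1).nonempty
  obtain ⟨y0, _, _⟩ := hel (g 0) w0.1 w0.2
  let hh : X₁ ⊕ Fin (c1 + 1) → V := Sum.elim (fun x => x.1) (fun _ => y0.1)
  refine clone_minor (fun j => hh '' (f (g j).1)) ?_ ?_ ?_ ?_ ?_ h2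
  · intro j
    refine conn_map G (clone G X₁ (NN X₁ X₂ A₁) (c1 + 1)) hh _ (f1 _) ?_
    intro u hu v hv huv
    obtain ⟨y, rfl, _⟩ := hel _ u hu
    obtain ⟨y', rfl, _⟩ := hel _ v hv
    apply SimpleGraph.Adj.reachable
    exact huv
  · intro i j hij
    have hne : (g i).1 ≠ (g j).1 := fun h => hij (g.injective (Subtype.ext h))
    rw [Set.disjoint_left]
    rintro _ ⟨u, hu, rfl⟩ ⟨v, hv, huv⟩
    obtain ⟨y, rfl, _⟩ := hel _ u hu
    obtain ⟨y', rfl, _⟩ := hel _ v hv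
    have : y' = y := Subtype.ext huv
    subst this
    exact Set.disjoint_left.1 (f2 _ _ hne) hu hv
  · intro i j hij
    have hne : (g i).1 ≠ (g j).1 := fun h => hij (g.injective (Subtype.ext h))
    obtain ⟨u, hu, v, hv, huv⟩ := f3 _ _ hne
    refine ⟨hh u, ⟨u, hu, rfl⟩, hh v, ⟨v, hv, rfl⟩, ?_⟩
    obtain ⟨y, rfl, _⟩ := hel _ u hu
    obtain ⟨y', rfl, _⟩ := hel _ v hv
    exact huv
  · rintro i _ ⟨u, hu, rfl⟩
    obtain ⟨y, rfl, hy⟩ := hel _ u hu
    exact hy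
  · intro i x hx2 hxN
    have hne : (g i).1 ≠ i0 := by
      intro he
      obtain ⟨w⟩ := (f1 i0).nonempty
      obtain ⟨j, hj⟩ := hi0 w.1 w.2
      apply (g i).2
      refine ⟨Sum.inr j, ?_⟩
      rw [he]
      show (Sum.inr j : X₁ ⊕ Fin (c1 + 1)) ∈ f i0
      rw [← hj]
      exact w.2
    obtain ⟨u, hu, v, hv, huv⟩ := f3 _ _ hne
    obtain ⟨y, rfl, hy⟩ := hel _ u hu
    obtain ⟨j, rfl⟩ := hi0 v hv
    have hyN : y.1 ∈ A₁ := by
      rcases huv with h' | h'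
      · exact absurd h'.2 hy
      · exact h'
    refine ⟨y.1, ⟨Sum.inl y, hu, rfl⟩, ?_⟩
    rcases hxN with h' | h'
    · exact (h.comp1 y.1 hyN x h'.2 h'.1).symm
    · exact (h.comp y.1 hyN x h').symm

/-- The case in which every branch set contains an old vertex and `A₂` is large. -/
theorem case_large (h : Amal G X₁ X₂ A₁ A₂) (k c : ℕ) (e : Fin c ↪ A₂)
    (f : Fin (k + 1) → Set (X₁ ⊕ Fin c))
    (f1 : ∀ i, ((clone G X₁ (NN X₁ X₂ A₁) c).induce (f i)).Connected)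
    (f2 : ∀ i j, i ≠ j → Disjoint (f i) (f j))
    (f3 : ∀ i j, i ≠ j → ∃ u ∈ f i, ∃ v ∈ f j, (clone G X₁ (NN X₁ X₂ A₁) c).Adj u v)
    (hf : ∀ i, ∃ y, Sum.inl y ∈ f i) : CMt G (Fin (k + 1)) := by
  classical
  let hh : X₁ ⊕ Fin c → V := Sum.elim (fun x => x.1) (fun j => (e j).1)
  have hinj : Function.Injective hh := by
    rintro (a | a) (b | b) hab
    · exact congrArg _ (Subtype.ext hab)
    · exfalso
      have h1 : a.1 = (e b).1 := hab
      exact (h.sub2 _ (e b).2).2 (h1 ▸ a.2)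
    · exfalso
      have h1 : (e a).1 = b.1 := hab
      exact (h.sub2 _ (e a).2).2 (h1 ▸ b.2)
    · exact congrArg _ (e.injective (Subtype.ext hab))
  have hN : ∀ (y : X₁) (j : Fin c), y.1 ∈ NN X₁ X₂ A₁ → G.Adj y.1 (e j).1 := by
    intro y j hy
    rcases hy with h' | h'
    · exact (h.comp2 _ (e j).2 _ h'.1 h'.2).symm
    · exact h.comp _ h' _ (e j).2
  have hb : ∀ i j, Sum.inr j ∈ f i → ∃ y : X₁, Sum.inl y ∈ f i ∧ y.1 ∈ NN X₁ X₂ A₁ := by
    intro i j hj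
    obtain ⟨y, hy⟩ := hf i
    obtain ⟨p⟩ := (f1 i).preconnected ⟨Sum.inr j, hj⟩ ⟨Sum.inl y, hy⟩
    obtain ⟨d, _, hd1, hd2⟩ := p.exists_boundary_dart {x | ∃ j, x.1 = Sum.inr j} ⟨j, rfl⟩
      (by rintro ⟨j', hj'⟩; cases hj')
    obtain ⟨⟨⟨a, ha⟩, ⟨b, hb⟩⟩, hadj⟩ := d
    obtain ⟨j1, hj1⟩ := hd1
    change a = Sum.inr j1 at hj1
    subst hj1
    rcases b with b | b
    · exact ⟨b, hb, hadj⟩
    · exact absurd ⟨b, rfl⟩ hd2
  refine ⟨fun i => hh '' f i, ?_, ?_, ?_⟩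
  · intro i
    refine conn_map G (clone G X₁ (NN X₁ X₂ A₁) c) hh _ (f1 _) ?_
    rintro (u | u) hu (v | v) hv huv
    · exact SimpleGraph.Adj.reachable (show G.Adj u.1 v.1 from huv)
    · exact SimpleGraph.Adj.reachable (show G.Adj u.1 (e v).1 from hN u v huv)
    · exact SimpleGraph.Adj.reachable (show G.Adj (e u).1 v.1 from (hN v u huv).symm)
    · obtain ⟨y, hy, hyN⟩ := hb i u hu
      have r1 : (G.induce (hh '' f i)).Adj ⟨hh (Sum.inr u), Sum.inr u, hu, rfl⟩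
          ⟨hh (Sum.inl y), Sum.inl y, hy, rfl⟩ := (hN y u hyN).symm
      have r2 : (G.induce (hh '' f i)).Adj ⟨hh (Sum.inl y), Sum.inl y, hy, rfl⟩
          ⟨hh (Sum.inr v), Sum.inr v, hv, rfl⟩ := hN y v hyN
      exact r1.reachable.trans r2.reachable
  · intro i j hij
    exact (Set.disjoint_image_iff hinj).2 (f2 i j hij)
  · intro i j hij
    obtain ⟨u, hu, v, hv, huv⟩ := f3 i j hij
    rcases u with u | u <;> rcases v with v | v
    · exact ⟨_, ⟨_, hu, rfl⟩, _, ⟨_, hv, rfl⟩, huv⟩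
    · exact ⟨_, ⟨_, hu, rfl⟩, _, ⟨_, hv, rfl⟩, hN u v huv⟩
    · exact ⟨_, ⟨_, hu, rfl⟩, _, ⟨_, hv, rfl⟩, (hN v u huv).symm⟩
    · obtain ⟨y, hy, hyN⟩ := hb i u hu
      exact ⟨_, ⟨_, hy, rfl⟩, _, ⟨_, hv, rfl⟩, hN y v hyN⟩

/-- If `A₂` is small then many new vertices can be coloured. -/
theorem col_small [Finite V] (k c : ℕ) (h0 : (clone G X₂ (NN X₂ X₁ A₂) 0).Colorable k)
    (hA : ∀ x ∈ A₂, x ∈ X₂)
    (hk : c + Nat.card {v // v ∈ X₁ ∧ v ∈ X₂} + Nat.card A₂ ≤ k) :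
    (clone G X₂ (NN X₂ X₁ A₂) c).Colorable k := by
  classical
  obtain ⟨C⟩ := h0
  let K := {v // v ∈ X₁ ∧ v ∈ X₂}
  let r : K ⊕ A₂ → Fin k := Sum.elim (fun v => C (Sum.inl ⟨v.1, v.2.2⟩))
    (fun v => C (Sum.inl ⟨v.1, hA _ v.2⟩))
  let M := {c : Fin k // c ∉ Set.range r}
  have hM : c ≤ Nat.card M := by
    have e1 : Nat.card M + Nat.card (Set.range r) = k := by
      have := Fintype.card_subtype_compl (fun c : Fin k => c ∈ Set.range r)
      have h5 : Fintype.card {c : Fin k // c ∈ Set.range r} ≤ Fintype.card (Fin k) :=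
        Fintype.card_subtype_le _
      rw [Fintype.card_fin] at this h5
      rw [Nat.card_eq_fintype_card, Nat.card_eq_fintype_card]
      change Fintype.card {c : Fin k // c ∉ Set.range r} +
        Fintype.card {c : Fin k // c ∈ Set.range r} = k
      omega
    have e2 : Nat.card (Set.range r) ≤ Nat.card K + Nat.card A₂ := by
      have := Nat.card_le_card_of_surjective (Set.rangeFactorization r)
        Set.rangeFactorization_surjective
      rwa [Nat.card_sum] at this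
    have : Nat.card K = Nat.card {v // v ∈ X₁ ∧ v ∈ X₂} := rfl
    omega
  obtain ⟨m⟩ : Nonempty (Fin c ↪ M) := by
    apply Function.Embedding.nonempty_of_card_le
    rw [Fintype.card_fin, ← Nat.card_eq_fintype_card]
    exact hM
  have key : ∀ (x : X₂) (j : Fin c), x.1 ∈ NN X₂ X₁ A₂ → C (Sum.inl x) ≠ (m j).1 := by
    intro x j hx he
    apply (m j).2
    rw [← he]
    rcases hx with h' | h'
    · exact ⟨Sum.inl ⟨x.1, h'.2, h'.1⟩, rfl⟩
    · exact ⟨Sum.inr ⟨x.1, h'⟩, rfl⟩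
  refine ⟨SimpleGraph.Coloring.mk (Sum.elim (fun x => C (Sum.inl x)) (fun j => (m j).1)) ?_⟩
  rintro (x | i) (y | j) hadj
  · exact C.valid (v := Sum.inl x) (w := Sum.inl y) hadj
  · exact key x j hadj
  · exact (key y i hadj).symm
  · exact fun he => hadj (m.injective (Subtype.ext he))

/-- The main theorem on amalgams. -/
theorem amal_core (h : Amal G X₁ X₂ A₁ A₂) [Finite V] (s : ℕ) (hs : s ≤ 1)
    (h1 : ∀ c, Had (clone G X₁ (NN X₁ X₂ A₁) c))
    (h2 : ∀ c k, ¬ (clone G X₂ (NN X₂ X₁ A₂) c).Colorable k →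
      CMt (clone G X₂ (NN X₂ X₁ A₂) c) (Fin (k + s)))
    (k : ℕ) (hk : ¬ G.Colorable k) : CMt G (Fin (k + s)) := by
  classical
  by_cases p1 : (clone G X₁ (NN X₁ X₂ A₁) 0).Colorable k
  swap
  · exact CMt_of_card (clone_zero (h1 0 k p1)) (by simpa using hs)
  by_cases p2 : (clone G X₂ (NN X₂ X₁ A₂) 0).Colorable k
  swap
  · exact clone_zero (h2 0 k p2)
  obtain ⟨c1, q1, q1'⟩ := exists_last
    (p := fun c => (clone G X₁ (NN X₁ X₂ A₁) c).Colorable k) p1 (k + 1) (clone_big k)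
  obtain ⟨c2, q2, q2'⟩ := exists_last
    (p := fun c => (clone G X₂ (NN X₂ X₁ A₂) c).Colorable k) p2 (k + 1) (clone_big k)
  have hkc : c1 + c2 + Nat.card {v // v ∈ X₁ ∧ v ∈ X₂} + 1 ≤ k := by
    by_contra hcon
    exact hk (col_amal h k c1 c2 q1 q2 (by omega))
  obtain ⟨f, f1, f2, f3⟩ := h1 (c1 + 1) k q1'
  by_cases hcase : ∃ i0, ∀ x ∈ f i0, ∃ j, x = Sum.inr j
  · obtain ⟨i0, hi0⟩ := hcase
    exact case_new h k s c1 c2 hkc f f1 f2 f3 i0 hi0 (h2 (c2 + 1) k q2')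
  · have hf : ∀ i, ∃ y, Sum.inl y ∈ f i := by
      intro i
      by_contra hcon
      apply hcase
      refine ⟨i, ?_⟩
      rintro (x | j) hx
      · exact absurd ⟨x, hx⟩ hcon
      · exact ⟨j, rfl⟩
    by_cases hA : c1 + 1 ≤ Nat.card A₂
    · obtain ⟨e⟩ : Nonempty (Fin (c1 + 1) ↪ A₂) := by
        have : Fintype A₂ := Fintype.ofFinite _
        apply Function.Embedding.nonempty_of_card_le
        rw [Fintype.card_fin, ← Nat.card_eq_fintype_card]
        exact hA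
      exact CMt_of_card (case_large h k (c1 + 1) e f f1 f2 f3 hf) (by simpa using hs)
    · exfalso
      apply q2'
      exact col_small k (c2 + 1) p2 (fun x hx => (h.sub2 x hx).1) (by omega)

end main2

theorem clone_infl {V V' : Type} {G : SimpleGraph V} {X₁ X₂ A₁ A₂ : Set V}
    (h : Amal G X₁ X₂ A₁ A₂) {G' : SimpleGraph V'} {π : V' → V} (hπ : IsInfl G G' π)
    (a : V) (ha : a ∈ A₂) (c : ℕ) :
    IsInfl (G.induce (insert a X₁))
      (clone G' {x | π x ∈ X₁} (NN {x | π x ∈ X₁} {x | π x ∈ X₂} {x | π x ∈ A₁}) c)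
      (Sum.elim (fun x => ⟨π x.1, Set.mem_insert_of_mem _ x.2⟩)
        (fun _ => ⟨a, Set.mem_insert _ _⟩)) := by
  have key : ∀ x : V', π x ∈ X₁ →
      (((π x ∈ X₁ ∧ π x ∈ X₂) ∨ π x ∈ A₁) ↔ (π x = a ∨ G.Adj (π x) a)) := by
    intro x hx
    constructor
    · rintro (h' | h')
      · exact Or.inr (h.comp2 a ha _ h'.1 h'.2).symm
      · exact Or.inr (h.comp _ h' a ha)
    · rintro (h' | h')
      · exact absurd (h' ▸ hx) (h.sub2 a ha).2
      · by_cases hx2 : π x ∈ X₂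
        · exact Or.inl ⟨hx, hx2⟩
        · exact Or.inr (h.none _ _ hx2 (h.sub2 a ha).2 h').1
  rintro (x | i) (y | j) hne
  · have h1 : x.1 ≠ y.1 := fun h => hne (congrArg _ (Subtype.ext h))
    show G'.Adj x.1 y.1 ↔ ((⟨π x.1, _⟩ : (insert a X₁ : Set V)) = ⟨π y.1, _⟩ ∨
      G.Adj (π x.1) (π y.1))
    rw [hπ x.1 y.1 h1, Subtype.mk_eq_mk]
  · show ((π x.1 ∈ X₁ ∧ π x.1 ∈ X₂) ∨ π x.1 ∈ A₁) ↔
      ((⟨π x.1, _⟩ : (insert a X₁ : Set V)) = ⟨a, _⟩ ∨ G.Adj (π x.1) a)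
    rw [Subtype.mk_eq_mk]
    exact key x.1 x.2
  · show ((π y.1 ∈ X₁ ∧ π y.1 ∈ X₂) ∨ π y.1 ∈ A₁) ↔
      ((⟨a, _⟩ : (insert a X₁ : Set V)) = ⟨π y.1, _⟩ ∨ G.Adj a (π y.1))
    rw [Subtype.mk_eq_mk, key y.1 y.2, eq_comm, G.adj_comm]
  · show i ≠ j ↔ _
    refine ⟨fun _ => Or.inl rfl, fun _ h' => hne (congrArg _ h')⟩

theorem all_amal {V : Type} (P : (V : Type) → SimpleGraph V → Prop)
    (hP : P = @Had ∨ P = @Obo) (G : SimpleGraph V) {X₁ X₂ A₁ A₂ : Set V}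
    (h : Amal G X₁ X₂ A₁ A₂) (a₁ a₂ : V) (ha₁ : a₁ ∈ A₁) (ha₂ : a₂ ∈ A₂)
    (h1 : All @Had (G.induce (insert a₂ X₁))) (h2 : All P (G.induce (insert a₁ X₂))) :
    All P G := by
  intro V' _ G' π hπ
  have h' : Amal G' {x | π x ∈ X₁} {x | π x ∈ X₂} {x | π x ∈ A₁} {x | π x ∈ A₂} := by
    refine ⟨fun v => h.cover _, ?_, fun x hx => h.sub1 _ hx, fun x hx => h.sub2 _ hx, ?_, ?_, ?_,
      ?_⟩
    · intro x y x1 x2 y1 y2 hne
      rw [hπ x y hne]
      by_cases he : π x = π y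
      · exact Or.inl he
      · exact Or.inr (h.clique _ _ x1 x2 y1 y2 he)
    · intro x hx y y1 y2
      have hG := h.comp1 _ hx _ y1 y2
      have hne : x ≠ y := fun he => G.irrefl (he ▸ hG)
      exact (hπ x y hne).2 (Or.inr hG)
    · intro x hx y y1 y2
      have hG := h.comp2 _ hx _ y1 y2
      have hne : x ≠ y := fun he => G.irrefl (he ▸ hG)
      exact (hπ x y hne).2 (Or.inr hG)
    · intro x hx y hy
      have hG := h.comp _ hx _ hy
      have hne : x ≠ y := fun he => G.irrefl (he ▸ hG)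
      exact (hπ x y hne).2 (Or.inr hG)
    · intro x y hx hy hadj
      rcases (hπ x y (G'.ne_of_adj hadj)).1 hadj with he | he
      · exfalso
        rcases h.cover (π x) with hc | hc
        · exact hy (show π y ∈ X₁ from he ▸ hc)
        · exact hx hc
      · exact h.none _ _ hx hy he
  have k1 : ∀ c, Had (clone G' {x | π x ∈ X₁} (NN {x | π x ∈ X₁} {x | π x ∈ X₂} {x | π x ∈ A₁}) c) :=
    fun c => h1 _ _ _ (clone_infl h hπ a₂ ha₂ c)
  have k2 : ∀ c, P _ (clone G' {x | π x ∈ X₂} (NN {x | π x ∈ X₂} {x | π x ∈ X₁} {x | π x ∈ A₂}) c) :=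
    fun c => h2 _ _ _ (clone_infl h.symm hπ a₁ ha₁ c)
  rcases hP with rfl | rfl
  · exact fun k hk => amal_core h' 1 le_rfl k1 k2 k hk
  · exact fun k hk => amal_core h' 0 (by omega) k1 k2 k hk

end Pool.Agent.H15.AM
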