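import Pool.Agent.H15.GBHw

/-!
# An example: the curvature operator of a tensor of the class may be indefinite
-/

set_option autoImplicit false

namespace Pool.Agent.H15.GB

open Finset Pool.Agent.W666.GB Pool.Agent.Y489.SM Pool.Agent.Q61.HP Module

variable {m : ℕ}

theorem wirt (x y : Fin m × Bool → ℝ) :
    (∑ i, (x (i, false) * y (i, true) - x (i, true) * y (i, false))) ^ 2 +
      (∑ i, (x (i, false) * y (i, false) + x (i, true) * y (i, true))) ^ 2 ≤
    (∑ i, (x (i, false) * x (i, false) + x (i, true) * x (i, true))) *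
      ∑ i, (y (i, false) * y (i, false) + y (i, true) * y (i, true)) := by
  set a : EuclideanSpace ℂ (Fin m) := WithLp.toLp 2 fun i => ⟨x (i, false), x (i, true)⟩ with ha
  set b : EuclideanSpace ℂ (Fin m) := WithLp.toLp 2 fun i => ⟨y (i, false), y (i, true)⟩ with hb
  have h1 := norm_inner_le_norm (𝕜 := ℂ) a b
  have h2 : ‖inner ℂ a b‖ ^ 2 ≤ ‖a‖ ^ 2 * ‖b‖ ^ 2 := by
    rw [← mul_pow]
    exact pow_le_pow_left₀ (norm_nonneg _) h1 2
  have h3 : ‖a‖ ^ 2 = ∑ i, (x (i, false) * x (i, false) + x (i, true) * x (i, true)) := by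
    rw [EuclideanSpace.norm_sq_eq]
    refine Finset.sum_congr rfl fun i _ => ?_
    rw [← Complex.normSq_eq_norm_sq, Complex.normSq_apply]
  have h4 : ‖b‖ ^ 2 = ∑ i, (y (i, false) * y (i, false) + y (i, true) * y (i, true)) := by
    rw [EuclideanSpace.norm_sq_eq]
    refine Finset.sum_congr rfl fun i _ => ?_
    rw [← Complex.normSq_eq_norm_sq, Complex.normSq_apply]
  have h5 : ‖inner ℂ a b‖ ^ 2 =
      (∑ i, (x (i, false) * y (i, true) - x (i, true) * y (i, false))) ^ 2 +
      (∑ i, (x (i, false) * y (i, false) + x (i, true) * y (i, true))) ^ 2 := by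
    rw [← Complex.normSq_eq_norm_sq, Complex.normSq_apply]
    have e1 : (inner ℂ a b).re =
        ∑ i, (x (i, false) * y (i, false) + x (i, true) * y (i, true)) := by
      rw [PiLp.inner_apply, Complex.re_sum]
      refine Finset.sum_congr rfl fun i _ => ?_
      simp [ha, hb]
      ring
    have e2 : (inner ℂ a b).im =
        ∑ i, (x (i, false) * y (i, true) - x (i, true) * y (i, false)) := by
      rw [PiLp.inner_apply, Complex.im_sum]
      refine Finset.sum_congr rfl fun i _ => ?_
      simp [ha, hb]
      ring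
    rw [e1, e2]
    ring
  rw [← h5, ← h3, ← h4]
  exact h2

variable {V : Type} [NormedAddCommGroup V] [InnerProductSpace ℝ V]

theorem ft_expand (e : OrthonormalBasis (Fin m × Bool) ℝ V) (x y : V) :
    inner ℝ x y = ∑ i, fg (fun p => innerₛₗ ℝ (e p)) i x y := by
  rw [← e.sum_inner_mul_inner x y, Fintype.sum_prod_type]
  refine Finset.sum_congr rfl fun i _ => ?_
  rw [Fintype.sum_bool]
  unfold fg
  simp only [innerₛₗ_apply_apply]
  rw [real_inner_comm (e (i, true)) x, real_inner_comm (e (i, false)) x]
  ring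

/-- the tensor with `β = -1/3` for the metric and the Kähler form -/
theorem example_pos (e : OrthonormalBasis (Fin m × Bool) ℝ V) (hm : 2 ≤ m) :
    ∃ ω : V → V → ℝ, TwoForm ω ∧
      (∀ x y, hwT (fun x y : V => inner ℝ x y) ω (-(1 / 3)) x y x y ≤ 0) ∧
      0 < ∑ i, ∑ j, hwT (fun x y : V => inner ℝ x y) ω (-(1 / 3)) (e (i, false)) (e (i, true))
        (e (j, false)) (e (j, true)) := by
  set ξ : Fin m × Bool → V →ₗ[ℝ] ℝ := fun p => innerₛₗ ℝ (e p) with hξ
  have hin : SemiForm (fun x y : V => inner ℝ x y) :=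
    ⟨fun x x' y => inner_add_left _ _ _, fun t x y => by simp [inner_smul_left],
      fun x y => real_inner_comm _ _, fun x => real_inner_self_nonneg⟩
  have hω : TwoForm (fun x y : V => ∑ i, ft ξ i x y) := by
    refine ⟨fun x x' y => ?_, fun t x y => ?_, fun x y => ?_⟩
    · rw [← Finset.sum_add_distrib]
      exact Finset.sum_congr rfl fun i _ => (ft_two ξ i).add _ _ _
    · rw [Finset.mul_sum]
      exact Finset.sum_congr rfl fun i _ => (ft_two ξ i).smul _ _ _
    · rw [← Finset.sum_neg_distrib]
      exact Finset.sum_congr rfl fun i _ => (ft_two ξ i).skew _ _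
  refine ⟨fun x y => ∑ i, ft ξ i x y, hω, ?_, ?_⟩
  · intro x y
    rw [hwT_sec (SymB.of hin) hω]
    have h1 := wirt (fun p => inner ℝ (e p) x) (fun p => inner ℝ (e p) y)
    have h2 := ft_expand e x y
    have h3 := ft_expand e x x
    have h4 := ft_expand e y y
    simp only [fg, innerₛₗ_apply_apply] at h2 h3 h4
    simp only [ft, hξ, innerₛₗ_apply_apply]
    rw [h2, h3, h4]
    linarith
  · have he : ∀ p q, ξ p (e q) = if p = q then 1 else 0 := by
      intro p q
      rw [hξ]
      simp only [innerₛₗ_apply_apply]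
      exact orthonormal_iff_ite.1 e.orthonormal p q
    have hi : ∀ p q, inner ℝ (e p) (e q) = (if p = q then 1 else 0 : ℝ) :=
      orthonormal_iff_ite.1 e.orthonormal
    have hf : ∀ i j : Fin m, ∑ k, ft ξ k (e (i, false)) (e (j, true)) =
        if i = j then 1 else 0 := by
      intro i j
      simp only [ft, he]
      rw [Finset.sum_eq_single i]
      · simp
      · intro k _ hk
        simp [hk]
      · intro h; exact absurd (Finset.mem_univ _) h
    have hf2 : ∀ i j : Fin m, ∑ k, ft ξ k (e (i, false)) (e (j, false)) = 0 := by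
      intro i j
      simp only [ft, he]
      exact Finset.sum_eq_zero fun k _ => by simp
    have hterm : ∀ i j : Fin m, hwT (fun x y : V => inner ℝ x y) (fun x y => ∑ i, ft ξ i x y)
        (-(1 / 3)) (e (i, false)) (e (i, true)) (e (j, false)) (e (j, true)) =
        if i = j then 0 else 2 / 3 := by
      intro i j
      have h5 : ∑ k, ft ξ k (e (i, true)) (e (j, false)) = -(if i = j then 1 else 0) := by
        rw [← hf i j]
        have := hω.skew (e (i, true)) (e (j, false))
        rw [this, hf, hf]
        simp [eq_comm]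
      simp only [hwT, hf, hf2, h5, hi, Prod.mk.injEq]
      by_cases h : i = j
      · simp [h]
        norm_num
      · simp [h]
        norm_num
    simp only [hterm]
    have h6 : ∀ i : Fin m, ∑ j, (if i = j then (0 : ℝ) else 2 / 3) = 2 / 3 * (m - 1) := by
      intro i
      have : ∀ j, (if i = j then (0 : ℝ) else 2 / 3) = 2 / 3 - if i = j then 2 / 3 else 0 := by
        intro j; split_ifs <;> ring
      simp only [this, Finset.sum_sub_distrib, Finset.sum_const, Finset.card_univ,
        Fintype.card_fin, nsmul_eq_mul, Finset.sum_ite_eq, Finset.mem_univ, if_true]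
      ring
    simp only [h6, Finset.sum_const, Finset.card_univ, Fintype.card_fin, nsmul_eq_mul]
    have : (2 : ℝ) ≤ m := by exact_mod_cast hm
    have h7 : (0 : ℝ) < m - 1 := by linarith
    positivity

end Pool.Agent.H15.GB
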