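import Pool.Agent.H15.GBMain

/-!
# The sign for tensors `-(1/2) h ∧ h - β R_ω`
-/

set_option autoImplicit false

namespace Pool.Agent.H15.GB

open Finset Pool.Agent.W666.GB Pool.Agent.Y489.SM Pool.Agent.Q61.HP Module

variable {V : Type} [NormedAddCommGroup V] [InnerProductSpace ℝ V] {m : ℕ}

theorem SymB.of {h : V → V → ℝ} (hh : SemiForm h) : SymB h := ⟨hh.add, hh.smul, hh.symm⟩

theorem TwoForm.pull {W : Type} [NormedAddCommGroup W] [InnerProductSpace ℝ W] {ω : V → V → ℝ}
    (hω : TwoForm ω) (L : W →ₗ[ℝ] V) : TwoForm fun x y => ω (L x) (L y) where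
  add x x' y := by rw [map_add, hω.add]
  smul t x y := by rw [map_smul, hω.smul]
  skew x y := hω.skew _ _

/-- the skew-adjoint operator of a two-form -/
noncomputable def opJ (e : OrthonormalBasis (Fin m × Bool) ℝ V) {ω : V → V → ℝ}
    (hω : TwoForm ω) : V →ₗ[ℝ] V where
  toFun x := ∑ p, ω x (e p) • e p
  map_add' x y := by
    rw [← Finset.sum_add_distrib]
    refine Finset.sum_congr rfl fun p _ => ?_
    rw [hω.add, add_smul]
  map_smul' t x := by
    rw [Finset.smul_sum]
    refine Finset.sum_congr rfl fun p _ => ?_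
    rw [hω.smul, mul_smul]
    rfl

theorem TwoForm.sum2 {ω : V → V → ℝ} (hω : TwoForm ω) {ι : Type} (S : Finset ι) (f : ι → V)
    (x : V) : ω x (∑ i ∈ S, f i) = ∑ i ∈ S, ω x (f i) := by
  classical
  induction S using Finset.induction_on with
  | empty =>
    have := hω.smul2 0 x 0
    simpa using this
  | insert a S ha ih => rw [Finset.sum_insert ha, Finset.sum_insert ha, hω.add2, ih]

theorem opJ_inner (e : OrthonormalBasis (Fin m × Bool) ℝ V) {ω : V → V → ℝ}
    (hω : TwoForm ω) (x y : V) : inner ℝ (opJ e hω x) y = ω x y := by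
  change inner ℝ (∑ p, ω x (e p) • e p) y = ω x y
  rw [sum_inner]
  conv_rhs => rw [← e.sum_repr' y, hω.sum2]
  refine Finset.sum_congr rfl fun p _ => ?_
  rw [inner_smul_left, hω.smul2, conj_trivial, mul_comm]

/-- an adapted orthonormal basis -/
theorem adapted (e : OrthonormalBasis (Fin m × Bool) ℝ V) {ω : V → V → ℝ} (hω : TwoForm ω) :
    ∃ (ξ : Fin m × Bool → V →ₗ[ℝ] ℝ) (f : Fin m × Bool → V) (t : Fin m → ℝ), (∀ i, 0 ≤ t i) ∧
      (∀ x y, inner ℝ x y = ∑ i, fg ξ i x y) ∧ (∀ x y, ω x y = ∑ i, t i * ft ξ i x y) ∧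
      (∀ p, inner ℝ (f p) (f p) = (1 : ℝ)) ∧
      (∀ i, inner ℝ (f (i, false)) (f (i, true)) = (0 : ℝ)) ∧
      ∀ i, ω (f (i, false)) (f (i, true)) = t i := by
  have hfin : FiniteDimensional ℝ V := Module.Finite.of_basis e.toBasis
  have hcard : finrank ℝ V = 2 * m := by
    rw [finrank_eq_card_basis e.toBasis, Fintype.card_prod, Fintype.card_fin, Fintype.card_bool,
      mul_comm]
  have hJ : ∀ x y, inner ℝ (opJ e hω x) y = -inner ℝ x (opJ e hω y) := by
    intro x y
    rw [opJ_inner, real_inner_comm, opJ_inner, hω.skew]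
  obtain ⟨f, t, ht, -, hfo, hJf⟩ := normal_form (opJ e hω) hJ m ⊤
    (by rw [finrank_top, hcard]) (fun _ _ => trivial)
  have hfc : Fintype.card (Fin m × Bool) = finrank ℝ V := by
    rw [hcard, Fintype.card_prod, Fintype.card_fin, Fintype.card_bool, mul_comm]
  set F : OrthonormalBasis (Fin m × Bool) ℝ V :=
    OrthonormalBasis.mk hfo (by
      rw [hfo.linearIndependent.span_eq_top_of_card_eq_finrank' hfc]) with hF
  have hFf : ∀ p, F p = f p := fun p => by rw [hF, OrthonormalBasis.coe_mk]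
  refine ⟨fun p => innerₛₗ ℝ (f p), f, t, ht, ?_, ?_, ?_, ?_, ?_⟩
  · intro x y
    rw [← F.sum_inner_mul_inner x y, Fintype.sum_prod_type]
    refine Finset.sum_congr rfl fun i _ => ?_
    rw [Fintype.sum_bool]
    unfold fg
    simp only [innerₛₗ_apply_apply, hFf]
    rw [real_inner_comm (f (i, true)) x, real_inner_comm (f (i, false)) x]
    ring
  · intro x y
    rw [← opJ_inner e hω, ← F.sum_inner_mul_inner _ y, Fintype.sum_prod_type]
    refine Finset.sum_congr rfl fun i _ => ?_
    rw [Fintype.sum_bool]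
    unfold ft
    simp only [innerₛₗ_apply_apply, hFf]
    rw [hJ, hJ, (hJf i).1, (hJf i).2, inner_neg_right, inner_smul_right, inner_smul_right,
      real_inner_comm (f (i, true)) x, real_inner_comm (f (i, false)) x]
    ring
  · intro p
    have := orthonormal_iff_ite.1 hfo p p
    simpa using this
  · intro i
    have := orthonormal_iff_ite.1 hfo (i, false) (i, true)
    simpa using this
  · intro i
    rw [← opJ_inner e hω, (hJf i).1, inner_smul_left, conj_trivial]
    have := orthonormal_iff_ite.1 hfo (i, true) (i, true)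
    rw [this, if_pos rfl, mul_one]

/-- the tensor in an adapted basis -/
theorem hw_tor {h ω : V → V → ℝ} {ξ : Fin m × Bool → V →ₗ[ℝ] ℝ} {t : Fin m → ℝ} (β : ℝ)
    (hh : ∀ x y, h x y = ∑ i, fg ξ i x y) (hω : ∀ x y, ω x y = ∑ i, t i * ft ξ i x y) :
    hwT h ω β = torT (fun _ => 0) (fun _ _ => 1) (fun i j => β * (t i * t j)) ξ := by
  funext x y z w
  unfold hwT torT
  simp only [hh, hω, Finset.sum_mul_sum]
  have e1 : (∑ i, ∑ j, t i * ft ξ i x y * (t j * ft ξ j z w)) =
      ∑ i, ∑ j, t i * t j * (ft ξ i x y * ft ξ j z w) :=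
    Finset.sum_congr rfl fun i _ => Finset.sum_congr rfl fun j _ => by ring
  simp only [zero_mul, Finset.sum_const_zero, zero_add, one_mul]
  rw [← Finset.sum_sub_distrib, ← Finset.sum_sub_distrib, Finset.mul_sum, ← Finset.sum_add_distrib,
    Finset.mul_sum, ← Finset.sum_neg_distrib, ← Finset.sum_neg_distrib, ← Finset.sum_sub_distrib]
  refine Finset.sum_congr rfl fun i _ => ?_
  rw [← Finset.sum_sub_distrib, ← Finset.sum_sub_distrib, Finset.mul_sum,
    ← Finset.sum_add_distrib, Finset.mul_sum, ← Finset.sum_neg_distrib, ← Finset.sum_neg_distrib,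
    ← Finset.sum_sub_distrib]
  refine Finset.sum_congr rfl fun j _ => ?_
  ring

theorem hw_pos (e : OrthonormalBasis (Fin m × Bool) ℝ V) {h ω : V → V → ℝ} (hh : PosForm h)
    (hω : TwoForm ω) {β : ℝ} (hs : ∀ x y, hwT h ω β x y x y ≤ 0) :
    0 ≤ (-1) ^ m * gbc e (hwT h ω β) := by
  have hfin : FiniteDimensional ℝ V := Module.Finite.of_basis e.toBasis
  have hcard : finrank ℝ V = 2 * m := by
    rw [finrank_eq_card_basis e.toBasis, Fintype.card_prod, Fintype.card_fin, Fintype.card_bool,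
      mul_comm]
  obtain ⟨L, hL⟩ := exists_frame hcard hh
  have hc := hwT_curv (SymB.of hh.toSemiForm) hω β
  obtain ⟨hd, h2⟩ := gbc_frame e hh.toSemiForm (L := L.toLinearMap) hL hc
  set ω' : EuclideanSpace ℝ (Fin m × Bool) → EuclideanSpace ℝ (Fin m × Bool) → ℝ :=
    fun x y => ω (L x) (L y) with hω'
  have hω2 : TwoForm ω' := hω.pull L.toLinearMap
  obtain ⟨ξ, f, t, ht, h3, h4, h5, h6, h7⟩ := adapted (sb m) hω2
  have h8 : pull (hwT h ω β) L.toLinearMap =
      torT (fun _ => 0) (fun _ _ => 1) (fun i j => β * (t i * t j)) ξ := by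
    rw [← hw_tor β h3 h4]
    funext x y z w
    simp only [pull, hwT, LinearEquiv.coe_coe, hL, hω']
  have hK : ∀ i, 0 ≤ 1 + 3 * (β * (t i * t i)) := by
    intro i
    have h9 := hs (L (f (i, false))) (L (f (i, true)))
    rw [hwT_sec (SymB.of hh.toSemiForm) hω, hL, hL, hL, h5, h5, h6] at h9
    have h10 : ω (L (f (i, false))) (L (f (i, true))) = t i := h7 i
    rw [h10] at h9
    nlinarith
  rw [h2, h8, mul_left_comm]
  refine mul_nonneg hd.le ?_
  rcases le_or_gt 0 β with hβ | hβ
  · refine tor_sign (sb m) ξ _ _ _ (fun _ _ => rfl) (fun i j => by ring) (fun i => ?_)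
      {p | 0 ≤ p.1 ∧ 0 ≤ p.2} ?_ ?_ ?_
    · have := hK i
      linarith
    · rintro p ⟨h1, h2⟩ q ⟨h3, h4⟩
      exact ⟨mul_nonneg h1 h3, mul_nonneg h2 h4⟩
    · rintro p ⟨h1, h2⟩
      linarith
    · intro i j _
      exact ⟨zero_le_one, mul_nonneg hβ (mul_nonneg (ht i) (ht j))⟩
  · refine tor_sign (sb m) ξ _ _ _ (fun _ _ => rfl) (fun i j => by ring) (fun i => ?_)
      {p | 3 * |p.2| ≤ p.1} ?_ ?_ ?_
    · have := hK i
      linarith
    · rintro p h1 q h2
      simp only [Set.mem_ofPred_eq] at h1 h2 ⊢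
      rw [abs_mul]
      have e1 := abs_nonneg p.2
      have e2 := abs_nonneg q.2
      nlinarith [mul_le_mul h1 h2 (by positivity) (by linarith), mul_nonneg e1 e2]
    · rintro p h1
      simp only [Set.mem_ofPred_eq] at h1
      have := neg_abs_le p.2
      have := abs_nonneg p.2
      linarith
    · intro i j _
      simp only [Set.mem_ofPred_eq]
      have h1 := hK i
      have h2 := hK j
      rw [abs_mul, abs_of_neg hβ, abs_of_nonneg (mul_nonneg (ht i) (ht j))]
      nlinarith [mul_nonneg (neg_pos.2 hβ).le (sq_nonneg (t i - t j))]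

theorem semi_cs {h : V → V → ℝ} (hh : SemiForm h) (x y : V) : h x y ^ 2 ≤ h x x * h y y := by
  have h2 : ∀ s : ℝ, 0 ≤ h x x + 2 * s * h x y + s ^ 2 * h y y := by
    intro s
    have h3 := hh.nonneg (x + s • y)
    have e : h (x + s • y) (x + s • y) = h x x + 2 * s * h x y + s ^ 2 * h y y := by
      rw [hh.add, hh.smul, hh.symm x (x + s • y), hh.symm y (x + s • y), hh.add, hh.add, hh.smul,
        hh.smul, hh.symm y x]
      ring
    rwa [e] at h3
  rcases (hh.nonneg y).eq_or_lt with h0 | h0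
  · have h4 : h x y = 0 := by
      by_contra hne
      have h5 := h2 (-(h x x + 1) / (2 * h x y))
      rw [← h0] at h5
      have h6 : 2 * (-(h x x + 1) / (2 * h x y)) * h x y = -(h x x + 1) := by
        field_simp
      rw [h6] at h5
      linarith
    rw [h4, ← h0]
    simp
  · have h5 := h2 (-(h x y) / h y y)
    have h6 : h x x + 2 * (-(h x y) / h y y) * h x y + (-(h x y) / h y y) ^ 2 * h y y =
        (h x x * h y y - h x y ^ 2) / h y y := by
      field_simp
      ring
    rw [h6] at h5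
    have := (div_nonneg_iff.1 h5)
    rcases this with h | h
    · linarith [h.1]
    · linarith [h.2]

theorem hw_semi (e : OrthonormalBasis (Fin m × Bool) ℝ V) {h ω : V → V → ℝ} (hh : SemiForm h)
    (hω : TwoForm ω) {β : ℝ} (hs : ∀ x y, hwT h ω β x y x y ≤ 0) :
    0 ≤ (-1) ^ m * gbc e (hwT h ω β) := by
  set kd : ℝ → V → V → ℝ := fun δ x y => h x y + δ * inner ℝ x y with hkd
  have hpos : ∀ δ : ℝ, 0 < δ → PosForm (kd δ) := by
    intro δ hδ
    refine ⟨⟨?_, ?_, ?_, ?_⟩, ?_⟩
    · intro x x' y; simp only [hkd, hh.add, inner_add_left]; ring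
    · intro t x y; simp only [hkd, hh.smul, inner_smul_left, conj_trivial]; ring
    · intro x y; simp only [hkd]; rw [hh.symm, real_inner_comm]
    · intro x
      simp only [hkd]
      have := hh.nonneg x
      have h2 : 0 ≤ inner ℝ x x := real_inner_self_nonneg
      positivity
    · intro x hx
      simp only [hkd]
      have := hh.nonneg x
      have h2 : 0 < inner ℝ x x := real_inner_self_pos.2 hx
      have h3 : 0 < δ * inner ℝ x x := mul_pos hδ h2
      linarith
  have hin : SemiForm (fun x y : V => inner ℝ x y) :=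
    ⟨fun x x' y => inner_add_left _ _ _, fun t x y => by simp [inner_smul_left],
      fun x y => real_inner_comm _ _, fun x => real_inner_self_nonneg⟩
  have hsec : ∀ δ : ℝ, 0 < δ → ∀ x y, hwT (kd δ) ω β x y x y ≤ 0 := by
    intro δ hδ x y
    refine le_trans ?_ (hs x y)
    rw [hwT_sec (SymB.of (hpos δ hδ).toSemiForm) hω, hwT_sec (SymB.of hh) hω]
    have c1 := semi_cs hh x y
    have c2 := semi_cs hin x y
    set a := h x x with ha
    set b := h y y with hb
    set c := h x y with hc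
    set A : ℝ := inner ℝ x x with hA
    set B : ℝ := inner ℝ y y with hB
    set C : ℝ := inner ℝ x y with hC
    have ha0 : 0 ≤ a := hh.nonneg x
    have hb0 : 0 ≤ b := hh.nonneg y
    have hA0 : 0 ≤ A := real_inner_self_nonneg
    have hB0 : 0 ≤ B := real_inner_self_nonneg
    have key : 2 * (c * C) ≤ a * B + A * b := by
      have h1 : (2 * (c * C)) ^ 2 ≤ (a * B + A * b) ^ 2 := by
        have h2 : (c * C) ^ 2 ≤ (a * b) * (A * B) := by
          rw [mul_pow]
          exact mul_le_mul c1 c2 (sq_nonneg _) (mul_nonneg ha0 hb0)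
        nlinarith [sq_nonneg (a * B - A * b)]
      exact (abs_le_of_sq_le_sq' h1 (by positivity)).2
    have h3 : 0 ≤ A * B - C ^ 2 := by linarith
    have h4 : kd δ x x * kd δ y y - kd δ x y ^ 2 =
        (a * b - c ^ 2) + δ * (a * B + A * b - 2 * (c * C)) + δ ^ 2 * (A * B - C ^ 2) := by
      simp only [hkd, ← ha, ← hb, ← hc, ← hA, ← hB, ← hC]
      ring
    rw [h4]
    have h5 : 0 ≤ δ * (a * B + A * b - 2 * (c * C)) := mul_nonneg hδ.le (by linarith)
    have h6 : 0 ≤ δ ^ 2 * (A * B - C ^ 2) := mul_nonneg (sq_nonneg _) h3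
    linarith
  have hcont : Continuous fun δ : ℝ => (-1) ^ m * gbc e (hwT (kd δ) ω β) := by
    simp only [gbc, hwT, hkd]
    fun_prop
  have h0 : kd 0 = h := by
    funext x y
    simp only [hkd]
    ring
  have h1 : Filter.Tendsto (fun δ : ℝ => (-1) ^ m * gbc e (hwT (kd δ) ω β))
      (nhdsWithin 0 (Set.Ioi 0)) (nhds ((-1) ^ m * gbc e (hwT (kd 0) ω β))) :=
    (hcont.tendsto 0).mono_left nhdsWithin_le_nhds
  rw [h0] at h1
  refine ge_of_tendsto h1 ?_
  filter_upwards [self_mem_nhdsWithin] with δ hδ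
  exact hw_pos e (hpos δ hδ) hω (hsec δ hδ)

end Pool.Agent.H15.GB
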