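import Mathlib

/-!
# Normal form of skew-adjoint operators on even-dimensional Euclidean spaces
-/

set_option autoImplicit false

namespace Pool.Agent.H15.GB

open Module

variable {E : Type} [NormedAddCommGroup E] [InnerProductSpace ℝ E]

/-- an eigenvector of the square with nonzero eigenvalue -/
theorem exists_pair [FiniteDimensional ℝ E] (J : E →ₗ[ℝ] E) (hJ : ∀ x y, inner ℝ (J x) y = -inner ℝ x (J y))
    (W : Submodule ℝ E) (hW : ∀ x ∈ W, J x ∈ W) (hne : ∃ x ∈ W, J x ≠ 0) :
    ∃ (v u : E) (t : ℝ), 0 < t ∧ v ∈ W ∧ u ∈ W ∧ inner ℝ v v = (1 : ℝ) ∧ inner ℝ u u = (1 : ℝ) ∧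
      inner ℝ v u = (0 : ℝ) ∧ J v = t • u ∧ J u = -(t • v) := by
  have hJJ : ∀ x ∈ W, (J ∘ₗ J) x ∈ W := fun x hx => hW _ (hW _ hx)
  set S : W →ₗ[ℝ] W := (J ∘ₗ J).restrict hJJ with hS
  have hSs : S.IsSymmetric := by
    intro x y
    change inner ℝ (J (J (x : E))) (y : E) = inner ℝ (x : E) (J (J (y : E)))
    rw [hJ, hJ, neg_neg]
  set n := finrank ℝ W with hn
  set bs := hSs.eigenvectorBasis (n := n) hn.symm with hbs
  have hex : ∃ i, hSs.eigenvalues hn.symm i ≠ 0 := by
    by_contra hcon
    push Not at hcon
    obtain ⟨x, hx, hx0⟩ := hne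
    have hS0 : S = 0 := by
      refine bs.toBasis.ext fun i => ?_
      rw [OrthonormalBasis.coe_toBasis, hbs, hSs.apply_eigenvectorBasis]
      rw [hcon i]
      simp
    have h1 : inner ℝ (J x) (J x) = (0 : ℝ) := by
      rw [← neg_neg (inner ℝ (J x) (J x)), ← hJ]
      have h2 : J (J x) = 0 := by
        have := congrArg (fun f : W →ₗ[ℝ] W => ((f ⟨x, hx⟩ : W) : E)) hS0
        exact this
      rw [h2, inner_zero_left, neg_zero]
    exact hx0 (inner_self_eq_zero.1 h1)
  obtain ⟨i, hi⟩ := hex
  set lam := hSs.eigenvalues hn.symm i with hlam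
  set v : E := ((bs i : W) : E) with hv
  have hvv : inner ℝ v v = (1 : ℝ) := by
    have h := bs.orthonormal.1 i
    rw [hv, real_inner_self_eq_norm_sq]
    have h' : ‖((bs i : W) : E)‖ = 1 := h
    rw [h']
    norm_num
  have hJJv : J (J v) = lam • v := by
    have h := hSs.apply_eigenvectorBasis hn.symm i
    have h3 := congrArg (fun w : W => (w : E)) h
    exact h3
  have hlam' : inner ℝ (J v) (J v) = -lam := by
    have h1 : inner ℝ (J (J v)) v = -inner ℝ (J v) (J v) := hJ _ _
    rw [hJJv, inner_smul_left, hvv] at h1
    simp only [conj_trivial, mul_one] at h1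
    linarith
  have hpos : 0 < inner ℝ (J v) (J v) := by
    refine lt_of_le_of_ne real_inner_self_nonneg fun h => hi ?_
    rw [← h] at hlam'
    linarith
  set t := Real.sqrt (inner ℝ (J v) (J v)) with ht
  have ht0 : 0 < t := Real.sqrt_pos.2 hpos
  have htt : t * t = inner ℝ (J v) (J v) := Real.mul_self_sqrt hpos.le
  have hvW : v ∈ W := (bs i).2
  refine ⟨v, t⁻¹ • J v, t, ht0, hvW, W.smul_mem _ (hW _ hvW), hvv, ?_, ?_, ?_, ?_⟩
  · rw [inner_smul_left, inner_smul_right, ← htt]
    simp only [conj_trivial]
    field_simp
  · rw [inner_smul_right]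
    have h1 : inner ℝ (J v) v = -inner ℝ v (J v) := hJ _ _
    rw [real_inner_comm] at h1
    have : inner ℝ v (J v) = (0 : ℝ) := by linarith
    rw [this, mul_zero]
  · rw [smul_smul, mul_inv_cancel₀ ht0.ne', one_smul]
  · rw [map_smul, hJJv, smul_smul]
    have : lam = -(t * t) := by rw [htt]; linarith
    rw [this, ← neg_smul]
    congr 1
    field_simp

/-- **Normal form.** -/
theorem normal_form [FiniteDimensional ℝ E] (J : E →ₗ[ℝ] E) (hJ : ∀ x y, inner ℝ (J x) y = -inner ℝ x (J y)) (m : ℕ) :
    ∀ W : Submodule ℝ E, finrank ℝ W = 2 * m → (∀ x ∈ W, J x ∈ W) →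
    ∃ (f : Fin m × Bool → E) (t : Fin m → ℝ), (∀ i, 0 ≤ t i) ∧ (∀ p, f p ∈ W) ∧
      Orthonormal ℝ f ∧ ∀ i, J (f (i, false)) = t i • f (i, true) ∧
        J (f (i, true)) = -(t i • f (i, false)) := by
  induction m with
  | zero =>
    intro W _ _
    refine ⟨fun p => p.1.elim0, fun i => i.elim0, fun i => i.elim0, fun p => p.1.elim0, ?_,
      fun i => i.elim0⟩
    exact ⟨fun p => p.1.elim0, fun p => p.1.elim0⟩
  | succ m ih =>
    intro W hd hW
    by_cases hne : ∃ x ∈ W, J x ≠ 0
    · obtain ⟨v, u, t₀, ht₀, hvW, huW, hvv, huu, hvu, hJv, hJu⟩ := exists_pair J hJ W hW hne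
      set P : Submodule ℝ E := Submodule.span ℝ {v, u} with hP
      have huv : inner ℝ u v = (0 : ℝ) := by rw [real_inner_comm]; exact hvu
      have hPW : P ≤ W := by
        rw [hP, Submodule.span_le]
        rintro x (rfl | rfl)
        · exact hvW
        · exact huW
      have hon : Orthonormal ℝ ![v, u] := by
        constructor
        · intro i
          fin_cases i
          · have : ‖v‖ ^ 2 = 1 := by rw [← real_inner_self_eq_norm_sq]; exact hvv
            have := (pow_eq_one_iff_of_nonneg (norm_nonneg v) two_ne_zero).1 this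
            simpa using this
          · have : ‖u‖ ^ 2 = 1 := by rw [← real_inner_self_eq_norm_sq]; exact huu
            have := (pow_eq_one_iff_of_nonneg (norm_nonneg u) two_ne_zero).1 this
            simpa using this
        · intro i j hij
          fin_cases i <;> fin_cases j
          · exact absurd rfl hij
          · simpa using hvu
          · simpa using huv
          · exact absurd rfl hij
      have hP2 : finrank ℝ P = 2 := by
        have h1 := finrank_span_eq_card (R := ℝ) hon.linearIndependent
        have h2 : Set.range ![v, u] = {v, u} := by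
          ext x
          simp only [Set.mem_range, Fin.exists_fin_two, Set.mem_insert_iff, Set.mem_singleton_iff]
          simp [eq_comm]
        rw [h2] at h1
        simpa using h1
      have hW' : finrank ℝ (Pᗮ ⊓ W : Submodule ℝ E) = 2 * m := by
        have := Submodule.finrank_add_inf_finrank_orthogonal hPW
        omega
      have hmem : ∀ x, x ∈ (Pᗮ ⊓ W : Submodule ℝ E) →
          inner ℝ v x = (0 : ℝ) ∧ inner ℝ u x = (0 : ℝ) ∧ x ∈ W := by
        intro x hx
        refine ⟨?_, ?_, hx.2⟩
        · exact hx.1 v (Submodule.subset_span (by simp))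
        · exact hx.1 u (Submodule.subset_span (by simp))
      have hJW' : ∀ x ∈ (Pᗮ ⊓ W : Submodule ℝ E), J x ∈ (Pᗮ ⊓ W : Submodule ℝ E) := by
        intro x hx
        obtain ⟨h1, h2, h3⟩ := hmem x hx
        refine ⟨?_, hW x h3⟩
        rw [hP]
        intro y hy
        have e1 : inner ℝ v (J x) = (0 : ℝ) := by
          have := hJ v x
          rw [hJv, inner_smul_left, h2, mul_zero] at this
          linarith
        have e2 : inner ℝ u (J x) = (0 : ℝ) := by
          have := hJ u x
          rw [hJu, inner_neg_left, inner_smul_left, h1, mul_zero] at this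
          linarith
        obtain ⟨a, b, rfl⟩ := Submodule.mem_span_pair.1 hy
        rw [inner_add_left, inner_smul_left, inner_smul_left, e1, e2]
        simp
      obtain ⟨f, t, ht, hfW, hfo, hJf⟩ := ih _ hW' hJW'
      set F : Fin (m + 1) × Bool → E := fun p =>
        Fin.cases (motive := fun _ => E) (if p.2 then u else v) (fun i => f (i, p.2)) p.1 with hF
      have hFf : F (0, false) = v := rfl
      have hFt : F (0, true) = u := rfl
      have hFs : ∀ i β, F (Fin.succ i, β) = f (i, β) := fun i β => rfl
      refine ⟨F, Fin.cases t₀ t, ?_, ?_, ?_, ?_⟩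
      · intro i
        refine Fin.cases ?_ (fun i => ?_) i
        · exact ht₀.le
        · exact ht i
      · rintro ⟨i, β⟩
        refine Fin.cases ?_ (fun i => ?_) i
        · cases β
          · exact hvW
          · exact huW
        · rw [hFs]; exact (hmem _ (hfW _)).2.2
      · rw [orthonormal_iff_ite]
        rintro ⟨i, β⟩ ⟨j, β'⟩
        have hfo' := orthonormal_iff_ite.1 hfo
        refine Fin.cases ?_ (fun i => ?_) i
        · refine Fin.cases ?_ (fun j => ?_) j
          · cases β <;> cases β'
            · rw [if_pos rfl]; exact hvv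
            · rw [if_neg (by simp)]; exact hvu
            · rw [if_neg (by simp)]; exact huv
            · rw [if_pos rfl]; exact huu
          · obtain ⟨h1, h2, -⟩ := hmem _ (hfW (j, β'))
            have hn : ((0 : Fin (m + 1)), β) ≠ (Fin.succ j, β') := fun h =>
              (Fin.succ_ne_zero j).symm (Prod.mk.inj h).1
            rw [if_neg hn]
            cases β
            · exact h1
            · exact h2
        · refine Fin.cases ?_ (fun j => ?_) j
          · obtain ⟨h1, h2, -⟩ := hmem _ (hfW (i, β))
            have hn : (Fin.succ i, β) ≠ ((0 : Fin (m + 1)), β') := fun h =>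
              (Fin.succ_ne_zero i) (Prod.mk.inj h).1
            rw [if_neg hn, real_inner_comm]
            cases β'
            · exact h1
            · exact h2
          · rw [hFs, hFs, hfo']
            by_cases h : i = j ∧ β = β'
            · obtain ⟨rfl, rfl⟩ := h
              simp
            · rw [if_neg, if_neg]
              · intro h'
                apply h
                have := Prod.mk.inj h'
                exact ⟨Fin.succ_injective _ this.1, this.2⟩
              · intro h'
                exact h (Prod.mk.inj h')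
      · intro i
        refine Fin.cases ?_ (fun i => ?_) i
        · exact ⟨hJv, hJu⟩
        · exact hJf i
    · push Not at hne
      have hc : Fintype.card (Fin (m + 1) × Bool) = finrank ℝ W := by
        rw [hd, Fintype.card_prod, Fintype.card_fin, Fintype.card_bool, mul_comm]
      set bs : OrthonormalBasis (Fin (m + 1) × Bool) ℝ W :=
        (stdOrthonormalBasis ℝ W).reindex (Fintype.equivOfCardEq (by simp [hc])) with hbs
      refine ⟨fun p => ((bs p : W) : E), fun _ => 0, fun _ => le_rfl, fun p => (bs p).2, ?_, ?_⟩
      · exact bs.orthonormal.comp_linearIsometry W.subtypeₗᵢ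
      · intro i
        rw [hne _ (bs (i, false)).2, hne _ (bs (i, true)).2]
        simp

end Pool.Agent.H15.GB
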