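import Pool.Agent.H15.GBTor
import Pool.Agent.H15.GBNorm

/-!
# Tensors `-(1/2) h ∧ h - β R_ω`
-/

set_option autoImplicit false

namespace Pool.Agent.H15.GB

open Finset Pool.Agent.W666.GB Pool.Agent.Y489.SM Pool.Agent.Q61.HP Module

section curv

variable {V : Type} [NormedAddCommGroup V] [InnerProductSpace ℝ V]

/-- two-forms -/
structure TwoForm (ω : V → V → ℝ) : Prop where
  add : ∀ x x' y, ω (x + x') y = ω x y + ω x' y
  smul : ∀ (t : ℝ) x y, ω (t • x) y = t * ω x y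
  skew : ∀ x y, ω x y = -ω y x

/-- symmetric forms -/
structure SymB (h : V → V → ℝ) : Prop where
  add : ∀ x x' y, h (x + x') y = h x y + h x' y
  smul : ∀ (t : ℝ) x y, h (t • x) y = t * h x y
  symm : ∀ x y, h x y = h y x

theorem TwoForm.self {ω : V → V → ℝ} (hω : TwoForm ω) (x : V) : ω x x = 0 := by
  have := hω.skew x x
  linarith

theorem TwoForm.add2 {ω : V → V → ℝ} (hω : TwoForm ω) (x y y' : V) :
    ω x (y + y') = ω x y + ω x y' := by
  rw [hω.skew, hω.add, hω.skew y, hω.skew y']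
  ring

theorem TwoForm.smul2 {ω : V → V → ℝ} (hω : TwoForm ω) (t : ℝ) (x y : V) :
    ω x (t • y) = t * ω x y := by
  rw [hω.skew, hω.smul, hω.skew y]
  ring

theorem curv_add {R S : V → V → V → V → ℝ} (hR : AlgCurv R) (hS : AlgCurv S) :
    AlgCurv (fun x y z w => R x y z w + S x y z w) where
  add x x' y z w := by rw [hR.add, hS.add]; ring
  smul t x y z w := by rw [hR.smul, hS.smul]; ring
  anti x y z w := by rw [hR.anti, hS.anti]; ring
  pair x y z w := by rw [hR.pair, hS.pair]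
  bianchi x y z w := by
    have h1 := hR.bianchi x y z w
    have h2 := hS.bianchi x y z w
    linarith

theorem curv_smul {R : V → V → V → V → ℝ} (c : ℝ) (hR : AlgCurv R) :
    AlgCurv (fun x y z w => c * R x y z w) where
  add x x' y z w := by rw [hR.add]; ring
  smul t x y z w := by rw [hR.smul]; ring
  anti x y z w := by rw [hR.anti]; ring
  pair x y z w := by rw [hR.pair]
  bianchi x y z w := by
    have h1 := hR.bianchi x y z w
    linear_combination c * h1

theorem curv_zero : AlgCurv (fun _ _ _ _ : V => (0 : ℝ)) where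
  add _ _ _ _ _ := by simp
  smul _ _ _ _ _ := by simp
  anti _ _ _ _ := by simp
  pair _ _ _ _ := rfl
  bianchi _ _ _ _ := by simp

theorem curv_sum {ι : Type} (S : Finset ι) (R : ι → V → V → V → V → ℝ)
    (hR : ∀ i ∈ S, AlgCurv (R i)) : AlgCurv (fun x y z w => ∑ i ∈ S, R i x y z w) := by
  classical
  induction S using Finset.induction_on with
  | empty => simpa using curv_zero
  | insert a S ha ih =>
    simp only [Finset.sum_insert ha]
    exact curv_add (hR a (Finset.mem_insert_self _ _))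
      (ih fun i hi => hR i (Finset.mem_insert_of_mem hi))

theorem curv_sym {h k : V → V → ℝ} (hh : SymB h) (hk : SymB k) :
    AlgCurv (fun x y z w => h x z * k y w + k x z * h y w - h x w * k y z - k x w * h y z) where
  add x x' y z w := by simp only [hh.add, hk.add]; ring
  smul t x y z w := by simp only [hh.smul, hk.smul]; ring
  anti x y z w := by ring
  pair x y z w := by
    rw [hh.symm z x, hk.symm w y, hk.symm z x, hh.symm w y, hh.symm z y, hk.symm w x,
      hk.symm z y, hh.symm w x]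
    ring
  bianchi x y z w := by
    rw [hh.symm z x, hk.symm z x, hh.symm y x, hk.symm y x, hh.symm z y, hk.symm z y]
    ring

theorem curv_two {s t : V → V → ℝ} (hs : TwoForm s) (ht : TwoForm t) :
    AlgCurv (fun x y z w => s x z * t y w + t x z * s y w - s x w * t y z - t x w * s y z +
      2 * (s x y * t z w) + 2 * (t x y * s z w)) where
  add x x' y z w := by simp only [hs.add, ht.add]; ring
  smul r x y z w := by simp only [hs.smul, ht.smul]; ring
  anti x y z w := by rw [hs.skew y x, ht.skew y x]; ring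
  pair x y z w := by
    rw [hs.skew z x, ht.skew w y, ht.skew z x, hs.skew w y, hs.skew z y, ht.skew w x,
      ht.skew z y, hs.skew w x]
    ring
  bianchi x y z w := by
    rw [hs.skew z x, ht.skew z x, hs.skew y x, ht.skew y x, hs.skew z y, ht.skew z y]
    ring

/-- `-(1/2) h ∧ h - β R_ω` -/
def hwT (h ω : V → V → ℝ) (β : ℝ) (x y z w : V) : ℝ :=
  -(h x z * h y w - h x w * h y z) -
    β * (ω x z * ω y w - ω x w * ω y z + 2 * (ω x y * ω z w))

theorem hwT_curv {h ω : V → V → ℝ} (hh : SymB h) (hω : TwoForm ω) (β : ℝ) :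
    AlgCurv (hwT h ω β) := by
  have h1 := curv_add (curv_smul (-(1 / 2)) (curv_sym hh hh))
    (curv_smul (-(β / 2)) (curv_two hω hω))
  have h2 : hwT h ω β = fun x y z w =>
      -(1 / 2) * (h x z * h y w + h x z * h y w - h x w * h y z - h x w * h y z) +
      -(β / 2) * (ω x z * ω y w + ω x z * ω y w - ω x w * ω y z - ω x w * ω y z +
        2 * (ω x y * ω z w) + 2 * (ω x y * ω z w)) := by
    funext x y z w
    unfold hwT
    ring
  rw [h2]
  exact h1

theorem hwT_sec {h ω : V → V → ℝ} (hh : SymB h) (hω : TwoForm ω) (β : ℝ) (x y : V) :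
    hwT h ω β x y x y = -(h x x * h y y - h x y ^ 2) - 3 * β * ω x y ^ 2 := by
  unfold hwT
  rw [hω.self x, hω.self y, hh.symm y x, hω.skew y x]
  ring

end curv

section tor

variable {V : Type} [NormedAddCommGroup V] [InnerProductSpace ℝ V] {m : ℕ}

/-- `ξ_{i,0} ⊗ ξ_{i,0} + ξ_{i,1} ⊗ ξ_{i,1}` -/
def fg (ξ : Fin m × Bool → V →ₗ[ℝ] ℝ) (i : Fin m) (x y : V) : ℝ :=
  ξ (i, false) x * ξ (i, false) y + ξ (i, true) x * ξ (i, true) y

/-- `ξ_{i,0} ∧ ξ_{i,1}` -/
def ft (ξ : Fin m × Bool → V →ₗ[ℝ] ℝ) (i : Fin m) (x y : V) : ℝ :=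
  ξ (i, false) x * ξ (i, true) y - ξ (i, true) x * ξ (i, false) y

theorem fg_sym (ξ : Fin m × Bool → V →ₗ[ℝ] ℝ) (i : Fin m) : SymB (fg ξ i) where
  add x x' y := by unfold fg; rw [map_add, map_add]; ring
  smul t x y := by unfold fg; rw [map_smul, map_smul, smul_eq_mul, smul_eq_mul]; ring
  symm x y := by unfold fg; ring

theorem ft_two (ξ : Fin m × Bool → V →ₗ[ℝ] ℝ) (i : Fin m) : TwoForm (ft ξ i) where
  add x x' y := by unfold ft; rw [map_add, map_add]; ring
  smul t x y := by unfold ft; rw [map_smul, map_smul, smul_eq_mul, smul_eq_mul]; ring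
  skew x y := by unfold ft; ring

/-- the torus invariant tensor -/
def torT (a : Fin m → ℝ) (b γ : Fin m → Fin m → ℝ) (ξ : Fin m × Bool → V →ₗ[ℝ] ℝ)
    (x y z w : V) : ℝ :=
  -(∑ i, a i * (ft ξ i x y * ft ξ i z w) + ∑ i, ∑ j,
    (b i j * (fg ξ i x z * fg ξ j y w - fg ξ i x w * fg ξ j y z) +
      γ i j * (ft ξ i x z * ft ξ j y w - ft ξ i x w * ft ξ j y z +
        2 * (ft ξ i x y * ft ξ j z w))))

theorem curv_dec (ξ : Fin m × Bool → V →ₗ[ℝ] ℝ) (i : Fin m) :
    AlgCurv (fun x y z w => ft ξ i x y * ft ξ i z w) where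
  add x x' y z w := by rw [(ft_two ξ i).add]; ring
  smul t x y z w := by rw [(ft_two ξ i).smul]; ring
  anti x y z w := by rw [(ft_two ξ i).skew y x]; ring
  pair x y z w := by ring
  bianchi x y z w := by unfold ft; ring

theorem torT_curv (a : Fin m → ℝ) (b γ : Fin m → Fin m → ℝ) (hb : ∀ i j, b i j = b j i)
    (hγ : ∀ i j, γ i j = γ j i) (ξ : Fin m × Bool → V →ₗ[ℝ] ℝ) : AlgCurv (torT a b γ ξ) := by
  have h1 := curv_smul (-1) (curv_add
    (curv_sum Finset.univ _ fun i _ => curv_smul (a i) (curv_dec ξ i))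
    (curv_sum Finset.univ _ fun i _ => curv_sum Finset.univ _ fun j _ =>
      curv_add (curv_smul (b i j / 2) (curv_sym (fg_sym ξ i) (fg_sym ξ j)))
        (curv_smul (γ i j / 2) (curv_two (ft_two ξ i) (ft_two ξ j)))))
  have h2 : torT a b γ ξ = fun x y z w => -1 * (∑ i, a i * (ft ξ i x y * ft ξ i z w) +
      ∑ i, ∑ j, (b i j / 2 * (fg ξ i x z * fg ξ j y w + fg ξ j x z * fg ξ i y w -
        fg ξ i x w * fg ξ j y z - fg ξ j x w * fg ξ i y z) +
        γ i j / 2 * (ft ξ i x z * ft ξ j y w + ft ξ j x z * ft ξ i y w -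
        ft ξ i x w * ft ξ j y z - ft ξ j x w * ft ξ i y z + 2 * (ft ξ i x y * ft ξ j z w) +
        2 * (ft ξ j x y * ft ξ i z w)))) := by
    funext x y z w
    unfold torT
    rw [neg_one_mul]
    congr 2
    have h3 : ∑ i, ∑ j, (b i j * (fg ξ i x z * fg ξ j y w - fg ξ i x w * fg ξ j y z) +
      γ i j * (ft ξ i x z * ft ξ j y w - ft ξ i x w * ft ξ j y z +
        2 * (ft ξ i x y * ft ξ j z w))) = ∑ i, ∑ j,
        (b i j * (fg ξ j x z * fg ξ i y w - fg ξ j x w * fg ξ i y z) +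
      γ i j * (ft ξ j x z * ft ξ i y w - ft ξ j x w * ft ξ i y z +
        2 * (ft ξ j x y * ft ξ i z w))) := by
      rw [Finset.sum_comm]
      refine Finset.sum_congr rfl fun i _ => Finset.sum_congr rfl fun j _ => ?_
      rw [hb j i, hγ j i]
    rw [← add_halves (∑ i, ∑ j, (b i j * (fg ξ i x z * fg ξ j y w - fg ξ i x w * fg ξ j y z) +
      γ i j * (ft ξ i x z * ft ξ j y w - ft ξ i x w * ft ξ j y z +
        2 * (ft ξ i x y * ft ξ j z w))))]
    conv_lhs => rw [h3]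
    nth_rewrite 1 [← h3]
    rw [← add_div, ← Finset.sum_add_distrib, Finset.sum_div]
    refine Finset.sum_congr rfl fun i _ => ?_
    rw [← Finset.sum_add_distrib, Finset.sum_div]
    refine Finset.sum_congr rfl fun j _ => ?_
    ring
  rw [h2]
  exact h1

/-- coordinates -/
noncomputable def co (m : ℕ) (p : Fin m × Bool) : EuclideanSpace ℝ (Fin m × Bool) →ₗ[ℝ] ℝ :=
  (EuclideanSpace.proj p : EuclideanSpace ℝ (Fin m × Bool) →L[ℝ] ℝ).toLinearMap

theorem co_apply (p : Fin m × Bool) (x : EuclideanSpace ℝ (Fin m × Bool)) : co m p x = x p := rfl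

theorem co_sb (p q : Fin m × Bool) : co m p (sb m q) = if q = p then 1 else 0 := by
  rw [co_apply]
  unfold sb
  rw [EuclideanSpace.basisFun_apply]
  simp [eq_comm]

theorem fg_co (i : Fin m) (p q : Fin m × Bool) : fg (co m) i (sb m p) (sb m q) = cg i p q := by
  unfold fg cg
  rw [co_sb, co_sb, co_sb, co_sb]

theorem ft_co (i : Fin m) (p q : Fin m × Bool) : ft (co m) i (sb m p) (sb m q) = ct i p q := by
  unfold ft ct
  rw [co_sb, co_sb, co_sb, co_sb]

/-- the map with the coordinates `ξ` -/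
noncomputable def mp (ξ : Fin m × Bool → V →ₗ[ℝ] ℝ) : V →ₗ[ℝ] EuclideanSpace ℝ (Fin m × Bool) :=
  (WithLp.linearEquiv 2 ℝ (Fin m × Bool → ℝ)).symm.toLinearMap ∘ₗ LinearMap.pi ξ

theorem co_mp (ξ : Fin m × Bool → V →ₗ[ℝ] ℝ) (p : Fin m × Bool) (x : V) :
    co m p (mp ξ x) = ξ p x := rfl

theorem tor_sign (e : OrthonormalBasis (Fin m × Bool) ℝ V) (ξ : Fin m × Bool → V →ₗ[ℝ] ℝ)
    (a : Fin m → ℝ) (b γ : Fin m → Fin m → ℝ) (hb : ∀ i j, b i j = b j i)
    (hγ : ∀ i j, γ i j = γ j i) (hc : ∀ i, 0 ≤ a i + b i i + 3 * γ i i)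
    (𝒞 : Set (ℝ × ℝ)) (hmul : ∀ p ∈ 𝒞, ∀ q ∈ 𝒞, (p.1 * q.1, p.2 * q.2) ∈ 𝒞)
    (hpos : ∀ p ∈ 𝒞, 0 ≤ p.1 + 3 * p.2) (hin : ∀ i j, i ≠ j → (b i j, γ i j) ∈ 𝒞) :
    0 ≤ (-1) ^ m * gbc e (torT a b γ ξ) := by
  have h1 : torT a b γ ξ = pull (torT a b γ (co m)) (mp ξ) := rfl
  rw [h1, gbc_pull (sb m) e (torT_curv a b γ hb hγ _)]
  have h2 : gbc (sb m) (torT a b γ (co m)) = 1 / ((8 * Real.pi) ^ m * m.factorial) *
      ((-1) ^ m * ∑ σ : Equiv.Perm (Fin m × Bool), ∑ τ : Equiv.Perm (Fin m × Bool),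
      ((Equiv.Perm.sign σ : ℤ) : ℝ) * ((Equiv.Perm.sign τ : ℤ) : ℝ) *
        ∏ β : Fin m, cT a b γ (σ (β, false)) (σ (β, true)) (τ (β, false)) (τ (β, true))) := by
    unfold gbc
    congr 1
    rw [Finset.mul_sum]
    refine Finset.sum_congr rfl fun σ _ => ?_
    rw [Finset.mul_sum]
    refine Finset.sum_congr rfl fun τ _ => ?_
    have h3 : ∀ p q r s : Fin m × Bool, torT a b γ (co m) (sb m p) (sb m q) (sb m r) (sb m s) =
        -cT a b γ p q r s := by
      intro p q r s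
      unfold torT cT
      simp only [fg_co, ft_co]
    simp only [h3]
    rw [Finset.prod_neg, Finset.card_univ, Fintype.card_fin]
    ring
  rw [h2]
  have h4 := cT_pos a b γ hb hγ hc 𝒞 hmul hpos hin
  have h5 : ((-1 : ℝ) ^ m) * (-1) ^ m = 1 := by rw [← mul_pow]; norm_num
  have hπ := Real.pi_pos
  set S := ∑ σ : Equiv.Perm (Fin m × Bool), ∑ τ : Equiv.Perm (Fin m × Bool),
      ((Equiv.Perm.sign σ : ℤ) : ℝ) * ((Equiv.Perm.sign τ : ℤ) : ℝ) *
        ∏ β : Fin m, cT a b γ (σ (β, false)) (σ (β, true)) (τ (β, false)) (τ (β, true)) with hS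
  have h6 : (-1 : ℝ) ^ m * ((sb m).toBasis.det (fun i => mp ξ (e i)) ^ 2 *
      (1 / ((8 * Real.pi) ^ m * m.factorial) * ((-1) ^ m * S))) =
      ((-1 : ℝ) ^ m * (-1) ^ m) * ((sb m).toBasis.det (fun i => mp ξ (e i)) ^ 2 *
      (1 / ((8 * Real.pi) ^ m * m.factorial) * S)) := by ring
  rw [h6, h5, one_mul]
  exact mul_nonneg (sq_nonneg _) (mul_nonneg (by positivity) h4)

end tor

end Pool.Agent.H15.GB
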