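import Mathlib

/-!
# Alternating double sums as a functional on a polynomial ring
-/

set_option autoImplicit false

namespace Pool.Agent.H15.GB

open MvPolynomial Finset

variable {X : Type} [Fintype X] [DecidableEq X]

/-- the exponent of the monomial `∏ X (p, κ p)` -/
noncomputable def mon (κ : Equiv.Perm X) : (X × X) →₀ ℕ := ∑ p, Finsupp.single (p, κ p) 1

theorem mon_apply (κ : Equiv.Perm X) (p q : X) : mon κ (p, q) = if q = κ p then 1 else 0 := by
  unfold mon
  rw [Finsupp.finsetSum_apply]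
  simp only [Finsupp.single_apply, Prod.mk.injEq]
  rw [Finset.sum_eq_single p]
  · by_cases h : q = κ p
    · simp [h]
    · have : κ p ≠ q := fun h' => h h'.symm
      simp [h, this]
  · intro b _ hb
    simp [hb]
  · intro h; exact absurd (Finset.mem_univ _) h

/-- the functional -/
noncomputable def topL : MvPolynomial (X × X) ℝ →ₗ[ℝ] ℝ :=
  ∑ κ : Equiv.Perm X, ((Equiv.Perm.sign κ : ℤ) : ℝ) • MvPolynomial.lcoeff ℝ (mon κ)

theorem topL_apply (F : MvPolynomial (X × X) ℝ) :
    topL F = ∑ κ : Equiv.Perm X, ((Equiv.Perm.sign κ : ℤ) : ℝ) * coeff (mon κ) F := by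
  simp [topL, LinearMap.sum_apply, MvPolynomial.lcoeff_apply]

/-- the kernel ideal of the functional -/
noncomputable def ker (X : Type) [Fintype X] [DecidableEq X] : Ideal (MvPolynomial (X × X) ℝ) where
  carrier := {F | ∀ H, topL (H * F) = 0}
  add_mem' := by
    intro a b ha hb H
    rw [mul_add, map_add, ha, hb, add_zero]
  zero_mem' := by
    intro H
    simp
  smul_mem' := by
    intro c x hx H
    rw [smul_eq_mul, ← mul_assoc]
    exact hx _

theorem mem_ker {F : MvPolynomial (X × X) ℝ} : F ∈ ker X ↔ ∀ H, topL (H * F) = 0 := Iff.rfl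

/-- the quotient ring -/
abbrev QR (X : Type) [Fintype X] [DecidableEq X] : Type := MvPolynomial (X × X) ℝ ⧸ ker X

/-- the generators -/
noncomputable def gm (p q : X) : QR X := Ideal.Quotient.mk (ker X) (MvPolynomial.X (p, q))

/-- a representative -/
noncomputable def rep (x : QR X) : MvPolynomial (X × X) ℝ :=
  Classical.choose (Ideal.Quotient.mk_surjective (I := ker X) x)

theorem mk_rep (x : QR X) : Ideal.Quotient.mk (ker X) (rep x) = x :=
  Classical.choose_spec (Ideal.Quotient.mk_surjective (I := ker X) x)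

theorem topL_congr {F G : MvPolynomial (X × X) ℝ}
    (h : Ideal.Quotient.mk (ker X) F = Ideal.Quotient.mk (ker X) G) : topL F = topL G := by
  rw [← sub_eq_zero, ← map_sub]
  have := (Ideal.Quotient.eq.1 h) 1
  rwa [one_mul] at this

/-- the functional on the quotient -/
noncomputable def tp : QR X →ₗ[ℝ] ℝ where
  toFun x := topL (rep x)
  map_add' := by
    intro x y
    rw [← map_add]
    apply topL_congr
    rw [map_add, mk_rep, mk_rep, mk_rep]
  map_smul' := by
    intro c x
    rw [RingHom.id_apply, ← map_smul]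
    apply topL_congr
    have : (Ideal.Quotient.mk (ker X)) (c • rep x) = c • (Ideal.Quotient.mk (ker X)) (rep x) := rfl
    rw [this, mk_rep, mk_rep]

theorem tp_mk (F : MvPolynomial (X × X) ℝ) : tp (Ideal.Quotient.mk (ker X) F) = topL F :=
  topL_congr (mk_rep _)

/-- coefficient of a monomial in a product with a variable -/
theorem coeff_mul_X2 (H : MvPolynomial (X × X) ℝ) (κ : Equiv.Perm X) (p r q s : X) :
    coeff (mon κ) (H * (MvPolynomial.X (p, r) * MvPolynomial.X (q, s))) =
      if κ p = r ∧ κ q = s ∧ p ≠ q then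
        coeff (mon κ - Finsupp.single (p, r) 1 - Finsupp.single (q, s) 1) H else 0 := by
  rw [← mul_assoc, coeff_mul_X', ]
  by_cases h2 : κ q = s
  · have hm : (q, s) ∈ (mon κ).support := by
      rw [Finsupp.mem_support_iff, mon_apply, if_pos h2.symm]; exact one_ne_zero
    rw [if_pos hm, coeff_mul_X']
    by_cases h1 : κ p = r
    · by_cases h3 : p = q
      · subst h3
        have : r = s := h1.symm.trans h2
        subst this
        rw [if_neg, if_neg]
        · simp
        · rw [Finsupp.mem_support_iff]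
          simp [mon_apply, h1]
      · have hm' : (p, r) ∈ (mon κ - Finsupp.single (q, s) 1).support := by
          rw [Finsupp.mem_support_iff, Finsupp.tsub_apply, mon_apply, if_pos h1.symm,
            Finsupp.single_apply, if_neg]
          · norm_num
          · intro h; exact h3 (Prod.mk.inj h).1.symm
        rw [if_pos hm', if_pos ⟨h1, h2, h3⟩]
        congr 1
        rw [tsub_tsub, tsub_tsub, add_comm]
    · rw [if_neg, if_neg]
      · intro h; exact h1 h.1
      · rw [Finsupp.mem_support_iff, Finsupp.tsub_apply, mon_apply, if_neg (fun h => h1 h.symm)]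
        simp
  · rw [if_neg, if_neg]
    · intro h; exact h2 h.2.1
    · rw [Finsupp.mem_support_iff, mon_apply, if_neg (fun h => h2 h.symm)]
      simp

theorem topL_X2 (H : MvPolynomial (X × X) ℝ) (p r q s : X) :
    topL (H * (MvPolynomial.X (p, r) * MvPolynomial.X (q, s))) =
      ∑ κ : Equiv.Perm X, ((Equiv.Perm.sign κ : ℤ) : ℝ) * (if κ p = r ∧ κ q = s ∧ p ≠ q then
        coeff (mon κ - Finsupp.single (p, r) 1 - Finsupp.single (q, s) 1) H else 0) := by
  rw [topL_apply]
  simp only [coeff_mul_X2]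

/-- same row -/
theorem gm_row (p r s : X) : gm p r * gm p s = 0 := by
  unfold gm
  rw [← map_mul, Ideal.Quotient.eq_zero_iff_mem, mem_ker]
  intro H
  rw [topL_X2]
  simp

/-- same column -/
theorem gm_col (p q r : X) : gm p r * gm q r = 0 := by
  unfold gm
  rw [← map_mul, Ideal.Quotient.eq_zero_iff_mem, mem_ker]
  intro H
  rw [topL_X2]
  refine Finset.sum_eq_zero fun κ _ => ?_
  rw [if_neg, mul_zero]
  rintro ⟨h1, h2, h3⟩
  exact h3 (κ.injective (h1.trans h2.symm))

theorem mon_mul_swap (κ : Equiv.Perm X) (p q a b : X) :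
    mon (κ * Equiv.swap p q) (a, b) = if b = κ (Equiv.swap p q a) then 1 else 0 :=
  mon_apply _ _ _

theorem mon_swap (κ : Equiv.Perm X) (p q : X) (h : p ≠ q) :
    mon (κ * Equiv.swap p q) - Finsupp.single (p, κ q) 1 - Finsupp.single (q, κ p) 1 =
      mon κ - Finsupp.single (p, κ p) 1 - Finsupp.single (q, κ q) 1 := by
  ext ⟨a, b⟩
  simp only [Finsupp.tsub_apply, mon_mul_swap]
  rw [mon_apply]
  simp only [Finsupp.single_apply, Prod.mk.injEq]
  by_cases h1 : p = a
  · subst h1
    rw [Equiv.swap_apply_left]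
    have hq : ¬ (q = p) := fun h' => h h'.symm
    by_cases h2 : b = κ q
    · subst h2
      simp [hq]
    · have h2' : ¬ (κ q = b) := fun h' => h2 h'.symm
      by_cases h3 : b = κ p
      · subst h3; simp [h2, h2', hq]
      · have h3' : ¬ (κ p = b) := fun h' => h3 h'.symm
        simp [h2, h2', h3, h3', hq]
  · by_cases h1' : q = a
    · subst h1'
      rw [Equiv.swap_apply_right]
      by_cases h2 : b = κ p
      · subst h2
        simp [h]
      · have h2' : ¬ (κ p = b) := fun h' => h2 h'.symm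
        by_cases h3 : b = κ q
        · subst h3; simp [h2, h2', h]
        · have h3' : ¬ (κ q = b) := fun h' => h3 h'.symm
          simp [h2, h2', h3, h3', h]
    · rw [Equiv.swap_apply_of_ne_of_ne (fun h' => h1 h'.symm) (fun h' => h1' h'.symm)]
      simp [h1, h1']

/-- exchange -/
theorem gm_exch (p q r s : X) : gm p r * gm q s = -(gm p s * gm q r) := by
  by_cases hpq : p = q
  · subst hpq
    rw [gm_row, gm_row, neg_zero]
  by_cases hrs : r = s
  · subst hrs
    rw [gm_col, neg_zero]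
  rw [← sub_eq_zero, sub_neg_eq_add]
  unfold gm
  rw [← map_mul, ← map_mul, ← map_add, Ideal.Quotient.eq_zero_iff_mem, mem_ker]
  intro H
  rw [mul_add, map_add, topL_X2, topL_X2]
  rw [← Equiv.sum_comp (Equiv.mulRight (Equiv.swap p q)) (fun κ : Equiv.Perm X =>
    ((Equiv.Perm.sign κ : ℤ) : ℝ) * (if κ p = s ∧ κ q = r ∧ p ≠ q then
        coeff (mon κ - Finsupp.single (p, s) 1 - Finsupp.single (q, r) 1) H else 0))]
  rw [← Finset.sum_add_distrib]
  refine Finset.sum_eq_zero fun κ _ => ?_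
  simp only [Equiv.coe_mulRight, Equiv.Perm.mul_apply, Equiv.swap_apply_left,
    Equiv.swap_apply_right, Equiv.Perm.sign_mul, Equiv.Perm.sign_swap hpq]
  by_cases h : κ p = r ∧ κ q = s
  · obtain ⟨h1, h2⟩ := h
    rw [if_pos ⟨h1, h2, hpq⟩, if_pos ⟨h2, h1, hpq⟩]
    have := mon_swap κ p q hpq
    rw [h1, h2] at this
    rw [this]
    push_cast
    ring
  · rw [if_neg, if_neg]
    · ring
    · rintro ⟨h1, h2, -⟩; exact h ⟨h2, h1⟩
    · rintro ⟨h1, h2, -⟩; exact h ⟨h1, h2⟩

/-! ### elements without a row or a column -/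

/-- elements without the row `p₀` -/
noncomputable def Rf (p₀ : X) : Subalgebra ℝ (QR X) :=
  Algebra.adjoin ℝ {z | ∃ p q, p ≠ p₀ ∧ z = gm p q}

/-- elements without the column `q₀` -/
noncomputable def Cf (q₀ : X) : Subalgebra ℝ (QR X) :=
  Algebra.adjoin ℝ {z | ∃ p q, q ≠ q₀ ∧ z = gm p q}

theorem tp_supported (s : Set (X × X)) (hs : ∀ κ : Equiv.Perm X, ∃ p, (p, κ p) ∉ s)
    {y : QR X} (hy : y ∈ Algebra.adjoin ℝ {z : QR X | ∃ a ∈ s, z = gm a.1 a.2}) : tp y = 0 := by
  have h1 : {z : QR X | ∃ a ∈ s, z = gm a.1 a.2} =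
      (Ideal.Quotient.mkₐ ℝ (ker X)) '' ((MvPolynomial.X : X × X → MvPolynomial (X × X) ℝ) '' s) := by
    ext z
    constructor
    · rintro ⟨a, ha, rfl⟩
      exact ⟨_, ⟨a, ha, rfl⟩, rfl⟩
    · rintro ⟨_, ⟨a, ha, rfl⟩, rfl⟩
      exact ⟨a, ha, rfl⟩
  rw [h1, ← AlgHom.map_adjoin] at hy
  obtain ⟨F, hF, rfl⟩ := hy
  have hF' : F ∈ MvPolynomial.supported ℝ s := hF
  change tp (Ideal.Quotient.mk (ker X) F) = 0
  rw [tp_mk, topL_apply]
  refine Finset.sum_eq_zero fun κ _ => ?_
  have hc : coeff (mon κ) F = 0 := by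
    by_contra hne
    obtain ⟨p, hp⟩ := hs κ
    apply hp
    have hv := MvPolynomial.mem_supported.1 hF'
    apply hv
    rw [Finset.mem_coe, MvPolynomial.mem_vars_iff_mem_support]
    refine ⟨mon κ, MvPolynomial.mem_support_iff.2 hne, ?_⟩
    rw [Finsupp.mem_support_iff, mon_apply, if_pos rfl]
    exact one_ne_zero
  rw [hc, mul_zero]

theorem tp_Rf {p₀ : X} {y : QR X} (hy : y ∈ Rf p₀) : tp y = 0 := by
  apply tp_supported {a | a.1 ≠ p₀} (fun κ => ⟨p₀, fun h => h rfl⟩)
  refine Algebra.adjoin_mono ?_ hy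
  rintro z ⟨p, q, hp, rfl⟩
  exact ⟨(p, q), hp, rfl⟩

theorem tp_Cf {q₀ : X} {y : QR X} (hy : y ∈ Cf q₀) : tp y = 0 := by
  apply tp_supported {a | a.2 ≠ q₀}
    (fun κ => ⟨κ.symm q₀, fun h => h (by simp)⟩)
  refine Algebra.adjoin_mono ?_ hy
  rintro z ⟨p, q, hp, rfl⟩
  exact ⟨(p, q), hp, rfl⟩

/-! ### diagonal monomials -/

theorem tp_diag (L : List X) : 0 ≤ tp ((L.map fun p => gm p p).prod) := by
  have h1 : (L.map fun p => gm p p).prod =
      Ideal.Quotient.mk (ker X) (MvPolynomial.monomial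
        ((L.map fun p => Finsupp.single (p, p) 1).sum : (X × X) →₀ ℕ) (1 : ℝ)) := by
    induction L with
    | nil => simp
    | cons a L ih =>
      rw [List.map_cons, List.prod_cons, ih, List.map_cons, List.sum_cons]
      rw [gm, ← map_mul]
      congr 1
      rw [MvPolynomial.X, MvPolynomial.monomial_mul, one_mul]
  rw [h1, tp_mk, topL_apply]
  refine Finset.sum_nonneg fun κ _ => ?_
  rw [coeff_monomial]
  split_ifs with h
  · have hκ : κ = 1 := by
      ext p
      have h2 : mon κ (p, κ p) ≠ 0 := by rw [mon_apply, if_pos rfl]; exact one_ne_zero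
      rw [← h] at h2
      by_contra hne
      apply h2
      clear h h1 h2
      induction L with
      | nil => simp
      | cons a L ih =>
        rw [List.map_cons, List.sum_cons, Finsupp.add_apply, ih, add_zero, Finsupp.single_apply,
          if_neg]
        intro h
        apply hne
        have h3 := (Prod.mk.inj h)
        rw [Equiv.Perm.one_apply, ← h3.2, h3.1]
    rw [hκ]
    simp
  · rw [mul_zero]

/-! ### the double alternating sum -/

theorem sum_single_eq (κ : Equiv.Perm X) (s s' : X → X) :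
    (∑ y, Finsupp.single (s y, s' y) 1 : (X × X) →₀ ℕ) = mon κ ↔
      ∃ σ : Equiv.Perm X, s = σ ∧ s' = fun y => κ (σ y) := by
  constructor
  · intro h
    have hsurj : Function.Surjective s := by
      intro p
      have h1 : (∑ y, Finsupp.single (s y, s' y) 1 : (X × X) →₀ ℕ) (p, κ p) ≠ 0 := by
        rw [h, mon_apply, if_pos rfl]; exact one_ne_zero
      by_contra hne
      push Not at hne
      apply h1
      rw [Finsupp.finsetSum_apply]
      refine Finset.sum_eq_zero fun y _ => ?_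
      rw [Finsupp.single_apply, if_neg]
      intro h'
      exact hne y (Prod.mk.inj h').1
    have hbij : Function.Bijective s := Finite.surjective_iff_bijective.1 hsurj
    refine ⟨Equiv.ofBijective s hbij, rfl, ?_⟩
    funext y
    have h1 : mon κ (s y, s' y) ≠ 0 := by
      rw [← h, Finsupp.finsetSum_apply]
      have h2 : (Finsupp.single (s y, s' y) 1 : (X × X) →₀ ℕ) (s y, s' y) ≤
          ∑ z, (Finsupp.single (s z, s' z) 1 : (X × X) →₀ ℕ) (s y, s' y) :=
        Finset.single_le_sum (f := fun z => (Finsupp.single (s z, s' z) 1 : (X × X) →₀ ℕ) (s y, s' y))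
          (fun _ _ => Nat.zero_le _) (Finset.mem_univ y)
      rw [Finsupp.single_eq_same] at h2
      omega
    rw [mon_apply] at h1
    by_contra hne
    exact h1 (if_neg hne)
  · rintro ⟨σ, rfl, rfl⟩
    unfold mon
    exact Equiv.sum_comp σ (fun p => (Finsupp.single (p, κ p) 1 : (X × X) →₀ ℕ))

theorem topL_monomial (s s' : X → X) :
    topL (∏ y, (MvPolynomial.X (s y, s' y) : MvPolynomial (X × X) ℝ)) =
      ∑ κ : Equiv.Perm X, if (∑ y, Finsupp.single (s y, s' y) 1 : (X × X) →₀ ℕ) = mon κ then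
        ((Equiv.Perm.sign κ : ℤ) : ℝ) else 0 := by
  rw [topL_apply]
  refine Finset.sum_congr rfl fun κ _ => ?_
  have h1 : (∏ y, (MvPolynomial.X (s y, s' y) : MvPolynomial (X × X) ℝ)) =
      MvPolynomial.monomial (∑ y, Finsupp.single (s y, s' y) 1) 1 := by
    rw [MvPolynomial.monomial_sum_one]
    rfl
  rw [h1, coeff_monomial]
  split_ifs <;> simp

theorem topL_sum (c : (X → X) → (X → X) → ℝ) :
    topL (∑ s : X → X, ∑ s' : X → X, c s s' •
      ∏ y, (MvPolynomial.X (s y, s' y) : MvPolynomial (X × X) ℝ)) =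
      ∑ σ : Equiv.Perm X, ∑ τ : Equiv.Perm X, ((Equiv.Perm.sign σ : ℤ) : ℝ) *
        ((Equiv.Perm.sign τ : ℤ) : ℝ) * c σ τ := by
  classical
  simp only [map_sum, map_smul, topL_monomial, smul_eq_mul, Finset.mul_sum]
  have h1 : (∑ s : X → X, ∑ s' : X → X, ∑ κ : Equiv.Perm X, c s s' *
      (if (∑ y, Finsupp.single (s y, s' y) 1 : (X × X) →₀ ℕ) = mon κ then
        ((Equiv.Perm.sign κ : ℤ) : ℝ) else 0)) =
      ∑ κ : Equiv.Perm X, ∑ a : (X → X) × (X → X), c a.1 a.2 *
      (if (∑ y, Finsupp.single (a.1 y, a.2 y) 1 : (X × X) →₀ ℕ) = mon κ then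
        ((Equiv.Perm.sign κ : ℤ) : ℝ) else 0) := by
    rw [Finset.sum_comm (s := (Finset.univ : Finset (Equiv.Perm X))), Fintype.sum_prod_type]
  rw [h1]
  have h2 : ∀ κ : Equiv.Perm X, ∑ a : (X → X) × (X → X), c a.1 a.2 *
      (if (∑ y, Finsupp.single (a.1 y, a.2 y) 1 : (X × X) →₀ ℕ) = mon κ then
        ((Equiv.Perm.sign κ : ℤ) : ℝ) else 0) =
      ∑ σ : Equiv.Perm X, ((Equiv.Perm.sign κ : ℤ) : ℝ) * c σ (κ * σ : Equiv.Perm X) := by
    intro κ
    symm
    refine Finset.sum_of_injOn (fun σ : Equiv.Perm X => ((σ : X → X), ((κ * σ : Equiv.Perm X) : X → X)))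
      ?_ ?_ ?_ ?_
    · intro σ _ σ' _ h
      have := (Prod.mk.inj h).1
      exact Equiv.coe_fn_injective this
    · intro σ _; exact Finset.mem_coe.2 (Finset.mem_univ _)
    · rintro ⟨s, s'⟩ _ hns
      rw [if_neg, mul_zero]
      intro h
      obtain ⟨σ, rfl, rfl⟩ := (sum_single_eq κ s s').1 h
      apply hns
      exact ⟨σ, Finset.mem_coe.2 (Finset.mem_univ _), rfl⟩
    · intro σ _
      have : (∑ y, Finsupp.single (σ y, (κ * σ : Equiv.Perm X) y) 1 : (X × X) →₀ ℕ) = mon κ :=
        (sum_single_eq κ σ _).2 ⟨σ, rfl, rfl⟩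
      simp only [this, if_true]
      ring
  simp only [h2]
  rw [Finset.sum_comm]
  refine Finset.sum_congr rfl fun σ _ => ?_
  rw [← Equiv.sum_comp (Equiv.mulRight σ) (fun τ : Equiv.Perm X =>
    ((Equiv.Perm.sign σ : ℤ) : ℝ) * ((Equiv.Perm.sign τ : ℤ) : ℝ) * c σ τ)]
  refine Finset.sum_congr rfl fun κ _ => ?_
  rw [show (Equiv.mulRight σ) κ = κ * σ from rfl, Equiv.Perm.sign_mul]
  have h3 : ((Equiv.Perm.sign σ : ℤ) : ℝ) * ((Equiv.Perm.sign σ : ℤ) : ℝ) = 1 := by
    rcases Int.units_eq_one_or (Equiv.Perm.sign σ) with h | h <;> simp [h]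
  rw [Units.val_mul, Int.cast_mul]
  linear_combination (-((Equiv.Perm.sign κ : ℤ) : ℝ) * c σ (κ * σ : Equiv.Perm X)) * h3

end Pool.Agent.H15.GB

namespace Pool.Agent.H15.GB

open MvPolynomial Finset

variable {B : Type} [Fintype B] [DecidableEq B]

/-- the element of the quotient ring which belongs to a tensor -/
noncomputable def quad (C : B × Bool → B × Bool → B × Bool → B × Bool → ℝ) : QR (B × Bool) :=
  ∑ p, ∑ q, ∑ r, ∑ s, C p q r s • (gm p r * gm q s)

/-- regrouping -/
def grp : (B → (B × Bool) × (B × Bool) × (B × Bool) × (B × Bool)) ≃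
    (B × Bool → B × Bool) × (B × Bool → B × Bool) where
  toFun F := (fun y => if y.2 then (F y.1).2.1 else (F y.1).1,
    fun y => if y.2 then (F y.1).2.2.2 else (F y.1).2.2.1)
  invFun a b := (a.1 (b, false), a.1 (b, true), a.2 (b, false), a.2 (b, true))
  left_inv F := by
    funext b
    simp
  right_inv a := by
    apply Prod.ext
    · funext y
      obtain ⟨b, β⟩ := y
      cases β <;> simp
    · funext y
      obtain ⟨b, β⟩ := y
      cases β <;> simp

theorem link (C : B × Bool → B × Bool → B × Bool → B × Bool → ℝ) :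
    ∑ σ : Equiv.Perm (B × Bool), ∑ τ : Equiv.Perm (B × Bool),
      ((Equiv.Perm.sign σ : ℤ) : ℝ) * ((Equiv.Perm.sign τ : ℤ) : ℝ) *
        ∏ b : B, C (σ (b, false)) (σ (b, true)) (τ (b, false)) (τ (b, true)) =
      tp (quad C ^ Fintype.card B) := by
  rw [← topL_sum (fun s s' => ∏ b : B, C (s (b, false)) (s (b, true)) (s' (b, false)) (s' (b, true)))]
  rw [← tp_mk]
  congr 1
  have h1 : quad C = Ideal.Quotient.mk (ker (B × Bool))
      (∑ a : (B × Bool) × (B × Bool) × (B × Bool) × (B × Bool), C a.1 a.2.1 a.2.2.1 a.2.2.2 •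
        (MvPolynomial.X (a.1, a.2.2.1) * MvPolynomial.X (a.2.1, a.2.2.2))) := by
    unfold quad
    simp only [Fintype.sum_prod_type, map_sum]
    rfl
  rw [h1, ← map_pow]
  congr 1
  have h2 : (∑ a : (B × Bool) × (B × Bool) × (B × Bool) × (B × Bool), C a.1 a.2.1 a.2.2.1 a.2.2.2 •
        (MvPolynomial.X (a.1, a.2.2.1) * MvPolynomial.X (a.2.1, a.2.2.2)) :
        MvPolynomial ((B × Bool) × (B × Bool)) ℝ) ^ Fintype.card B =
      ∏ _b : B, ∑ a : (B × Bool) × (B × Bool) × (B × Bool) × (B × Bool), C a.1 a.2.1 a.2.2.1 a.2.2.2 •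
        (MvPolynomial.X (a.1, a.2.2.1) * MvPolynomial.X (a.2.1, a.2.2.2)) := by
    rw [Finset.prod_const, Finset.card_univ]
  rw [h2, Fintype.prod_sum, ← Fintype.sum_prod_type', ← Equiv.sum_comp grp]
  refine Finset.sum_congr rfl fun F _ => ?_
  simp only [grp, Equiv.coe_fn_mk, if_true, Bool.false_eq_true, if_false, 
    MvPolynomial.smul_eq_C_mul]
  rw [Finset.prod_mul_distrib, map_prod]
  congr 1
  rw [Fintype.prod_prod_type]
  refine Finset.prod_congr rfl fun b _ => ?_
  rw [Fintype.prod_bool]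
  simp
  ring

end Pool.Agent.H15.GB
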