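import Pool.Agent.H15.GBRing

/-!
# Tensors which are invariant under a maximal torus: positivity of the alternating double sum
-/

set_option autoImplicit false

namespace Pool.Agent.H15.GB

open MvPolynomial Finset

variable {B : Type} [Fintype B] [DecidableEq B]

noncomputable def sg (i : B) : QR (B × Bool) := gm (i, false) (i, false) + gm (i, true) (i, true)
noncomputable def sw (i : B) : QR (B × Bool) := gm (i, false) (i, true) - gm (i, true) (i, false)
noncomputable def sl (i j : B) : QR (B × Bool) := gm (i, false) (j, false) * gm (i, true) (j, true)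
noncomputable def st (i : B) : QR (B × Bool) := sl i i

theorem gm_sq (p r : B × Bool) : gm p r * gm p r = 0 := gm_row p r r

theorem sg_sg (i : B) : sg i * sg i = 2 * st i := by
  unfold sg st sl
  linear_combination gm_row (i, false) (i, false) (i, false) + gm_row (i, true) (i, true) (i, true)

theorem sw_sw (i : B) : sw i * sw i = 2 * st i := by
  unfold sw st sl
  linear_combination gm_row (i, false) (i, true) (i, true) + gm_row (i, true) (i, false) (i, false) -
    2 * gm_exch (i, false) (i, true) (i, true) (i, false)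

theorem sg_sw (i : B) : sg i * sw i = 0 := by
  unfold sg sw
  linear_combination gm_row (i, false) (i, false) (i, true) - gm_col (i, false) (i, true) (i, false)
    + gm_col (i, true) (i, false) (i, true) - gm_row (i, true) (i, true) (i, false)

theorem sg_sl (i j : B) : sg i * sl i j = 0 := by
  unfold sg sl
  linear_combination gm (i, true) (j, true) * gm_row (i, false) (i, false) (j, false) +
    gm (i, false) (j, false) * gm_row (i, true) (i, true) (j, true)

theorem sg_sl' (i j : B) : sg i * sl j i = 0 := by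
  unfold sg sl
  linear_combination gm (j, true) (i, true) * gm_col (i, false) (j, false) (i, false) +
    gm (j, false) (i, false) * gm_col (i, true) (j, true) (i, true)

theorem sw_sl (i j : B) : sw i * sl i j = 0 := by
  unfold sw sl
  linear_combination gm (i, true) (j, true) * gm_row (i, false) (i, true) (j, false) -
    gm (i, false) (j, false) * gm_row (i, true) (i, false) (j, true)

theorem sw_sl' (i j : B) : sw i * sl j i = 0 := by
  unfold sw sl
  linear_combination gm (j, false) (i, false) * gm_col (i, false) (j, true) (i, true) -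
    gm (j, true) (i, true) * gm_col (i, true) (j, false) (i, false)

theorem sl_row (i j k : B) : sl i j * sl i k = 0 := by
  unfold sl
  linear_combination gm (i, true) (j, true) * gm (i, true) (k, true) *
    gm_row (i, false) (j, false) (k, false)

theorem sl_col (i j k : B) : sl i k * sl j k = 0 := by
  unfold sl
  linear_combination gm (i, true) (k, true) * gm (j, true) (k, true) *
    gm_col (i, false) (j, false) (k, false)

theorem sl_sl (i j k n : B) : sl i j * sl k n = sl i n * sl k j := by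
  unfold sl
  linear_combination gm (i, true) (j, true) * gm (k, true) (n, true) *
    gm_exch (i, false) (k, false) (j, false) (n, false) - gm (i, false) (n, false) *
    gm (k, false) (j, false) * gm_exch (i, true) (k, true) (j, true) (n, true)

/-- the linking element -/
noncomputable def kk (i j : B) (β γ : ℝ) : QR (B × Bool) :=
  β • (sg i * sg j) + γ • (sw i * sw j + 2 * sl i j + 2 * sl j i)

theorem kk_symm (i j : B) (β γ : ℝ) : kk i j β γ = kk j i β γ := by
  unfold kk
  rw [mul_comm (sg i), mul_comm (sw i), add_right_comm]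

theorem kk_diag (i : B) (β γ : ℝ) : kk i i β γ = (2 * (β + 3 * γ)) • st i := by
  unfold kk
  rw [sg_sg, sw_sw]
  have h : (2 * st i + 2 * sl i i + 2 * sl i i : QR (B × Bool)) = (6 : ℝ) • st i := by
    rw [show (6 : ℝ) = 1 + 1 + 1 + 1 + 1 + 1 by norm_num]
    simp only [add_smul, one_smul]
    unfold st
    ring
  have h2 : (2 * st i : QR (B × Bool)) = (2 : ℝ) • st i := by
    rw [two_smul, two_mul]
  rw [h, h2]
  module

theorem st_kk (i j : B) (β γ : ℝ) : st i * kk i j β γ = 0 := by
  unfold kk st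
  rw [mul_add, mul_smul_comm, mul_smul_comm]
  have h1 : sl i i * (sg i * sg j) = 0 := by
    rw [← mul_assoc, mul_comm (sl i i), sg_sl, zero_mul]
  have h2 : sl i i * (sw i * sw j + 2 * sl i j + 2 * sl j i) = 0 := by
    linear_combination sw j * sw_sl i i + 2 * sl_row i i j + 2 * sl_col i j i
  rw [h1, h2, smul_zero, smul_zero, add_zero]

theorem kk_kk (i j l : B) (β γ β' γ' : ℝ) :
    kk i j β γ * kk i l β' γ' = (2 : ℝ) • (st i * kk l j (β * β') (γ * γ')) := by
  have hg : sg i * sg j * (sg i * sg l) = (2 : ℝ) • (st i * (sg l * sg j)) := by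
    rw [two_smul]
    linear_combination sg j * sg l * sg_sg i
  have hgw : sg i * sg j * (sw i * sw l + 2 * sl i l + 2 * sl l i) = 0 := by
    linear_combination sg j * sw l * sg_sw i + 2 * sg j * sg_sl i l + 2 * sg j * sg_sl' i l
  have hwg : (sw i * sw j + 2 * sl i j + 2 * sl j i) * (sg i * sg l) = 0 := by
    linear_combination sg l * sw j * sg_sw i + 2 * sg l * sg_sl i j + 2 * sg l * sg_sl' i j
  have hw : (sw i * sw j + 2 * sl i j + 2 * sl j i) * (sw i * sw l + 2 * sl i l + 2 * sl l i) =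
      (2 : ℝ) • (st i * (sw l * sw j + 2 * sl l j + 2 * sl j l)) := by
    rw [two_smul]
    unfold st
    have e1 := sw_sw i
    unfold st at e1
    linear_combination sw j * sw l * e1 + 2 * sw j * sw_sl i l + 2 * sw j * sw_sl' i l +
      2 * sw l * sw_sl i j + 2 * sw l * sw_sl' i j + 4 * sl_row i j l + 4 * sl_col j l i +
      4 * sl_sl i j l i + 4 * sl_sl j i i l
  have hr : (2 : ℝ) • (st i * kk l j (β * β') (γ * γ')) =
      (β * β') • ((2 : ℝ) • (st i * (sg l * sg j))) +
      (γ * γ') • ((2 : ℝ) • (st i * (sw l * sw j + 2 * sl l j + 2 * sl j l))) := by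
    unfold kk
    rw [mul_add (st i), mul_smul_comm, mul_smul_comm]
    module
  rw [hr, ← hg, ← hw]
  unfold kk
  rw [mul_add, add_mul, add_mul, smul_mul_smul_comm, smul_mul_smul_comm, smul_mul_smul_comm,
    smul_mul_smul_comm, hgw, hwg, smul_zero, smul_zero, add_zero, zero_add]

variable (c : B → ℝ) (b γ : B → B → ℝ)

/-- the tensor restricted to the sites in `S` -/
noncomputable def qs (S : Finset B) : QR (B × Bool) :=
  ∑ i ∈ S, c i • st i + (1 / 2 : ℝ) • ∑ i ∈ S, ∑ j ∈ S, if i = j then 0 else kk i j (b i j) (γ i j)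

theorem qs_insert (hb : ∀ i j, b i j = b j i) (hγ : ∀ i j, γ i j = γ j i) {i : B} {S : Finset B}
    (hi : i ∉ S) : qs c b γ (insert i S) = qs c b γ S + ∑ l ∈ S, kk i l (b i l) (γ i l) +
      c i • st i := by
  unfold qs
  rw [Finset.sum_insert hi, Finset.sum_insert hi, Finset.sum_insert hi, if_pos rfl, zero_add]
  have h1 : ∑ j ∈ S, (if i = j then 0 else kk i j (b i j) (γ i j)) =
      ∑ l ∈ S, kk i l (b i l) (γ i l) := by
    refine Finset.sum_congr rfl fun j hj => ?_
    rw [if_neg]
    rintro rfl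
    exact hi hj
  have h2 : ∑ k ∈ S, ∑ j ∈ insert i S, (if k = j then 0 else kk k j (b k j) (γ k j)) =
      ∑ l ∈ S, kk i l (b i l) (γ i l) +
        ∑ k ∈ S, ∑ j ∈ S, (if k = j then 0 else kk k j (b k j) (γ k j)) := by
    rw [← Finset.sum_add_distrib]
    refine Finset.sum_congr rfl fun k hk => ?_
    rw [Finset.sum_insert hi, if_neg, kk_symm, hb, hγ]
    rintro rfl
    exact hi hk
  rw [h1, h2]
  module

theorem st_qs_aux {i : B} {S : Finset B} (hb : ∀ i j, b i j = b j i) (hγ : ∀ i j, γ i j = γ j i)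
    (hi : i ∉ S) : st i * qs c b γ (insert i S) = st i * qs c b γ S := by
  rw [qs_insert c b γ hb hγ hi, mul_add, mul_add, mul_smul_comm, Finset.mul_sum]
  have h1 : ∑ l ∈ S, st i * kk i l (b i l) (γ i l) = 0 :=
    Finset.sum_eq_zero fun l _ => st_kk i l _ _
  have h2 : st i * st i = 0 := by unfold st; exact sl_row i i i
  rw [h1, h2, smul_zero, add_zero, add_zero]

theorem kk_qs_aux {i j : B} {S : Finset B} (hb : ∀ i j, b i j = b j i)
    (hγ : ∀ i j, γ i j = γ j i) (hi : i ∉ S) (β' γ' : ℝ) :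
    kk i j β' γ' * qs c b γ (insert i S) = kk i j β' γ' * qs c b γ S +
      (2 : ℝ) • (st i * ∑ l ∈ S, kk l j (β' * b i l) (γ' * γ i l)) := by
  rw [qs_insert c b γ hb hγ hi, mul_add, mul_add, mul_smul_comm, Finset.mul_sum, Finset.mul_sum,
    mul_comm (kk i j β' γ') (st i), st_kk, smul_zero, add_zero, Finset.smul_sum]
  simp only [kk_kk]

/-- all sites -/
noncomputable def qq : QR (B × Bool) := qs c b γ Finset.univ

/-- all sites but one -/
noncomputable def qe (i : B) : QR (B × Bool) := qs c b γ (Finset.univ.erase i)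

theorem st_qq (hb : ∀ i j, b i j = b j i) (hγ : ∀ i j, γ i j = γ j i) (i : B) :
    st i * qq c b γ = st i * qe c b γ i := by
  have := st_qs_aux c b γ hb hγ (Finset.notMem_erase i Finset.univ)
  rw [Finset.insert_erase (Finset.mem_univ i)] at this
  exact this

theorem kk_qq (hb : ∀ i j, b i j = b j i) (hγ : ∀ i j, γ i j = γ j i) (i j : B) (β' γ' : ℝ) :
    kk i j β' γ' * qq c b γ = kk i j β' γ' * qe c b γ i +
      (2 : ℝ) • (st i * ∑ l ∈ Finset.univ.erase i, kk l j (β' * b i l) (γ' * γ i l)) := by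
  have := kk_qs_aux c b γ hb hγ (j := j) (Finset.notMem_erase i Finset.univ) β' γ'
  rw [Finset.insert_erase (Finset.mem_univ i)] at this
  exact this

theorem st_pow (hb : ∀ i j, b i j = b j i) (hγ : ∀ i j, γ i j = γ j i) (i : B) (k : ℕ) :
    st i * qe c b γ i ^ k = st i * qq c b γ ^ k := by
  induction k with
  | zero => simp
  | succ k ih => rw [pow_succ, pow_succ, ← mul_assoc, ih, mul_right_comm, ← st_qq c b γ hb hγ]; ring

theorem kk_pow (hb : ∀ i j, b i j = b j i) (hγ : ∀ i j, γ i j = γ j i) (i j : B) (β' γ' : ℝ)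
    (k : ℕ) :
    kk i j β' γ' * qq c b γ ^ (k + 1) = kk i j β' γ' * qe c b γ i ^ (k + 1) +
      (2 * (k + 1) : ℝ) • (st i * (∑ l ∈ Finset.univ.erase i, kk l j (β' * b i l) (γ' * γ i l)) *
        qq c b γ ^ k) := by
  induction k with
  | zero =>
    simp only [pow_one, pow_zero, mul_one, zero_add, Nat.cast_zero]
    exact kk_qq c b γ hb hγ i j β' γ'
  | succ k ih =>
    rw [pow_succ, ← mul_assoc, ih, add_mul, smul_mul_assoc, mul_assoc (st i * _), ← pow_succ]
    have h1 : kk i j β' γ' * qe c b γ i ^ (k + 1) * qq c b γ =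
        kk i j β' γ' * qe c b γ i ^ (k + 1 + 1) +
        (2 : ℝ) • (st i * (∑ l ∈ Finset.univ.erase i, kk l j (β' * b i l) (γ' * γ i l)) *
          qq c b γ ^ (k + 1)) := by
      rw [mul_right_comm, kk_qq c b γ hb hγ, add_mul, smul_mul_assoc]
      congr 1
      · rw [pow_succ (qe c b γ i) (k + 1)]; ring
      · congr 1
        rw [mul_right_comm, st_pow c b γ hb hγ]
        ring
    rw [h1, add_assoc, ← add_smul]
    congr 2
    push_cast
    ring

/-! ### elements free of a site -/

/-- `y` is free of the site `i` -/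
def Free (i : B) (y : QR (B × Bool)) : Prop := ∀ β : Bool, y ∈ Rf (i, β) ∧ y ∈ Cf (i, β)

theorem gm_Rf {p q p₀ : B × Bool} (h : p ≠ p₀) : gm p q ∈ Rf p₀ :=
  Algebra.subset_adjoin ⟨p, q, h, rfl⟩

theorem gm_Cf {p q q₀ : B × Bool} (h : q ≠ q₀) : gm p q ∈ Cf q₀ :=
  Algebra.subset_adjoin ⟨p, q, h, rfl⟩

omit [Fintype B] [DecidableEq B] in
theorem ne_site {i j : B} (h : j ≠ i) (β β' : Bool) : ((j, β) : B × Bool) ≠ (i, β') :=
  fun h' => h (Prod.mk.inj h').1

theorem gm_free {i j k : B} (hj : j ≠ i) (hk : k ≠ i) (β β' : Bool) :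
    Free i (gm (j, β) (k, β')) :=
  fun _ => ⟨gm_Rf (ne_site hj _ _), gm_Cf (ne_site hk _ _)⟩

theorem Free.mul {i : B} {x y : QR (B × Bool)} (hx : Free i x) (hy : Free i y) :
    Free i (x * y) := fun β => ⟨mul_mem (hx β).1 (hy β).1, mul_mem (hx β).2 (hy β).2⟩

theorem Free.add {i : B} {x y : QR (B × Bool)} (hx : Free i x) (hy : Free i y) :
    Free i (x + y) := fun β => ⟨add_mem (hx β).1 (hy β).1, add_mem (hx β).2 (hy β).2⟩

theorem Free.sub {i : B} {x y : QR (B × Bool)} (hx : Free i x) (hy : Free i y) :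
    Free i (x - y) := fun β => ⟨sub_mem (hx β).1 (hy β).1, sub_mem (hx β).2 (hy β).2⟩

theorem Free.smul {i : B} {x : QR (B × Bool)} (r : ℝ) (hx : Free i x) :
    Free i (r • x) := fun β => ⟨Subalgebra.smul_mem _ (hx β).1 r, Subalgebra.smul_mem _ (hx β).2 r⟩

theorem Free.pow {i : B} {x : QR (B × Bool)} (hx : Free i x) (k : ℕ) :
    Free i (x ^ k) := fun β => ⟨pow_mem (hx β).1 k, pow_mem (hx β).2 k⟩

theorem Free.zero {i : B} : Free i (0 : QR (B × Bool)) := fun _ => ⟨zero_mem _, zero_mem _⟩

theorem Free.one {i : B} : Free i (1 : QR (B × Bool)) := fun _ => ⟨one_mem _, one_mem _⟩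

theorem Free.two {i : B} : Free i (2 : QR (B × Bool)) := by
  have : (2 : QR (B × Bool)) = 1 + 1 := by norm_num
  rw [this]
  exact Free.one.add Free.one

theorem Free.sum {i : B} {ι : Type} (S : Finset ι) (f : ι → QR (B × Bool))
    (h : ∀ k ∈ S, Free i (f k)) : Free i (∑ k ∈ S, f k) :=
  fun β => ⟨sum_mem fun k hk => (h k hk β).1, sum_mem fun k hk => (h k hk β).2⟩

theorem sg_free {i j : B} (h : j ≠ i) : Free i (sg j) := (gm_free h h _ _).add (gm_free h h _ _)

theorem sw_free {i j : B} (h : j ≠ i) : Free i (sw j) := (gm_free h h _ _).sub (gm_free h h _ _)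

theorem sl_free {i j k : B} (hj : j ≠ i) (hk : k ≠ i) : Free i (sl j k) :=
  (gm_free hj hk _ _).mul (gm_free hj hk _ _)

theorem kk_free {i j k : B} (hj : j ≠ i) (hk : k ≠ i) (β γ : ℝ) : Free i (kk j k β γ) :=
  (((sg_free hj).mul (sg_free hk)).smul β).add (((((sw_free hj).mul (sw_free hk)).add
    (Free.two.mul (sl_free hj hk))).add (Free.two.mul (sl_free hk hj))).smul γ)

theorem qe_free (i : B) : Free i (qe c b γ i) := by
  unfold qe qs
  refine Free.add (Free.sum _ _ fun k hk => ?_) (Free.smul _ (Free.sum _ _ fun k hk =>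
    Free.sum _ _ fun l hl => ?_))
  · exact (sl_free (Finset.ne_of_mem_erase hk) (Finset.ne_of_mem_erase hk)).smul _
  · split_ifs
    · exact Free.zero
    · exact kk_free (Finset.ne_of_mem_erase hk) (Finset.ne_of_mem_erase hl) _ _

theorem prod_free {i : B} {L : List B} (h : i ∉ L) : Free i (L.map st).prod := by
  induction L with
  | nil => simpa using Free.one
  | cons a L ih =>
    rw [List.map_cons, List.prod_cons]
    rw [List.mem_cons, not_or] at h
    exact Free.mul (sl_free (Ne.symm h.1) (Ne.symm h.1)) (ih h.2)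

theorem tp_sg {i : B} {y : QR (B × Bool)} (hy : Free i y) : tp (sg i * y) = 0 := by
  unfold sg
  rw [add_mul, map_add, tp_Rf (p₀ := (i, true)) (mul_mem (gm_Rf (by simp)) (hy true).1),
    tp_Rf (p₀ := (i, false)) (mul_mem (gm_Rf (by simp)) (hy false).1), add_zero]

theorem tp_sw {i : B} {y : QR (B × Bool)} (hy : Free i y) : tp (sw i * y) = 0 := by
  unfold sw
  rw [sub_mul, map_sub, tp_Rf (p₀ := (i, true)) (mul_mem (gm_Rf (by simp)) (hy true).1),
    tp_Rf (p₀ := (i, false)) (mul_mem (gm_Rf (by simp)) (hy false).1), sub_zero]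

theorem tp_sl {i j : B} (hj : j ≠ i) {y : QR (B × Bool)} (hy : Free i y) :
    tp (sl i j * y) = 0 :=
  tp_Cf (q₀ := (i, false)) (mul_mem (mul_mem (gm_Cf (ne_site hj _ _)) (gm_Cf (ne_site hj _ _)))
    (hy false).2)

theorem tp_sl' {i j : B} (hj : j ≠ i) {y : QR (B × Bool)} (hy : Free i y) :
    tp (sl j i * y) = 0 :=
  tp_Rf (p₀ := (i, false)) (mul_mem (mul_mem (gm_Rf (ne_site hj _ _)) (gm_Rf (ne_site hj _ _)))
    (hy false).1)

theorem tp_kk {i j : B} (hj : j ≠ i) {y : QR (B × Bool)} (hy : Free i y) (β' γ' : ℝ) :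
    tp (kk i j β' γ' * y) = 0 := by
  have h1 : kk i j β' γ' * y = β' • (sg i * (sg j * y)) + γ' • (sw i * (sw j * y)) +
      (2 * γ') • (sl i j * y) + (2 * γ') • (sl j i * y) := by
    unfold kk
    rw [add_mul, smul_mul_assoc, smul_mul_assoc, add_mul, add_mul, mul_assoc, mul_assoc,
      mul_assoc 2, mul_assoc 2, two_mul, two_mul]
    module
  rw [h1, map_add, map_add, map_add, map_smul, map_smul, map_smul, map_smul,
    tp_sg ((sg_free hj).mul hy), tp_sw ((sw_free hj).mul hy), tp_sl hj hy, tp_sl' hj hy]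
  simp

theorem tp_prod (L : List B) : 0 ≤ tp (L.map st).prod := by
  have h : (L.map st).prod = ((L.flatMap fun i => [(i, false), (i, true)]).map
      fun p => gm p p).prod := by
    induction L with
    | nil => simp
    | cons a L ih =>
      rw [List.map_cons, List.prod_cons, ih, List.flatMap_cons, List.map_append, List.prod_append]
      simp [st, sl]
  rw [h]
  exact tp_diag _

theorem prod_kk {i j : B} {L : List B} (h : i ∈ L) (β' γ' : ℝ) :
    (L.map st).prod * kk i j β' γ' = 0 := by
  obtain ⟨y, hy⟩ := List.dvd_prod (List.mem_map_of_mem (f := st) h)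
  rw [hy, mul_right_comm, st_kk, zero_mul]

/-- **Positivity.** -/
theorem pos_aux (hb : ∀ i j, b i j = b j i) (hγ : ∀ i j, γ i j = γ j i) (hc : ∀ i, 0 ≤ c i)
    (𝒞 : Set (ℝ × ℝ)) (hmul : ∀ p ∈ 𝒞, ∀ q ∈ 𝒞, (p.1 * q.1, p.2 * q.2) ∈ 𝒞)
    (hpos : ∀ p ∈ 𝒞, 0 ≤ p.1 + 3 * p.2) (hin : ∀ i j, i ≠ j → (b i j, γ i j) ∈ 𝒞) (k : ℕ) :
    (∀ L : List B, 0 ≤ tp ((L.map st).prod * qq c b γ ^ k)) ∧
    ∀ (L : List B) (i j : B) (β' γ' : ℝ), i ≠ j → (β', γ') ∈ 𝒞 →
      0 ≤ tp ((L.map st).prod * kk i j β' γ' * qq c b γ ^ k) := by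
  have hzero : ∀ (k : ℕ) (L : List B) (i j : B) (β' γ' : ℝ), i ≠ j →
      tp ((L.map st).prod * (kk i j β' γ' * qe c b γ i ^ k)) = 0 := by
    intro k L i j β' γ' hij
    by_cases hi : i ∈ L
    · rw [← mul_assoc, prod_kk hi, zero_mul, map_zero]
    · rw [mul_left_comm]
      exact tp_kk (Ne.symm hij) ((prod_free hi).mul ((qe_free c b γ i).pow k)) _ _
  induction k with
  | zero =>
    refine ⟨fun L => ?_, fun L i j β' γ' hij _ => ?_⟩
    · rw [pow_zero, mul_one]; exact tp_prod L
    · have := hzero 0 L i j β' γ' hij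
      rw [pow_zero, mul_one] at this
      rw [pow_zero, mul_one, this]
  | succ k ih =>
    obtain ⟨ih1, ih2⟩ := ih
    have ha : ∀ L : List B, 0 ≤ tp ((L.map st).prod * qq c b γ ^ (k + 1)) := by
      intro L
      have h1 : (L.map st).prod * qq c b γ ^ (k + 1) =
          ∑ i, c i • (((i :: L).map st).prod * qq c b γ ^ k) +
          (1 / 2 : ℝ) • ∑ i, ∑ j, (if i = j then 0 else
            (L.map st).prod * kk i j (b i j) (γ i j) * qq c b γ ^ k) := by
        have hq : qq c b γ = ∑ i, c i • st i + (1 / 2 : ℝ) • ∑ i, ∑ j,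
            if i = j then 0 else kk i j (b i j) (γ i j) := rfl
        rw [pow_succ', ← mul_assoc]
        nth_rewrite 1 [hq]
        rw [mul_add, add_mul, Finset.mul_sum, Finset.sum_mul, mul_smul_comm, smul_mul_assoc,
          Finset.mul_sum, Finset.sum_mul]
        congr 1
        · refine Finset.sum_congr rfl fun i _ => ?_
          rw [mul_smul_comm, smul_mul_assoc, List.map_cons, List.prod_cons, mul_comm (st i)]
        · congr 1
          refine Finset.sum_congr rfl fun i _ => ?_
          rw [Finset.mul_sum, Finset.sum_mul]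
          refine Finset.sum_congr rfl fun j _ => ?_
          split_ifs
          · rw [mul_zero, zero_mul]
          · rfl
      rw [h1, map_add, map_smul, map_sum, map_sum]
      simp only [map_smul, map_sum, smul_eq_mul]
      refine add_nonneg (Finset.sum_nonneg fun i _ => mul_nonneg (hc i) (ih1 _))
        (mul_nonneg (by norm_num) (Finset.sum_nonneg fun i _ => Finset.sum_nonneg fun j _ => ?_))
      split_ifs with hij
      · rw [map_zero]
      · exact ih2 L i j _ _ hij (hin i j hij)
    refine ⟨ha, fun L i j β' γ' hij hβ => ?_⟩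
    rw [mul_assoc, kk_pow c b γ hb hγ, mul_add, map_add, hzero (k + 1) L i j β' γ' hij, zero_add,
      mul_smul_comm, map_smul, smul_eq_mul]
    refine mul_nonneg (by positivity) ?_
    have h2 : (L.map st).prod * (st i * (∑ l ∈ Finset.univ.erase i,
        kk l j (β' * b i l) (γ' * γ i l)) * qq c b γ ^ k) =
        ∑ l ∈ Finset.univ.erase i, ((i :: L).map st).prod * kk l j (β' * b i l) (γ' * γ i l) *
          qq c b γ ^ k := by
      rw [Finset.mul_sum, Finset.sum_mul, Finset.mul_sum]
      refine Finset.sum_congr rfl fun l _ => ?_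
      rw [List.map_cons, List.prod_cons]
      ring
    rw [h2, map_sum]
    refine Finset.sum_nonneg fun l hl => ?_
    have hli : i ≠ l := (Finset.ne_of_mem_erase hl).symm
    have hm := hmul _ hβ _ (hin i l hli)
    by_cases hlj : l = j
    · subst hlj
      rw [kk_diag, mul_smul_comm, smul_mul_assoc, map_smul, smul_eq_mul]
      refine mul_nonneg (mul_nonneg (by norm_num) (hpos _ hm)) ?_
      have h3 : ((i :: L).map st).prod * st l * qq c b γ ^ k =
          ((l :: i :: L).map st).prod * qq c b γ ^ k := by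
        rw [List.map_cons (a := l), List.prod_cons, mul_comm (st l)]
      rw [h3]
      exact ih1 _
    · exact ih2 _ l j _ _ hlj hm

theorem pos_main (hb : ∀ i j, b i j = b j i) (hγ : ∀ i j, γ i j = γ j i) (hc : ∀ i, 0 ≤ c i)
    (𝒞 : Set (ℝ × ℝ)) (hmul : ∀ p ∈ 𝒞, ∀ q ∈ 𝒞, (p.1 * q.1, p.2 * q.2) ∈ 𝒞)
    (hpos : ∀ p ∈ 𝒞, 0 ≤ p.1 + 3 * p.2) (hin : ∀ i j, i ≠ j → (b i j, γ i j) ∈ 𝒞) (k : ℕ) :
    0 ≤ tp (qq c b γ ^ k) := by
  have := (pos_aux c b γ hb hγ hc 𝒞 hmul hpos hin k).1 []
  simpa using this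

end Pool.Agent.H15.GB
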