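import Pool.Agent.H15.GBSite
import Pool.Graph.R_pool_sql_team_seeded_3997aac3.Q61.HP.Fin

/-!
# The Gauss–Bonnet–Chern integrand of tensors which are invariant under a maximal torus
-/

set_option autoImplicit false

namespace Pool.Agent.H15.GB

open Finset Pool.Agent.W666.GB Pool.Agent.Y489.SM Pool.Agent.Q61.HP

section comp

variable {B : Type} [Fintype B] [DecidableEq B]

/-- components of the symmetric form of a site -/
def cg (i : B) (p q : B × Bool) : ℝ :=
  (if p = (i, false) then 1 else 0) * (if q = (i, false) then 1 else 0) +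
    (if p = (i, true) then 1 else 0) * (if q = (i, true) then 1 else 0)

/-- components of the area form of a site -/
def ct (i : B) (p q : B × Bool) : ℝ :=
  (if p = (i, false) then 1 else 0) * (if q = (i, true) then 1 else 0) -
    (if p = (i, true) then 1 else 0) * (if q = (i, false) then 1 else 0)

/-- components of the torus invariant tensor -/
def cT (a : B → ℝ) (b γ : B → B → ℝ) (p q r s : B × Bool) : ℝ :=
  ∑ i, a i * (ct i p q * ct i r s) + ∑ i, ∑ j,
    (b i j * (cg i p r * cg j q s - cg i p s * cg j q r) +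
      γ i j * (ct i p r * ct j q s - ct i p s * ct j q r + 2 * (ct i p q * ct j r s)))

theorem quad_add (C D : B × Bool → B × Bool → B × Bool → B × Bool → ℝ) :
    quad (fun p q r s => C p q r s + D p q r s) = quad C + quad D := by
  unfold quad
  simp only [add_smul, Finset.sum_add_distrib]

theorem quad_smul (c : ℝ) (C : B × Bool → B × Bool → B × Bool → B × Bool → ℝ) :
    quad (fun p q r s => c * C p q r s) = c • quad C := by
  unfold quad
  simp only [mul_smul, Finset.smul_sum]

theorem quad_sum {ι : Type} (S : Finset ι)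
    (C : ι → B × Bool → B × Bool → B × Bool → B × Bool → ℝ) :
    quad (fun p q r s => ∑ k ∈ S, C k p q r s) = ∑ k ∈ S, quad (C k) := by
  classical
  induction S using Finset.induction_on with
  | empty =>
    simp only [Finset.sum_empty]
    unfold quad
    simp
  | insert k S hk ih =>
    simp only [Finset.sum_insert hk]
    rw [quad_add, ih]

/-- the element of a bilinear form -/
noncomputable def em (A : B × Bool → B × Bool → ℝ) : QR (B × Bool) := ∑ p, ∑ r, A p r • gm p r

theorem quad_prod (A D : B × Bool → B × Bool → ℝ) :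
    quad (fun p q r s => A p r * D q s) = em A * em D := by
  unfold quad em
  rw [Finset.sum_mul]
  refine Finset.sum_congr rfl fun p _ => ?_
  rw [Finset.sum_mul, Finset.sum_comm]
  refine Finset.sum_congr rfl fun r _ => ?_
  rw [Finset.mul_sum]
  refine Finset.sum_congr rfl fun q _ => ?_
  rw [Finset.mul_sum]
  refine Finset.sum_congr rfl fun s _ => ?_
  rw [smul_mul_smul_comm]

theorem quad_prod' (A D : B × Bool → B × Bool → ℝ) :
    quad (fun p q r s => A p s * D q r) = -(em A * em D) := by
  rw [← quad_prod]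
  unfold quad
  rw [← Finset.sum_neg_distrib]
  refine Finset.sum_congr rfl fun p _ => ?_
  rw [← Finset.sum_neg_distrib]
  refine Finset.sum_congr rfl fun q _ => ?_
  rw [← Finset.sum_neg_distrib, Finset.sum_comm]
  refine Finset.sum_congr rfl fun s _ => ?_
  rw [← Finset.sum_neg_distrib]
  refine Finset.sum_congr rfl fun r _ => ?_
  rw [gm_exch p q r s, smul_neg]

theorem em_cg (i : B) : em (cg i) = sg i := by
  unfold em cg sg
  simp [add_smul, Finset.sum_add_distrib]

theorem em_ct (i : B) : em (ct i) = sw i := by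
  unfold em ct sw
  simp [sub_smul, Finset.sum_sub_distrib]

theorem quad_ct (i j : B) : quad (fun p q r s => ct i p q * ct j r s) = (4 : ℝ) • sl i j := by
  have h1 : quad (fun p q r s : B × Bool => ct i p q * ct j r s) =
      gm (i, false) (j, false) * gm (i, true) (j, true) -
      gm (i, false) (j, true) * gm (i, true) (j, false) -
      gm (i, true) (j, false) * gm (i, false) (j, true) +
      gm (i, true) (j, true) * gm (i, false) (j, false) := by
    unfold quad ct
    simp only [sub_mul, mul_sub, sub_smul, Finset.sum_sub_distrib, ite_smul, one_smul,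
      zero_smul, Finset.sum_ite_eq', Finset.mem_univ, if_true, Finset.sum_const_zero, ite_mul,
      one_mul, zero_mul, Finset.sum_ite_irrel]
    ring
  rw [h1, show (4 : ℝ) = 1 + 1 + 1 + 1 by norm_num]
  simp only [add_smul, one_smul]
  unfold sl
  linear_combination -2 * gm_exch (i, false) (i, true) (j, true) (j, false)

theorem quad_cT (a : B → ℝ) (b γ : B → B → ℝ) (hγ : ∀ i j, γ i j = γ j i) :
    quad (cT a b γ) = (4 : ℝ) • qq (fun i => a i + b i i + 3 * γ i i) b γ := by
  have h1 : quad (cT a b γ) = ∑ i, (4 * a i) • st i + ∑ i, ∑ j,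
      ((2 * b i j) • (sg i * sg j) + (2 * γ i j) • (sw i * sw j) + (8 * γ i j) • sl i j) := by
    unfold cT
    rw [quad_add, quad_sum]
    congr 1
    · refine Finset.sum_congr rfl fun i _ => ?_
      rw [quad_smul, quad_ct, smul_smul, mul_comm (a i), st]
    · rw [quad_sum]
      refine Finset.sum_congr rfl fun i _ => ?_
      rw [quad_sum]
      refine Finset.sum_congr rfl fun j _ => ?_
      have e1 : (fun p q r s : B × Bool => b i j * (cg i p r * cg j q s - cg i p s * cg j q r) +
          γ i j * (ct i p r * ct j q s - ct i p s * ct j q r + 2 * (ct i p q * ct j r s))) =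
          fun p q r s => (b i j * (cg i p r * cg j q s) + (-b i j) * (cg i p s * cg j q r)) +
          ((γ i j * (ct i p r * ct j q s) + (-γ i j) * (ct i p s * ct j q r)) +
            (2 * γ i j) * (ct i p q * ct j r s)) := by
        funext p q r s
        ring
      rw [e1, quad_add, quad_add, quad_add, quad_add, quad_smul, quad_smul, quad_smul, quad_smul,
        quad_smul, quad_prod, quad_prod', quad_prod, quad_prod', quad_ct, em_cg, em_cg, em_ct,
        em_ct]
      module
  rw [h1]
  unfold qq qs
  have h2 : ∀ i j : B, ((2 * b i j) • (sg i * sg j) + (2 * γ i j) • (sw i * sw j) +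
      (8 * γ i j) • sl i j) = (2 : ℝ) • kk i j (b i j) (γ i j) +
      ((4 * γ i j) • sl i j - (4 * γ i j) • sl j i) := by
    intro i j
    unfold kk
    rw [two_mul (sl i j), two_mul (sl j i)]
    module
  simp only [h2, Finset.sum_add_distrib, Finset.sum_sub_distrib]
  have h3 : ∑ i : B, ∑ j : B, (4 * γ i j) • sl j i = ∑ i : B, ∑ j : B, (4 * γ i j) • sl i j := by
    rw [Finset.sum_comm]
    refine Finset.sum_congr rfl fun i _ => Finset.sum_congr rfl fun j _ => ?_
    rw [hγ]
  rw [h3, sub_self, add_zero, smul_add, Finset.smul_sum, smul_smul]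
  have h4 : ∀ i j : B, kk i j (b i j) (γ i j) = (if i = j then 0 else kk i j (b i j) (γ i j)) +
      (if i = j then (2 * (b i i + 3 * γ i i)) • st i else 0) := by
    intro i j
    split_ifs with h
    · subst h
      rw [kk_diag, zero_add]
    · rw [add_zero]
  have h5 : ∑ i : B, ∑ j : B, (2 : ℝ) • kk i j (b i j) (γ i j) =
      (4 * (1 / 2) : ℝ) • (∑ i : B, ∑ j : B, if i = j then 0 else kk i j (b i j) (γ i j)) +
      ∑ i : B, (4 * (b i i + 3 * γ i i)) • st i := by
    simp only [← Finset.smul_sum]
    rw [show (4 * (1 / 2) : ℝ) = 2 by norm_num, show (∑ i : B, (4 * (b i i + 3 * γ i i)) • st i) =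
      (2 : ℝ) • ∑ i : B, (2 * (b i i + 3 * γ i i)) • st i by
        rw [Finset.smul_sum]
        refine Finset.sum_congr rfl fun i _ => ?_
        rw [smul_smul]
        congr 1
        ring, ← smul_add]
    congr 1
    rw [← Finset.sum_add_distrib]
    refine Finset.sum_congr rfl fun i _ => ?_
    have : ∀ j, kk i j (b i j) (γ i j) = _ := h4 i
    rw [Finset.sum_congr rfl fun j _ => this j, Finset.sum_add_distrib, Finset.sum_ite_eq]
    simp
  rw [h5, add_left_comm, ← Finset.sum_add_distrib, add_comm]
  congr 1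
  refine Finset.sum_congr rfl fun i _ => ?_
  rw [smul_smul]
  module

theorem cT_pos (a : B → ℝ) (b γ : B → B → ℝ) (hb : ∀ i j, b i j = b j i)
    (hγ : ∀ i j, γ i j = γ j i) (hc : ∀ i, 0 ≤ a i + b i i + 3 * γ i i)
    (𝒞 : Set (ℝ × ℝ)) (hmul : ∀ p ∈ 𝒞, ∀ q ∈ 𝒞, (p.1 * q.1, p.2 * q.2) ∈ 𝒞)
    (hpos : ∀ p ∈ 𝒞, 0 ≤ p.1 + 3 * p.2) (hin : ∀ i j, i ≠ j → (b i j, γ i j) ∈ 𝒞) :
    0 ≤ ∑ σ : Equiv.Perm (B × Bool), ∑ τ : Equiv.Perm (B × Bool),
      ((Equiv.Perm.sign σ : ℤ) : ℝ) * ((Equiv.Perm.sign τ : ℤ) : ℝ) *
        ∏ β : B, cT a b γ (σ (β, false)) (σ (β, true)) (τ (β, false)) (τ (β, true)) := by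
  rw [link, quad_cT a b γ hγ, smul_pow, map_smul, smul_eq_mul]
  exact mul_nonneg (by positivity) (pos_main _ b γ hb hγ hc 𝒞 hmul hpos hin _)

end comp

end Pool.Agent.H15.GB
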