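import Pool.Agent.H15.PfThree

/-!
# Three two-forms in all dimensions at least six
-/

set_option autoImplicit false
set_option linter.unusedSectionVars false

namespace Pool.Agent.H15.Pf

open Finset Pool.Agent.W666.GB Pool.Agent.Y489.SM Pool.Agent.Q61.HP Pool.Agent.H15.GB

/-- matrices with a prescribed sign -/
def Gd {X : Type} [Fintype X] [DecidableEq X] (s : ℝ) (M : X × Bool → X × Bool → ℂ) : Prop :=
  (∃ (G : Matrix (X × Bool) (X × Bool) ℂ) (d : ℝ) (Z : X → X → ℂ), 0 < s * d ∧
    G.det = (d : ℂ) ∧ cong G M = dg Z) ∨ Deg M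

theorem Good.gd {X : Type} [Fintype X] [DecidableEq X] {M : X × Bool → X × Bool → ℂ}
    (h : Good M) : Gd 1 M := by
  rcases h with ⟨G, d, Z, h1, h2, h3⟩ | h
  · exact Or.inl ⟨G, d, Z, by rwa [one_mul], h2, h3⟩
  · exact Or.inr h

theorem gd_val {B : Type} [Fintype B] [DecidableEq B] {s : ℝ}
    {M : (B × Bool) × Bool → (B × Bool) × Bool → ℂ} (hM : Gd s M) :
    ∃ r : ℝ, 0 ≤ s * r ∧ tl (qq M ^ (2 * Fintype.card B)) =
      kap B * (-1) ^ Fintype.card B * (r : ℂ) := by
  rcases hM with ⟨G, d, Z, hd, hG, hc⟩ | hM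
  · have h1 := tl_cong G M (2 * Fintype.card B)
    rw [hc, qq_dg, tl_diag', hG] at h1
    have hd0 : d ≠ 0 := by
      rintro rfl
      simp at hd
    refine ⟨d⁻¹ * (((2 * Fintype.card B).choose (Fintype.card B) : ℝ) * Complex.normSq (pfu Z)),
      ?_, ?_⟩
    · have h2 := Complex.normSq_nonneg (pfu Z)
      have h3 : s * (d⁻¹ * (((2 * Fintype.card B).choose (Fintype.card B) : ℝ) *
          Complex.normSq (pfu Z))) = (s * d) * ((d⁻¹) ^ 2 *
          (((2 * Fintype.card B).choose (Fintype.card B) : ℝ) * Complex.normSq (pfu Z))) := by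
        field_simp
      rw [h3]
      positivity
    · have hd' : (d : ℂ) ≠ 0 := by exact_mod_cast hd0
      push_cast
      field_simp
      linear_combination -h1
  · exact ⟨0, by simp, by rw [deg_zero hM]; simp⟩

section blocks

variable {r : ℕ} {X : Fin r → Type} [∀ i, Fintype (X i)] [∀ i, DecidableEq (X i)]

theorem deg_sigma {M : (Σ i, X i) × Bool → (Σ i, X i) × Bool → ℂ}
    (hM : ∀ (i j : Fin r) (p : X i) (q : X j) (a b : Bool), i ≠ j →
      M (⟨i, p⟩, a) (⟨j, q⟩, b) = 0)
    {i : Fin r} (hd : Deg (fun u v : X i × Bool => M (⟨i, u.1⟩, u.2) (⟨i, v.1⟩, v.2))) :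
    Deg M := by
  obtain ⟨v, hv, h1, h2⟩ := hd
  refine ⟨fun u => if hu : u.1.1 = i then v (hu ▸ u.1.2, u.2) else 0, ?_, ?_, ?_⟩
  · obtain ⟨⟨p, a⟩, hpa⟩ := Function.ne_iff.1 hv
    refine Function.ne_iff.2 ⟨(⟨i, p⟩, a), ?_⟩
    simpa using hpa
  · rintro ⟨⟨j, p⟩, a⟩
    rw [sum_sig, Finset.sum_eq_single i]
    · by_cases hji : j = i
      · subst hji
        have := h1 (p, a)
        simpa using this
      · refine Finset.sum_eq_zero fun w _ => ?_
        rw [hM j i p w.1 a w.2 hji, zero_mul]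
    · intro k _ hk
      refine Finset.sum_eq_zero fun w _ => ?_
      simp [hk]
    · intro h; exact absurd (mem_univ _) h
  · rintro ⟨⟨j, p⟩, a⟩
    rw [sum_sig, Finset.sum_eq_single i]
    · by_cases hji : j = i
      · subst hji
        have := h2 (p, a)
        simpa using this
      · refine Finset.sum_eq_zero fun w _ => ?_
        rw [hM i j w.1 p w.2 a (fun h => hji h.symm), mul_zero]
    · intro k _ hk
      refine Finset.sum_eq_zero fun w _ => ?_
      simp [hk]
    · intro h; exact absurd (mem_univ _) h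

theorem Gd.sigma {M : (Σ i, X i) × Bool → (Σ i, X i) × Bool → ℂ} {s : Fin r → ℝ}
    (hM : ∀ (i j : Fin r) (p : X i) (q : X j) (a b : Bool), i ≠ j →
      M (⟨i, p⟩, a) (⟨j, q⟩, b) = 0)
    (h : ∀ i, Gd (s i) (fun u v : X i × Bool => M (⟨i, u.1⟩, u.2) (⟨i, v.1⟩, v.2))) :
    Gd (∏ i, s i) M := by
  by_cases hd : ∃ i, Deg (fun u v : X i × Bool => M (⟨i, u.1⟩, u.2) (⟨i, v.1⟩, v.2))
  · obtain ⟨i, hi⟩ := hd
    exact Or.inr (deg_sigma hM hi)
  · push Not at hd
    have h3 := fun i => (h i).resolve_right (hd i)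
    choose G d Z h4 h5 h6 using h3
    refine Or.inl ⟨bm G, ∏ i, d i, fun p q => if hpq : p.1 = q.1 then Z q.1 (hpq ▸ p.2) q.2 else 0,
      ?_, ?_, ?_⟩
    · rw [← Finset.prod_mul_distrib]
      exact Finset.prod_pos fun i _ => h4 i
    · rw [bm_det, Complex.ofReal_prod]
      exact Finset.prod_congr rfl fun i _ => h5 i
    · funext u v
      obtain ⟨⟨i, p⟩, a⟩ := u
      obtain ⟨⟨j, q⟩, b⟩ := v
      rw [cong_bm]
      by_cases hij : i = j
      · subst hij
        have h7 := congrFun (congrFun (h6 i) (p, a)) (q, b)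
        unfold cong at h7
        rw [h7]
        unfold dg
        simp
      · have h8 : dg (fun p q : Σ i, X i => if hpq : p.1 = q.1 then Z q.1 (hpq ▸ p.2) q.2 else 0)
            (⟨i, p⟩, a) (⟨j, q⟩, b) = 0 := by
          unfold dg
          simp [hij]
        rw [h8]
        refine Finset.sum_eq_zero fun u _ => Finset.sum_eq_zero fun v _ => ?_
        rw [hM i j _ _ _ _ hij, mul_zero, zero_mul]

theorem det_sigma {M : (Σ i, X i) × Bool → (Σ i, X i) × Bool → ℂ}
    (hM : ∀ (i j : Fin r) (p : X i) (q : X j) (a b : Bool), i ≠ j →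
      M (⟨i, p⟩, a) (⟨j, q⟩, b) = 0) :
    (Matrix.of M).det = ∏ i, (Matrix.of (fun u v : X i × Bool =>
      M (⟨i, u.1⟩, u.2) (⟨i, v.1⟩, v.2))).det := by
  rw [← bm_det]
  congr 1
  ext u v
  obtain ⟨⟨i, p⟩, a⟩ := u
  obtain ⟨⟨j, q⟩, b⟩ := v
  by_cases hij : i = j
  · subst hij
    rw [bm_same]
    rfl
  · rw [bm_ne _ hij]
    exact hM i j p q a b hij

end blocks

theorem Gd.reindex {X X' : Type} [Fintype X] [DecidableEq X] [Fintype X'] [DecidableEq X']
    (e : X' ≃ X) {s : ℝ} {M : X × Bool → X × Bool → ℂ} (h : Gd s M) :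
    Gd s (fun u v : X' × Bool => M (e u.1, u.2) (e v.1, v.2)) := by
  set E : X' × Bool ≃ X × Bool := e.prodCongr (Equiv.refl Bool) with hE
  have hEa : ∀ u : X' × Bool, E u = (e u.1, u.2) := fun u => rfl
  rcases h with ⟨G, d, Z, hd, hG, hc⟩ | ⟨v, hv, h1, h2⟩
  · refine Or.inl ⟨G.submatrix E E, d, fun p q => Z (e p) (e q), hd, ?_, ?_⟩
    · rw [Matrix.det_submatrix_equiv_self, hG]
    · funext u v
      have h3 := congrFun (congrFun hc (E u)) (E v)
      unfold cong at h3 ⊢
      rw [← Equiv.sum_comp E] at h3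
      simp only [← Equiv.sum_comp E (fun v' => _ * _ * G v' (E v))] at h3
      exact h3
  · refine Or.inr ⟨v ∘ E, ?_, ?_, ?_⟩
    · intro h
      apply hv
      funext u
      have := congrFun h (E.symm u)
      simpa using this
    · intro u
      have := h1 (E u)
      rw [← Equiv.sum_comp E] at this
      exact this
    · intro u
      have := h2 (E u)
      rw [← Equiv.sum_comp E] at this
      exact this

section pf2

variable {B : Type} [Fintype B] [DecidableEq B]

theorem sum_fun' {α : Type} [AddCommMonoid α] (f : (B × Bool → B × Bool) → α)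
    (hf : ∀ s, ¬ Function.Bijective s → f s = 0) :
    ∑ s, f s = ∑ σ : Equiv.Perm (B × Bool), f σ := by
  classical
  symm
  refine Finset.sum_of_injOn (fun σ : Equiv.Perm (B × Bool) => (σ : B × Bool → B × Bool)) ?_ ?_ ?_ ?_
  · intro σ _ σ' _ h
    exact Equiv.coe_fn_injective h
  · intro σ _; exact Finset.mem_coe.2 (Finset.mem_univ _)
  · intro s _ hs
    apply hf
    intro hb
    apply hs
    exact ⟨Equiv.ofBijective s hb, Finset.mem_coe.2 (Finset.mem_univ _), rfl⟩
  · intro σ _
    rfl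

/-- the top power is the Pfaffian -/
theorem qq_pow (M : B × Bool → B × Bool → ℂ) :
    qq M ^ Fintype.card B = pfu M • PP (id : B × Bool → B × Bool) := by
  have h1 : qq M ^ Fintype.card B = ∏ _b : B,
      ∑ a : (B × Bool) × (B × Bool), M a.1 a.2 • yy a.1 a.2 := by
    rw [Finset.prod_const, Finset.card_univ]
    unfold qq
    simp only [Fintype.sum_prod_type (α₁ := B × Bool) (α₂ := B × Bool)]
  set g2 : (B → (B × Bool) × (B × Bool)) ≃ (B × Bool → B × Bool) :=
    { toFun := fun F y => if y.2 then (F y.1).2 else (F y.1).1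
      invFun := fun s b => (s (b, false), s (b, true))
      left_inv := fun F => by funext b; simp
      right_inv := fun s => by
        funext y
        obtain ⟨b, β⟩ := y
        cases β <;> simp } with hg2
  have h2 : qq M ^ Fintype.card B = ∑ s : B × Bool → B × Bool,
      (∏ b : B, M (s (b, false)) (s (b, true))) • PP s := by
    rw [h1, Fintype.prod_sum, ← Equiv.sum_comp g2]
    refine Finset.sum_congr rfl fun F _ => ?_
    rw [Finset.prod_smul]
    rfl
  rw [h2, sum_fun']
  · unfold pfu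
    rw [Finset.sum_smul]
    refine Finset.sum_congr rfl fun σ _ => ?_
    have h3 := PP_perm σ (id : B × Bool → B × Bool)
    rw [Function.id_comp] at h3
    rw [h3, smul_smul, mul_comm]
  · intro s hs
    rw [PP_zero, smul_zero]
    intro h
    exact hs ((Finite.injective_iff_bijective).1 h)

end pf2

/-- nonvanishing and the determinant -/
theorem tl_ne {B : Type} [Fintype B] [DecidableEq B]
    {M : (B × Bool) × Bool → (B × Bool) × Bool → ℂ} (hM : ∀ u v, M u v = -M v u)
    (hd : (Matrix.of M).det ≠ 0) : tl (qq M ^ (2 * Fintype.card B)) ≠ 0 := by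
  have hc : 2 * Fintype.card B = Fintype.card (B × Bool) := by
    rw [Fintype.card_prod, Fintype.card_bool, mul_comm]
  rw [hc, qq_pow, map_smul, smul_eq_mul]
  obtain ⟨c, -, h1⟩ := pf_det (B := B × Bool)
  refine mul_ne_zero ?_ ?_
  · intro h0
    apply hd
    rw [h1 M hM, h0]
    ring
  · have h2 : PP (id : (B × Bool) × Bool → (B × Bool) × Bool) =
        ∏ p : B × Bool, (yy (p, false) (p, true) : CA ((B × Bool) × Bool)) := rfl
    rw [h2, prod_yy]
    have h3 : ((-1 : CA ((B × Bool) × Bool)) ^ Fintype.card B *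
        (P0 (id : B × Bool → B × Bool) * P1 id)) =
        ((-1 : ℂ) ^ Fintype.card B) • (P0 (id : B × Bool → B × Bool) * P1 id) := by
      rw [Algebra.smul_def, map_pow, map_neg, map_one]
    rw [h3, map_smul, smul_eq_mul]
    exact mul_ne_zero (pow_ne_zero _ (by norm_num)) kap_ne

end Pool.Agent.H15.Pf
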