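import Mathlib

/-!
# Averages over a ball of powers in a commutative algebra
-/

set_option autoImplicit false
set_option linter.unusedSectionVars false

namespace Pool.Agent.H15.Pf

open Finset MeasureTheory

variable {J : Type} [Fintype J] [DecidableEq J] [Nonempty J]

/-- the unit ball -/
noncomputable def bal (J : Type) [Fintype J] : Set (EuclideanSpace ℝ J) := Metric.closedBall 0 1

/-- the constant -/
noncomputable def cst (J : Type) [Fintype J] [Nonempty J] (n : ℕ) : ℝ :=
  ∫ x in bal J, (x (Classical.arbitrary J)) ^ n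

theorem int_ball {f : EuclideanSpace ℝ J → ℝ} (hf : Continuous f) :
    IntegrableOn f (bal J) volume :=
  hf.continuousOn.integrableOn_compact (isCompact_closedBall _ _)

theorem int_ballC {f : EuclideanSpace ℝ J → ℂ} (hf : Continuous f) :
    IntegrableOn f (bal J) volume :=
  hf.continuousOn.integrableOn_compact (isCompact_closedBall _ _)

theorem cst_pos (m : ℕ) : 0 < cst J (2 * m) := by
  unfold cst
  rw [setIntegral_pos_iff_support_of_nonneg_ae]
  · set j := Classical.arbitrary J
    have h1 : Metric.ball (EuclideanSpace.single j (1 / 2 : ℝ)) (1 / 4) ⊆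
        (Function.support fun x : EuclideanSpace ℝ J => x j ^ (2 * m)) ∩ bal J := by
      intro x hx
      rw [Metric.mem_ball, dist_eq_norm] at hx
      have h2 : ‖x j - 1 / 2‖ < 1 / 4 := by
        have := PiLp.norm_apply_le (x - EuclideanSpace.single j (1 / 2 : ℝ)) j
        have h3 : (x - EuclideanSpace.single j (1 / 2 : ℝ)) j = x j - 1 / 2 := by
          simp
        rw [h3] at this
        exact lt_of_le_of_lt this hx
      rw [Real.norm_eq_abs, abs_lt] at h2
      constructor
      · rw [Function.mem_support]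
        have : 0 < x j := by linarith [h2.1]
        positivity
      · unfold bal
        rw [mem_closedBall_zero_iff]
        have h4 : ‖EuclideanSpace.single j (1 / 2 : ℝ)‖ = 1 / 2 := by
          rw [EuclideanSpace.norm_single]; norm_num
        have h5 : ‖x‖ ≤ ‖x - EuclideanSpace.single j (1 / 2 : ℝ)‖ +
            ‖EuclideanSpace.single j (1 / 2 : ℝ)‖ := by
          have := norm_add_le (x - EuclideanSpace.single j (1 / 2 : ℝ))
            (EuclideanSpace.single j (1 / 2 : ℝ))
          rwa [sub_add_cancel] at this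
        rw [h4] at h5
        linarith
    exact lt_of_lt_of_le (Metric.measure_ball_pos _ _ (by norm_num)) (measure_mono h1)
  · filter_upwards with x
    have : (0 : ℝ) ≤ x (Classical.arbitrary J) ^ (2 * m) := by
      rw [pow_mul]; positivity
    exact this
  · exact int_ball (by fun_prop)

theorem int_inner (n : ℕ) (t : EuclideanSpace ℝ J) :
    ∫ x in bal J, (∑ j, x j * t j) ^ n = cst J n * ‖t‖ ^ n := by
  set e : EuclideanSpace ℝ J := EuclideanSpace.single (Classical.arbitrary J) (1 : ℝ) with he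
  set v : EuclideanSpace ℝ J := ‖t‖ • e with hv
  have hev : ‖v‖ = ‖t‖ := by
    rw [hv, norm_smul, he, EuclideanSpace.norm_single]
    simp
  set φ : EuclideanSpace ℝ J ≃ₗᵢ[ℝ] EuclideanSpace ℝ J := (Submodule.reflection (ℝ ∙ (v - t))ᗮ)
    with hφ
  have h1 : φ v = t := Submodule.reflection_sub hev
  have h2 : ∀ x s : EuclideanSpace ℝ J, ∑ j, x j * s j = inner ℝ s x := by
    intro x s
    rw [PiLp.inner_apply]
    refine Finset.sum_congr rfl fun j _ => ?_
    simp
  have h3 : (φ : EuclideanSpace ℝ J → EuclideanSpace ℝ J) ⁻¹' (bal J) = bal J := by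
    unfold bal
    ext x
    simp
  have h4 : ∫ x in bal J, (∑ j, x j * t j) ^ n = ∫ x in bal J, (∑ j, x j * v j) ^ n := by
    have h5 := (φ.measurePreserving).setIntegral_preimage_emb φ.toMeasurableEquiv.measurableEmbedding
      (fun x => (∑ j, x j * t j) ^ n) (bal J)
    rw [← h5, h3]
    refine setIntegral_congr_fun Metric.isClosed_closedBall.measurableSet fun x _ => ?_
    simp only [h2]
    rw [← h1, φ.inner_map_map]
  rw [h4]
  have h6 : ∀ x : EuclideanSpace ℝ J, (∑ j, x j * v j) ^ n =
      ‖t‖ ^ n * x (Classical.arbitrary J) ^ n := by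
    intro x
    rw [← mul_pow]
    congr 1
    rw [hv, he]
    simp [EuclideanSpace.single_apply, mul_comm]
  simp only [h6]
  rw [integral_const_mul, mul_comm]
  rfl

/-- the moments -/
noncomputable def mom {n : ℕ} (g : Fin n → J) : ℝ := ∫ x in bal J, ∏ i, x (g i)

theorem poly_eq (m : ℕ) :
    (∑ g : Fin (2 * m) → J, MvPolynomial.C (mom g) * ∏ i, MvPolynomial.X (g i) :
      MvPolynomial J ℝ) = MvPolynomial.C (cst J (2 * m)) * (∑ j, MvPolynomial.X j ^ 2) ^ m := by
  apply MvPolynomial.funext
  intro t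
  simp only [map_sum, map_mul, map_prod, map_pow, MvPolynomial.eval_C, MvPolynomial.eval_X]
  have h1 := int_inner (2 * m) (WithLp.toLp 2 t : EuclideanSpace ℝ J)
  have h2 : ‖(WithLp.toLp 2 t : EuclideanSpace ℝ J)‖ ^ (2 * m) = (∑ j, t j ^ 2) ^ m := by
    rw [pow_mul, EuclideanSpace.norm_sq_eq]
    simp
  rw [h2] at h1
  rw [← h1]
  have h3 : ∀ x : EuclideanSpace ℝ J, (∑ j, x j * (WithLp.toLp 2 t : EuclideanSpace ℝ J) j) ^ (2 * m) =
      ∑ g : Fin (2 * m) → J, (∏ i, x (g i)) * ∏ i, t (g i) := by
    intro x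
    have : (∑ j, x j * (WithLp.toLp 2 t : EuclideanSpace ℝ J) j) ^ (2 * m) =
        ∏ _i : Fin (2 * m), ∑ j, x j * t j := by
      rw [Finset.prod_const, Finset.card_univ, Fintype.card_fin]
    rw [this, Fintype.prod_sum]
    refine Finset.sum_congr rfl fun g _ => ?_
    rw [Finset.prod_mul_distrib]
  simp only [h3]
  rw [integral_finset_sum]
  · refine Finset.sum_congr rfl fun g _ => ?_
    rw [integral_mul_const]
    rfl
  · intro g _
    exact int_ball (by fun_prop)

theorem avg {A : Type} [CommRing A] [Algebra ℂ A] (L : A →ₗ[ℂ] ℂ) (M : J → A) (m : ℕ) :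
    ∫ x in bal J, L ((∑ j, ((x j : ℝ) : ℂ) • M j) ^ (2 * m)) =
      (cst J (2 * m) : ℂ) * L ((∑ j, M j ^ 2) ^ m) := by
  have h1 := congrArg (MvPolynomial.eval₂Hom ((algebraMap ℂ A).comp Complex.ofRealHom) M)
    (poly_eq (J := J) m)
  simp only [map_sum, map_mul, map_prod, map_pow, MvPolynomial.eval₂Hom_C,
    MvPolynomial.eval₂Hom_X', RingHom.comp_apply, Complex.ofRealHom_eq_coe] at h1
  have h2 := congrArg L h1
  simp only [← Algebra.smul_def, map_sum, map_smul, smul_eq_mul] at h2
  rw [← h2]
  have h3 : ∀ x : EuclideanSpace ℝ J, L ((∑ j, ((x j : ℝ) : ℂ) • M j) ^ (2 * m)) =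
      ∑ g : Fin (2 * m) → J, (((∏ i, x (g i) : ℝ)) : ℂ) * L (∏ i, M (g i)) := by
    intro x
    have : (∑ j, ((x j : ℝ) : ℂ) • M j) ^ (2 * m) =
        ∏ _i : Fin (2 * m), ∑ j, ((x j : ℝ) : ℂ) • M j := by
      rw [Finset.prod_const, Finset.card_univ, Fintype.card_fin]
    rw [this, Fintype.prod_sum, map_sum]
    refine Finset.sum_congr rfl fun g _ => ?_
    rw [Finset.prod_smul, map_smul, smul_eq_mul, Complex.ofReal_prod]
  simp only [h3]
  rw [integral_finset_sum]
  · refine Finset.sum_congr rfl fun g _ => ?_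
    rw [integral_mul_const]
    congr 1
    unfold mom
    exact integral_ofReal
  · intro g _
    exact int_ballC (by fun_prop)

end Pool.Agent.H15.Pf
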