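import Mathlib

/-!
# Determinants of quaternionic matrices
-/

set_option autoImplicit false
set_option linter.unusedSectionVars false

namespace Pool.Agent.H15.Pf

open Finset

/-- quaternionic matrices -/
def Quat {n m : Type} (N : Matrix (n × Bool) (m × Bool) ℂ) : Prop :=
  ∀ p q, N (p, true) (q, true) = (starRingEnd ℂ) (N (p, false) (q, false)) ∧
    N (p, true) (q, false) = -(starRingEnd ℂ) (N (p, false) (q, true))

/-- splitting off the first quaternionic index -/
def spl (k : ℕ) : Bool ⊕ (Fin k × Bool) ≃ Fin (k + 1) × Bool where
  toFun := Sum.elim (fun b => (0, b)) fun w => (w.1.succ, w.2)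
  invFun w := Fin.cases (motive := fun _ => Bool ⊕ (Fin k × Bool)) (Sum.inl w.2)
    (fun i => Sum.inr (i, w.2)) w.1
  left_inv := by
    rintro (b | ⟨i, b⟩)
    · rfl
    · rfl
  right_inv := by
    rintro ⟨i, b⟩
    refine Fin.cases ?_ (fun i => ?_) i
    · rfl
    · rfl

theorem det_rows {k : ℕ} (N : Matrix (Fin (k + 1) × Bool) (Fin (k + 1) × Bool) ℂ)
    (σ : Equiv.Perm (Fin (k + 1))) :
    (N.submatrix (fun w => (σ w.1, w.2)) id).det = N.det := by
  have h1 : (fun w : Fin (k + 1) × Bool => (σ w.1, w.2)) =
      (Equiv.prodCongrLeft fun _ : Bool => σ : Equiv.Perm (Fin (k + 1) × Bool)) := by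
    funext w
    rfl
  rw [h1, Matrix.det_permute, Equiv.Perm.sign_prodCongrLeft]
  rw [Fintype.prod_bool]
  simp

theorem quat_det (k : ℕ) : ∀ N : Matrix (Fin k × Bool) (Fin k × Bool) ℂ, Quat N →
    ∃ r : ℝ, 0 ≤ r ∧ N.det = (r : ℂ) := by
  induction k with
  | zero =>
    intro N _
    exact ⟨1, zero_le_one, by rw [Matrix.det_isEmpty]; simp⟩
  | succ k ih =>
    intro N hN
    by_cases h0 : ∀ p, N (p, false) (0, false) = 0 ∧ N (p, false) (0, true) = 0
    · refine ⟨0, le_rfl, ?_⟩
      rw [Matrix.det_eq_zero_of_column_eq_zero ((0, false) : Fin (k + 1) × Bool)]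
      · simp
      · rintro ⟨p, a⟩
        cases a
        · exact (h0 p).1
        · rw [(hN p 0).2, (h0 p).2]
          simp
    · push Not at h0
      obtain ⟨p, hp⟩ := h0
      set N' := N.submatrix (fun w : Fin (k + 1) × Bool => (Equiv.swap 0 p w.1, w.2)) id with hN'
      have hdet : N'.det = N.det := det_rows N (Equiv.swap 0 p)
      have hQ : Quat N' := fun i j => hN (Equiv.swap 0 p i) j
      set α := N' (0, false) (0, false) with hα
      set β := N' (0, false) (0, true) with hβ
      have hα' : α = N (p, false) (0, false) := by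
        rw [hα, hN']
        simp
      have hβ' : β = N (p, false) (0, true) := by
        rw [hβ, hN']
        simp
      set δ : ℝ := Complex.normSq α + Complex.normSq β with hδ
      have hδ0 : 0 < δ := by
        by_cases hz : α = 0
        · have : β ≠ 0 := by
            rw [hβ']
            exact hp (by rw [← hα', hz])
          have h1 := Complex.normSq_pos.2 this
          have h2 := Complex.normSq_nonneg α
          linarith
        · have h1 := Complex.normSq_pos.2 hz
          have h2 := Complex.normSq_nonneg β
          linarith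
      have hδc : (δ : ℂ) = α * (starRingEnd ℂ) α + β * (starRingEnd ℂ) β := by
        rw [hδ, Complex.ofReal_add, Complex.mul_conj, Complex.mul_conj]
      have hδ1 : (δ : ℂ) ≠ 0 := by exact_mod_cast hδ0.ne'
      set A : Matrix Bool Bool ℂ := fun a b => N' (0, a) (0, b) with hA
      set Bm : Matrix Bool (Fin k × Bool) ℂ := fun a w => N' (0, a) (w.1.succ, w.2) with hB
      set Cm : Matrix (Fin k × Bool) Bool ℂ := fun w b => N' (w.1.succ, w.2) (0, b) with hC
      set D : Matrix (Fin k × Bool) (Fin k × Bool) ℂ :=
        fun w w' => N' (w.1.succ, w.2) (w'.1.succ, w'.2) with hD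
      set Ai : Matrix Bool Bool ℂ := fun a b => (if a then (if b then α else (starRingEnd ℂ) β)
        else (if b then -β else (starRingEnd ℂ) α)) * (δ : ℂ)⁻¹ with hAi
      have aff : A false false = α := rfl
      have aft : A false true = β := rfl
      have atf : A true false = -(starRingEnd ℂ) β := (hQ 0 0).2
      have att : A true true = (starRingEnd ℂ) α := (hQ 0 0).1
      have iff' : Ai false false = (starRingEnd ℂ) α * (δ : ℂ)⁻¹ := rfl
      have ift : Ai false true = -β * (δ : ℂ)⁻¹ := rfl
      have itf : Ai true false = (starRingEnd ℂ) β * (δ : ℂ)⁻¹ := rfl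
      have itt : Ai true true = α * (δ : ℂ)⁻¹ := rfl
      have hinv : A * Ai = 1 := by
        ext a b
        rw [Matrix.mul_apply, Fintype.sum_bool]
        cases a <;> cases b
        · rw [aff, aft, iff', itf, Matrix.one_apply_eq]
          field_simp
          rw [hδc]
          ring
        · rw [aff, aft, ift, itt, Matrix.one_apply_ne (by simp)]
          ring
        · rw [atf, att, iff', itf, Matrix.one_apply_ne (by simp)]
          ring
        · rw [atf, att, ift, itt, Matrix.one_apply_eq]
          field_simp
          rw [hδc]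
          ring
      let _ : Invertible A := invertibleOfRightInverse A Ai hinv
      have hAi' : ⅟A = Ai := rfl
      have hblock : N'.submatrix (spl k) (spl k) = Matrix.fromBlocks A Bm Cm D := by
        ext i j
        rcases i with a | w <;> rcases j with b | w' <;> rfl
      have h3 := Matrix.det_fromBlocks₁₁ A Bm Cm D
      rw [← hblock, Matrix.det_submatrix_equiv_self, hdet, hAi'] at h3
      have hAdet : A.det = (δ : ℂ) := by
        rw [← Matrix.det_reindex_self finTwoEquiv.symm A, Matrix.det_fin_two]
        simp only [Matrix.reindex_apply, Matrix.submatrix_apply, Equiv.symm_symm]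
        have t0 : finTwoEquiv 0 = false := rfl
        have t1 : finTwoEquiv 1 = true := rfl
        rw [t0, t1, aff, aft, atf, att, hδc]
        ring
      obtain ⟨r, hr, hr'⟩ := ih (D - Cm * Ai * Bm) (by
        intro i j
        have c1 := (hQ i.succ 0).1
        have c2 := (hQ i.succ 0).2
        have b1 := (hQ 0 j.succ).1
        have b2 := (hQ 0 j.succ).2
        have d1 := (hQ i.succ j.succ).1
        have d2 := (hQ i.succ j.succ).2
        have hδr : (starRingEnd ℂ) (δ : ℂ) = δ := Complex.conj_ofReal δ
        have ent : ∀ a b, (D - Cm * Ai * Bm) (i, a) (j, b) = N' (i.succ, a) (j.succ, b) -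
            ((N' (i.succ, a) (0, true) * Ai true true + N' (i.succ, a) (0, false) * Ai false true) *
              N' (0, true) (j.succ, b) +
            (N' (i.succ, a) (0, true) * Ai true false + N' (i.succ, a) (0, false) * Ai false false) *
              N' (0, false) (j.succ, b)) := by
          intro a b
          rw [Matrix.sub_apply, Matrix.mul_apply, Fintype.sum_bool, Matrix.mul_apply,
            Matrix.mul_apply, Fintype.sum_bool, Fintype.sum_bool]
        constructor
        · rw [ent, ent, iff', ift, itf, itt, c1, c2, b1, b2, d1]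
          simp only [map_sub, map_add, map_mul, map_neg, map_inv₀, hδr, Complex.conj_conj]
          ring
        · rw [ent, ent, iff', ift, itf, itt, c1, c2, b1, b2, d2]
          simp only [map_sub, map_add, map_mul, map_neg, map_inv₀, hδr, Complex.conj_conj]
          ring)
      refine ⟨δ * r, mul_nonneg hδ0.le hr, ?_⟩
      rw [h3, hAdet, hr', Complex.ofReal_mul]

end Pool.Agent.H15.Pf
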