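import Pool.Agent.H15.PfCx
import Pool.Agent.H15.PfQuat

/-!
# Two-forms with two complementary isotropic subspaces
-/

set_option autoImplicit false
set_option linter.unusedSectionVars false

namespace Pool.Agent.H15.Pf

open Finset

section bip

variable {B : Type} [Fintype B] [DecidableEq B]

theorem bh_det' (h : Matrix Bool Bool ℂ) :
    (bh h : Matrix (B × Bool) _ ℂ).det = h.det ^ Fintype.card B := by
  have h1 : (bh h : Matrix (B × Bool) (B × Bool) ℂ) =
      (Matrix.blockDiagonal fun _ : B => h).submatrix (Equiv.prodComm B Bool) (Equiv.prodComm B Bool) :=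
    rfl
  rw [h1, Matrix.det_submatrix_equiv_self, Matrix.det_blockDiagonal, Finset.prod_const,
    Finset.card_univ]

theorem det_bool (h : Matrix Bool Bool ℂ) :
    h.det = h false false * h true true - h false true * h true false := by
  rw [← Matrix.det_reindex_self finTwoEquiv.symm h, Matrix.det_fin_two]
  rfl

/-- the quaternionic unit -/
noncomputable def tau : Matrix Bool Bool ℂ := fun a b =>
  if a then (if b then 0 else Complex.I) else (if b then -Complex.I else 0)

theorem tau_det : tau.det = -1 := by
  rw [det_bool]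
  have h1 : tau false false = 0 := rfl
  have h2 : tau true true = 0 := rfl
  have h3 : tau false true = -Complex.I := rfl
  have h4 : tau true false = Complex.I := rfl
  rw [h1, h2, h3, h4]
  linear_combination Complex.I_sq

theorem quat_det' {N : Matrix (B × Bool) (B × Bool) ℂ} (hN : Quat N) :
    ∃ r : ℝ, 0 ≤ r ∧ N.det = (r : ℂ) := by
  set e := Fintype.equivFin B with he
  set E : Fin (Fintype.card B) × Bool ≃ B × Bool := e.symm.prodCongr (Equiv.refl Bool) with hE
  obtain ⟨r, hr, h⟩ := quat_det _ (N.submatrix E E) (fun p q => hN (e.symm p) (e.symm q))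
  exact ⟨r, hr, by rw [← h, Matrix.det_submatrix_equiv_self]⟩

theorem Sx_symm (z : Fin 3 → ℝ) (a b : Bool) : Sx z a b = Sx z b a := by
  cases a <;> cases b
  · rfl
  · rw [Sx_ft, Sx_tf]
  · rw [Sx_ft, Sx_tf]
  · rfl

/-- the off-diagonal block -/
noncomputable def Nx {N : Type} [Fintype N] (ω : N → B × Bool → B × Bool → ℝ)
    (x : N → Fin 3 → ℝ) : Matrix (B × Bool) (B × Bool) ℂ :=
  fun w w' => ∑ ν, (ω ν (w.1, false) (w'.1, true) : ℂ) * Sx (x ν) w.2 w'.2

theorem Nx_det {N : Type} [Fintype N] (ω : N → B × Bool → B × Bool → ℝ) (x : N → Fin 3 → ℝ) :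
    ∃ r : ℝ, 0 ≤ r ∧ (Nx ω x).det = (-1) ^ Fintype.card B * (r : ℂ) := by
  have h1 : Quat (Nx ω x * bh tau) := by
    have ent : ∀ (j : B) (a : Bool) (k : B) (b : Bool),
        (Nx ω x * (bh tau : Matrix (B × Bool) (B × Bool) ℂ)) (j, a) (k, b) =
        Nx ω x (j, a) (k, true) * tau true b + Nx ω x (j, a) (k, false) * tau false b := by
      intro j a k b
      rw [Matrix.mul_apply, Fintype.sum_prod_type, Finset.sum_eq_single k]
      · rw [Fintype.sum_bool]
        simp [bh_apply]
      · intro i _ hi
        simp [bh_apply, hi]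
      · intro h; exact absurd (mem_univ _) h
    intro j k
    have t2 : tau true true = 0 := rfl
    have t3 : tau false true = -Complex.I := rfl
    have t4 : tau true false = Complex.I := rfl
    have t1 : tau false false = 0 := rfl
    rw [ent, ent, ent, ent, t1, t2, t3, t4]
    unfold Nx
    simp only [mul_zero, zero_add, add_zero, map_mul, map_sum, Complex.conj_ofReal, conj_Sx,
      Complex.conj_I, map_neg]
    constructor
    · simp
    · simp
  obtain ⟨r, hr, h2⟩ := quat_det' h1
  rw [Matrix.det_mul, bh_det', tau_det] at h2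
  refine ⟨r, hr, ?_⟩
  rw [← h2]
  have : ((-1 : ℂ)) ^ Fintype.card B * (-1) ^ Fintype.card B = 1 := by
    rw [← mul_pow]; norm_num
  linear_combination (-(Nx ω x).det) * this

/-- splitting by the second index -/
def sp2 (B : Type) : (B × Bool) × Bool ≃ (B × Bool) ⊕ (B × Bool) where
  toFun u := if u.1.2 then Sum.inr (u.1.1, u.2) else Sum.inl (u.1.1, u.2)
  invFun := Sum.elim (fun w => ((w.1, false), w.2)) fun w => ((w.1, true), w.2)
  left_inv := by
    rintro ⟨⟨j, c⟩, a⟩
    cases c <;> rfl
  right_inv := by
    rintro (w | w) <;> rfl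

noncomputable def dR : Matrix Bool Bool ℂ := fun a b => if a = b then (if a then -1 else 1) else 0

theorem good_bip {N : Type} [Fintype N] (ω : N → B × Bool → B × Bool → ℝ)
    (hω : ∀ ν p q, ω ν p q = -ω ν q p) (h0 : ∀ ν j k c, ω ν (j, c) (k, c) = 0)
    (x : N → Fin 3 → ℝ) : Good (Mx ω x) := by
  have hM : Matrix.of (Mx ω x) = (Matrix.fromBlocks 0 (Nx ω x) (-(Nx ω x).transpose) 0).submatrix
      (sp2 B) (sp2 B) := by
    ext u v
    obtain ⟨⟨j, c⟩, a⟩ := u
    obtain ⟨⟨k, c'⟩, b⟩ := v
    cases c <;> cases c'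
    · change Mx ω x ((j, false), a) ((k, false), b) = 0
      unfold Mx
      simp [h0]
    · rfl
    · change Mx ω x ((j, true), a) ((k, false), b) = -(Nx ω x (k, b) (j, a))
      unfold Mx Nx
      rw [← Finset.sum_neg_distrib]
      refine Finset.sum_congr rfl fun ν _ => ?_
      simp only
      rw [hω ν (j, true) (k, false), Sx_symm (x ν) a b]
      push_cast
      ring
    · change Mx ω x ((j, true), a) ((k, true), b) = 0
      unfold Mx
      simp [h0]
  obtain ⟨r, hr, hdet⟩ := Nx_det ω x
  by_cases hz : (Nx ω x).det = 0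
  · obtain ⟨v, hv, hv'⟩ := Matrix.exists_mulVec_eq_zero_iff.2 hz
    have hv2 : ∀ w : B × Bool, ∑ w' : B × Bool, Nx ω x w w' * v w' = 0 := fun w => congrFun hv' w
    set V : (B × Bool) × Bool → ℂ := fun u => if u.1.2 then v (u.1.1, u.2) else 0 with hV
    have hME : ∀ u u', Mx ω x u u' = (Matrix.fromBlocks 0 (Nx ω x) (-(Nx ω x).transpose) 0)
        (sp2 B u) (sp2 B u') := fun u u' => congrFun (congrFun hM u) u'
    have hsum : ∀ f : (B × Bool) × Bool → ℂ, ∑ u, f u =
        (∑ w : B × Bool, f ((w.1, false), w.2)) + ∑ w : B × Bool, f ((w.1, true), w.2) := by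
      intro f
      rw [← Equiv.sum_comp (sp2 B).symm, Fintype.sum_sum_type]
      rfl
    refine Or.inr ⟨V, ?_, ?_, ?_⟩
    · intro h
      apply hv
      funext w
      have := congrFun h ((w.1, true), w.2)
      exact this
    · intro u
      rw [hsum]
      have e1 : ∑ w : B × Bool, Mx ω x u ((w.1, false), w.2) * V ((w.1, false), w.2) = 0 := by
        refine Finset.sum_eq_zero fun w _ => ?_
        simp [hV]
      rw [e1, zero_add]
      obtain ⟨⟨k, c⟩, b⟩ := u
      cases c
      · exact hv2 (k, b)
      · refine Finset.sum_eq_zero fun w _ => ?_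
        have : Mx ω x ((k, true), b) ((w.1, true), w.2) = 0 := by rw [hME]; rfl
        rw [this, zero_mul]
    · intro u
      rw [hsum]
      have e1 : ∑ w : B × Bool, V ((w.1, false), w.2) * Mx ω x ((w.1, false), w.2) u = 0 := by
        refine Finset.sum_eq_zero fun w _ => ?_
        simp [hV]
      rw [e1, zero_add]
      obtain ⟨⟨k, c⟩, b⟩ := u
      cases c
      · have h5 := hv2 (k, b)
        have h6 : ∑ w : B × Bool, V ((w.1, true), w.2) * Mx ω x ((w.1, true), w.2) ((k, false), b) =
            -∑ w' : B × Bool, Nx ω x (k, b) w' * v w' := by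
          rw [← Finset.sum_neg_distrib]
          refine Finset.sum_congr rfl fun w _ => ?_
          have : Mx ω x ((w.1, true), w.2) ((k, false), b) = -(Nx ω x (k, b) w) := by
            rw [hME]; rfl
          rw [this]
          have : V ((w.1, true), w.2) = v w := rfl
          rw [this]
          ring
        rw [h6, h5, neg_zero]
      · refine Finset.sum_eq_zero fun w _ => ?_
        have : Mx ω x ((w.1, true), w.2) ((k, true), b) = 0 := by rw [hME]; rfl
        rw [this, mul_zero]
  · have hr0 : 0 < r := by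
      rcases hr.eq_or_lt with h | h
      · exfalso
        apply hz
        rw [hdet, ← h]
        simp
      · exact h
    have hu : IsUnit (Nx ω x).det := isUnit_iff_ne_zero.2 hz
    set P : Matrix (B × Bool) (B × Bool) ℂ := (Nx ω x)⁻¹ * bh dR with hP
    have hNP : Nx ω x * P = bh dR := by
      rw [hP, ← Matrix.mul_assoc, Matrix.mul_nonsing_inv _ hu, Matrix.one_mul]
    have hdP : P.det = ((r⁻¹ : ℝ) : ℂ) := by
      have h1 := congrArg Matrix.det hNP
      rw [Matrix.det_mul, bh_det', det_bool] at h1
      have d1 : dR false false = 1 := rfl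
      have d2 : dR true true = -1 := rfl
      have d3 : dR false true = 0 := rfl
      rw [d1, d2, d3, zero_mul, sub_zero, one_mul, hdet] at h1
      have h2 : ((-1 : ℂ)) ^ Fintype.card B ≠ 0 := pow_ne_zero _ (by norm_num)
      have h3 : (r : ℂ) * P.det = 1 := by
        apply mul_left_cancel₀ h2
        linear_combination h1
      have h4 : (r : ℂ) ≠ 0 := by exact_mod_cast hr0.ne'
      rw [Complex.ofReal_inv]
      exact eq_inv_of_mul_eq_one_right h3
    refine Or.inl ⟨(Matrix.fromBlocks 1 0 0 P).submatrix (sp2 B) (sp2 B), r⁻¹, fun p q =>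
      if p.1 = q.1 then (if p.2 = q.2 then 0 else if p.2 then -1 else 1) else 0,
      inv_pos.2 hr0, ?_, ?_⟩
    · rw [Matrix.det_submatrix_equiv_self, Matrix.det_fromBlocks_zero₂₁, Matrix.det_one, one_mul, hdP]
    · have h5 := cong_mat ((Matrix.fromBlocks 1 0 0 P).submatrix (sp2 B) (sp2 B)) (Mx ω x)
      rw [hM, Matrix.transpose_submatrix, Matrix.submatrix_mul_equiv, Matrix.submatrix_mul_equiv,
        Matrix.fromBlocks_transpose, Matrix.fromBlocks_multiply, Matrix.fromBlocks_multiply] at h5
      simp only [Matrix.transpose_one, Matrix.transpose_zero, Matrix.mul_zero, Matrix.zero_mul,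
        add_zero, zero_add, Matrix.one_mul, Matrix.mul_one, Matrix.mul_neg, hNP, neg_zero] at h5
      rw [← Matrix.transpose_mul, hNP] at h5
      funext u v
      have h6 := congrFun (congrFun h5 u) v
      rw [Matrix.of_apply] at h6
      rw [h6]
      obtain ⟨⟨j, c⟩, a⟩ := u
      obtain ⟨⟨k, c'⟩, b⟩ := v
      cases c <;> cases c'
      · change (0 : ℂ) = _
        unfold dg
        simp
      · change bh dR (j, a) (k, b) = _
        rw [bh_apply]
        unfold dg dR
        cases a <;> cases b <;> by_cases hjk : j = k <;> simp [hjk]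
      · change -(bh dR (k, b) (j, a)) = _
        rw [bh_apply]
        unfold dg dR
        cases a <;> cases b <;> by_cases hjk : j = k <;> simp [hjk, eq_comm]
      · change (0 : ℂ) = _
        unfold dg
        simp

end bip

end Pool.Agent.H15.Pf
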