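import Pool.Agent.H15.PfRot

/-!
# Block sums
-/

set_option autoImplicit false
set_option linter.unusedSectionVars false

namespace Pool.Agent.H15.Pf

open Finset

section blocks

variable {r : ℕ} {X : Fin r → Type} [∀ i, Fintype (X i)] [∀ i, DecidableEq (X i)]

theorem det_bd {Y : Fin r → Type} [∀ i, Fintype (Y i)] [∀ i, DecidableEq (Y i)]
    (G : ∀ i, Matrix (Y i) (Y i) ℂ) : (Matrix.blockDiagonal' G).det = ∏ i, (G i).det := by
  have h1 : (Matrix.blockDiagonal' G).BlockTriangular Sigma.fst := by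
    rintro ⟨i, a⟩ ⟨j, b⟩ hij
    rw [Matrix.blockDiagonal'_apply_ne]
    exact (ne_of_lt hij).symm
  rw [h1.det_fintype]
  refine Finset.prod_congr rfl fun k _ => ?_
  rw [← Matrix.det_submatrix_equiv_self (Equiv.sigmaSubtype k).symm]
  congr 1
  ext a b
  exact Matrix.blockDiagonal'_apply_eq G k a b

/-- regrouping -/
def sgr (X : Fin r → Type) : (Σ i, X i) × Bool ≃ Σ i, (X i × Bool) :=
  Equiv.sigmaProdDistrib X Bool

/-- the block matrix -/
noncomputable def bm (G : ∀ i, Matrix (X i × Bool) (X i × Bool) ℂ) :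
    Matrix ((Σ i, X i) × Bool) ((Σ i, X i) × Bool) ℂ :=
  (Matrix.blockDiagonal' G).submatrix (sgr X) (sgr X)

theorem bm_det (G : ∀ i, Matrix (X i × Bool) (X i × Bool) ℂ) : (bm G).det = ∏ i, (G i).det := by
  unfold bm
  rw [Matrix.det_submatrix_equiv_self, det_bd]

theorem bm_same (G : ∀ i, Matrix (X i × Bool) (X i × Bool) ℂ) (i : Fin r) (p q : X i)
    (a b : Bool) : bm G (⟨i, p⟩, a) (⟨i, q⟩, b) = G i (p, a) (q, b) :=
  Matrix.blockDiagonal'_apply_eq G i (p, a) (q, b)

theorem bm_ne (G : ∀ i, Matrix (X i × Bool) (X i × Bool) ℂ) {i j : Fin r} (hij : i ≠ j) (p : X i)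
    (q : X j) (a b : Bool) : bm G (⟨i, p⟩, a) (⟨j, q⟩, b) = 0 :=
  Matrix.blockDiagonal'_apply_ne G (p, a) (q, b) hij

theorem sum_sig {α : Type} [AddCommMonoid α] (f : (Σ i, X i) × Bool → α) :
    ∑ u, f u = ∑ i, ∑ w : X i × Bool, f (⟨i, w.1⟩, w.2) := by
  rw [← Fintype.sum_sigma' (fun i (w : X i × Bool) => f (⟨i, w.1⟩, w.2)),
    ← Equiv.sum_comp (sgr X).symm]
  rfl

theorem cong_bm (G : ∀ i, Matrix (X i × Bool) (X i × Bool) ℂ)
    (M : (Σ i, X i) × Bool → (Σ i, X i) × Bool → ℂ) (i j : Fin r) (p : X i) (q : X j)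
    (a b : Bool) : cong (bm G) M (⟨i, p⟩, a) (⟨j, q⟩, b) =
      ∑ u : X i × Bool, ∑ v : X j × Bool, G i u (p, a) * M (⟨i, u.1⟩, u.2) (⟨j, v.1⟩, v.2) *
        G j v (q, b) := by
  unfold cong
  rw [sum_sig, Finset.sum_eq_single i]
  · refine Finset.sum_congr rfl fun u _ => ?_
    rw [sum_sig, Finset.sum_eq_single j]
    · simp only [bm_same]
    · intro k _ hk
      refine Finset.sum_eq_zero fun v _ => ?_
      rw [bm_ne G hk, mul_zero]
    · intro h; exact absurd (mem_univ _) h
  · intro k _ hk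
    refine Finset.sum_eq_zero fun u _ => Finset.sum_eq_zero fun v _ => ?_
    rw [bm_ne G hk, zero_mul, zero_mul]
  · intro h; exact absurd (mem_univ _) h

theorem Good.sigma {M : (Σ i, X i) × Bool → (Σ i, X i) × Bool → ℂ}
    (hM : ∀ (i j : Fin r) (p : X i) (q : X j) (a b : Bool), i ≠ j →
      M (⟨i, p⟩, a) (⟨j, q⟩, b) = 0)
    (h : ∀ i, Good (fun u v : X i × Bool => M (⟨i, u.1⟩, u.2) (⟨i, v.1⟩, v.2))) : Good M := by
  by_cases hd : ∃ i, Deg (fun u v : X i × Bool => M (⟨i, u.1⟩, u.2) (⟨i, v.1⟩, v.2))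
  · obtain ⟨i, v, hv, h1, h2⟩ := hd
    refine Or.inr ⟨fun u => if hu : u.1.1 = i then v (hu ▸ u.1.2, u.2) else 0, ?_, ?_, ?_⟩
    · obtain ⟨⟨p, a⟩, hpa⟩ := Function.ne_iff.1 hv
      refine Function.ne_iff.2 ⟨(⟨i, p⟩, a), ?_⟩
      simpa using hpa
    · rintro ⟨⟨j, p⟩, a⟩
      rw [sum_sig, Finset.sum_eq_single i]
      · by_cases hji : j = i
        · subst hji
          have := h1 (p, a)
          simpa using this
        · refine Finset.sum_eq_zero fun w _ => ?_
          rw [hM j i p w.1 a w.2 hji, zero_mul]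
      · intro k _ hk
        refine Finset.sum_eq_zero fun w _ => ?_
        simp [hk]
      · intro h; exact absurd (mem_univ _) h
    · rintro ⟨⟨j, p⟩, a⟩
      rw [sum_sig, Finset.sum_eq_single i]
      · by_cases hji : j = i
        · subst hji
          have := h2 (p, a)
          simpa using this
        · refine Finset.sum_eq_zero fun w _ => ?_
          rw [hM i j w.1 p w.2 a (fun h => hji h.symm), mul_zero]
      · intro k _ hk
        refine Finset.sum_eq_zero fun w _ => ?_
        simp [hk]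
      · intro h; exact absurd (mem_univ _) h
  · push Not at hd
    have h3 := fun i => (h i).resolve_right (hd i)
    choose G d Z h4 h5 h6 using h3
    refine Or.inl ⟨bm G, ∏ i, d i, fun p q => if hpq : p.1 = q.1 then Z q.1 (hpq ▸ p.2) q.2 else 0,
      Finset.prod_pos fun i _ => h4 i, ?_, ?_⟩
    · rw [bm_det, Complex.ofReal_prod]
      exact Finset.prod_congr rfl fun i _ => h5 i
    · funext u v
      obtain ⟨⟨i, p⟩, a⟩ := u
      obtain ⟨⟨j, q⟩, b⟩ := v
      rw [cong_bm]
      by_cases hij : i = j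
      · subst hij
        have h7 := congrFun (congrFun (h6 i) (p, a)) (q, b)
        unfold cong at h7
        rw [h7]
        unfold dg
        simp
      · have h8 : dg (fun p q : Σ i, X i => if hpq : p.1 = q.1 then Z q.1 (hpq ▸ p.2) q.2 else 0)
            (⟨i, p⟩, a) (⟨j, q⟩, b) = 0 := by
          unfold dg
          simp [hij]
        rw [h8]
        refine Finset.sum_eq_zero fun u _ => Finset.sum_eq_zero fun v _ => ?_
        rw [hM i j _ _ _ _ hij, mul_zero, zero_mul]

end blocks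

section reindex

variable {X X' : Type} [Fintype X] [DecidableEq X] [Fintype X'] [DecidableEq X']

theorem Good.reindex (e : X' ≃ X) {M : X × Bool → X × Bool → ℂ} (h : Good M) :
    Good (fun u v : X' × Bool => M (e u.1, u.2) (e v.1, v.2)) := by
  set E : X' × Bool ≃ X × Bool := e.prodCongr (Equiv.refl Bool) with hE
  have hEa : ∀ u : X' × Bool, E u = (e u.1, u.2) := fun u => rfl
  rcases h with ⟨G, d, Z, hd, hG, hc⟩ | ⟨v, hv, h1, h2⟩
  · refine Or.inl ⟨G.submatrix E E, d, fun p q => Z (e p) (e q), hd, ?_, ?_⟩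
    · rw [Matrix.det_submatrix_equiv_self, hG]
    · funext u v
      have h3 := congrFun (congrFun hc (E u)) (E v)
      unfold cong at h3 ⊢
      rw [← Equiv.sum_comp E] at h3
      simp only [← Equiv.sum_comp E (fun v' => _ * _ * G v' (E v))] at h3
      exact h3
  · refine Or.inr ⟨v ∘ E, ?_, ?_, ?_⟩
    · intro h
      apply hv
      funext u
      have := congrFun h (E.symm u)
      simpa using this
    · intro u
      have := h1 (E u)
      rw [← Equiv.sum_comp E] at this
      exact this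
    · intro u
      have := h2 (E u)
      rw [← Equiv.sum_comp E] at this
      exact this

end reindex

end Pool.Agent.H15.Pf
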