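import Pool.Agent.H15.PfBlock

/-!
# Two-forms of type (2,0) + (0,2)
-/

set_option autoImplicit false
set_option linter.unusedSectionVars false

namespace Pool.Agent.H15.Pf

open Finset

section cx

/-- numbering -/
def e4 : Bool × Bool ≃ Fin 4 where
  toFun u := if u.2 then (if u.1 then 3 else 2) else (if u.1 then 1 else 0)
  invFun i := ![(false, false), (true, false), (false, true), (true, true)] i
  left_inv := by decide
  right_inv := by decide

/-- the transformation -/
noncomputable def K4 : Matrix (Fin 4) (Fin 4) ℂ :=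
  !![1, 0, 0, 1; -Complex.I, 0, 0, Complex.I; 0, 1, -1, 0; 0, -Complex.I, -Complex.I, 0]

theorem K4_det : K4.det = 4 := by
  unfold K4
  rw [Matrix.det_succ_row_zero]
  simp only [Fin.sum_univ_four, Matrix.det_fin_three, Matrix.submatrix_apply]
  simp [Fin.succAbove]
  ring_nf

noncomputable def KK : Matrix (Bool × Bool) (Bool × Bool) ℂ := K4.submatrix e4 e4

variable {B : Type} [Fintype B] [DecidableEq B]

/-- regrouping -/
def rgr (B : Type) : (B × Bool) × Bool ≃ (Bool × Bool) × B :=
  (Equiv.prodAssoc B Bool Bool).trans (Equiv.prodComm _ _)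

noncomputable def bj (K : Matrix (Bool × Bool) (Bool × Bool) ℂ) :
    Matrix ((B × Bool) × Bool) ((B × Bool) × Bool) ℂ :=
  (Matrix.blockDiagonal fun _ : B => K).submatrix (rgr B) (rgr B)

theorem bj_det (K : Matrix (Bool × Bool) (Bool × Bool) ℂ) :
    (bj K : Matrix ((B × Bool) × Bool) _ ℂ).det = K.det ^ Fintype.card B := by
  unfold bj
  rw [Matrix.det_submatrix_equiv_self, Matrix.det_blockDiagonal, Finset.prod_const,
    Finset.card_univ]

theorem bj_apply (K : Matrix (Bool × Bool) (Bool × Bool) ℂ) (u v : (B × Bool) × Bool) :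
    bj K u v = if u.1.1 = v.1.1 then K (u.1.2, u.2) (v.1.2, v.2) else 0 := by
  unfold bj
  rw [Matrix.submatrix_apply, Matrix.blockDiagonal_apply]
  rfl

theorem cong_bj (K : Matrix (Bool × Bool) (Bool × Bool) ℂ)
    (M : (B × Bool) × Bool → (B × Bool) × Bool → ℂ) (j k : B) (c c' a a' : Bool) :
    cong (bj K) M ((j, c), a) ((k, c'), a') = ∑ w : Bool × Bool, ∑ w' : Bool × Bool,
      K w (c, a) * M ((j, w.1), w.2) ((k, w'.1), w'.2) * K w' (c', a') := by
  unfold cong
  have h1 : ∀ f : (B × Bool) × Bool → ℂ, ∑ u, f u = ∑ i : B, ∑ w : Bool × Bool, f ((i, w.1), w.2) := by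
    intro f
    rw [← Fintype.sum_prod_type' (fun (i : B) (w : Bool × Bool) => f ((i, w.1), w.2)),
      ← Equiv.sum_comp (Equiv.prodAssoc B Bool Bool)]
    rfl
  rw [h1, Finset.sum_eq_single j]
  · refine Finset.sum_congr rfl fun w _ => ?_
    rw [h1, Finset.sum_eq_single k]
    · simp [bj_apply]
    · intro i _ hi
      simp [bj_apply, hi]
    · intro h; exact absurd (mem_univ _) h
  · intro i _ hi
    simp [bj_apply, hi]
  · intro h; exact absurd (mem_univ _) h

theorem conj_Sx (z : Fin 3 → ℝ) (a b : Bool) : (starRingEnd ℂ) (Sx z a b) =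
    (if a = b then -1 else 1) * Sx z (!a) (!b) := by
  cases a <;> cases b
  · simp [Sx_ff, Sx_tt, map_add, map_mul]
    ring
  · simp [Sx_ft, Sx_tf]
  · simp [Sx_ft, Sx_tf]
  · simp [Sx_ff, Sx_tt, map_add, map_mul]
    ring

/-- two-forms with `ω (J x) (J y) = -ω x y` -/
theorem good_cx {N : Type} [Fintype N] (ω : N → B × Bool → B × Bool → ℝ)
    (h1 : ∀ ν j k, ω ν (j, true) (k, true) = -ω ν (j, false) (k, false))
    (h2 : ∀ ν j k, ω ν (j, true) (k, false) = ω ν (j, false) (k, true)) (x : N → Fin 3 → ℝ) :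
    Good (Mx ω x) := by
  set P : B → B → Bool → Bool → ℂ := fun j k a b =>
    ∑ ν, (ω ν (j, false) (k, false) : ℂ) * Sx (x ν) a b with hP
  set Q : B → B → Bool → Bool → ℂ := fun j k a b =>
    ∑ ν, (ω ν (j, false) (k, true) : ℂ) * Sx (x ν) a b with hQ
  have m1 : ∀ j k a b, Mx ω x ((j, false), a) ((k, false), b) = P j k a b := fun _ _ _ _ => rfl
  have m2 : ∀ j k a b, Mx ω x ((j, false), a) ((k, true), b) = Q j k a b := fun _ _ _ _ => rfl
  have m3 : ∀ j k a b, Mx ω x ((j, true), a) ((k, false), b) = Q j k a b := by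
    intro j k a b
    unfold Mx
    simp only [h2]
    rfl
  have m4 : ∀ j k a b, Mx ω x ((j, true), a) ((k, true), b) = -P j k a b := by
    intro j k a b
    unfold Mx
    simp only [h1, Complex.ofReal_neg, neg_mul, Finset.sum_neg_distrib]
    rfl
  have cP : ∀ j k a b, (starRingEnd ℂ) (P j k a b) = (if a = b then -1 else 1) * P j k (!a) (!b) := by
    intro j k a b
    simp only [hP, map_sum, map_mul, Complex.conj_ofReal, conj_Sx, Finset.mul_sum]
    refine Finset.sum_congr rfl fun ν _ => ?_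
    ring
  have cQ : ∀ j k a b, (starRingEnd ℂ) (Q j k a b) = (if a = b then -1 else 1) * Q j k (!a) (!b) := by
    intro j k a b
    simp only [hQ, map_sum, map_mul, Complex.conj_ofReal, conj_Sx, Finset.mul_sum]
    refine Finset.sum_congr rfl fun ν _ => ?_
    ring
  refine Or.inl ⟨bj KK, 4 ^ Fintype.card B, fun p q => 2 * P p.1 q.1 p.2 q.2 -
    2 * Complex.I * Q p.1 q.1 p.2 q.2, by positivity, ?_, ?_⟩
  · rw [bj_det]
    unfold KK
    rw [Matrix.det_submatrix_equiv_self, K4_det]
    norm_num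
  · have k1 : ∀ u v, KK u v = K4 (e4 u) (e4 v) := fun _ _ => rfl
    funext u v
    obtain ⟨⟨j, c⟩, a⟩ := u
    obtain ⟨⟨k, c'⟩, a'⟩ := v
    rw [cong_bj]
    simp only [Fintype.sum_prod_type, Fintype.sum_bool, m1, m2, m3, m4, k1]
    have h2c : (starRingEnd ℂ) 2 = 2 := map_ofNat _ 2
    unfold dg
    cases a <;> cases a' <;> cases c <;> cases c' <;>
      simp [K4, e4, cP, cQ, map_sub, map_mul, Complex.conj_I, h2c] <;>
      ring_nf <;> (try simp only [Complex.I_sq]) <;> (try ring)

end cx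

end Pool.Agent.H15.Pf
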