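import Pool.Agent.H15.PfKap

/-!
# The functional at block diagonal matrices
-/

set_option autoImplicit false
set_option linter.unusedSectionVars false

namespace Pool.Agent.H15.Pf

open Finset ExteriorAlgebra

variable {B : Type} [Fintype B] [DecidableEq B]

noncomputable def u0 (Z : B × Bool → B × Bool → ℂ) : CA ((B × Bool) × Bool) :=
  ∑ p, ∑ q, Z p q • y0 p q
noncomputable def u1 (Z : B × Bool → B × Bool → ℂ) : CA ((B × Bool) × Bool) :=
  ∑ p, ∑ q, Z p q • y1 p q

/-- the Pfaffian (not normalised) -/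
noncomputable def pfu (Z : B × Bool → B × Bool → ℂ) : ℂ :=
  ∑ σ : Equiv.Perm (B × Bool), ((Equiv.Perm.sign σ : ℤ) : ℂ) *
    ∏ b : B, Z (σ (b, false)) (σ (b, true))

theorem card_lt (a : Bool) (s : Option B × Bool → B × Bool) :
    ¬ Function.Injective (fun i => (s i, a)) := by
  intro h
  have h1 : Function.Injective s := fun x y hxy => h (by simp [hxy])
  have := Fintype.card_le_of_injective s h1
  rw [Fintype.card_prod, Fintype.card_option, Fintype.card_prod, Fintype.card_bool] at this
  omega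

theorem pow_zero_aux (a : Bool) (Z : B × Bool → B × Bool → ℂ) :
    (∑ p, ∑ q, Z p q • yy (p, a) (q, a) : CA ((B × Bool) × Bool)) ^ (Fintype.card B + 1) = 0 := by
  have h1 : (∑ p, ∑ q, Z p q • yy (p, a) (q, a) : CA ((B × Bool) × Bool)) ^ (Fintype.card B + 1) =
      ∏ _c : Option B, ∑ x : (B × Bool) × (B × Bool), Z x.1 x.2 • yy (x.1, a) (x.2, a) := by
    rw [Finset.prod_const, Finset.card_univ, Fintype.card_option]
    simp only [Fintype.sum_prod_type]
  rw [h1, Fintype.prod_sum]
  refine Finset.sum_eq_zero fun g _ => ?_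
  rw [Finset.prod_smul]
  have h2 : ∏ c : Option B, (yy ((g c).1, a) ((g c).2, a) : CA ((B × Bool) × Bool)) =
      PP (fun i : Option B × Bool => ((if i.2 then (g i.1).2 else (g i.1).1), a)) := by
    unfold PP
    refine Finset.prod_congr rfl fun c _ => ?_
    simp
  rw [h2, PP_zero, smul_zero]
  exact card_lt a fun i => if i.2 then (g i.1).2 else (g i.1).1

theorem u0_pow (Z : B × Bool → B × Bool → ℂ) {k : ℕ} (hk : Fintype.card B < k) : u0 Z ^ k = 0 := by
  obtain ⟨j, rfl⟩ := Nat.exists_eq_add_of_lt hk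
  rw [show Fintype.card B + j + 1 = (Fintype.card B + 1) + j by ring, pow_add]
  unfold u0 y0
  rw [pow_zero_aux, zero_mul]

theorem u1_pow (Z : B × Bool → B × Bool → ℂ) {k : ℕ} (hk : Fintype.card B < k) : u1 Z ^ k = 0 := by
  obtain ⟨j, rfl⟩ := Nat.exists_eq_add_of_lt hk
  rw [show Fintype.card B + j + 1 = (Fintype.card B + 1) + j by ring, pow_add]
  unfold u1 y1
  rw [pow_zero_aux, zero_mul]

theorem u0_u1 (Z W : B × Bool → B × Bool → ℂ) :
    u0 Z * u1 W = quy (fun p q r s => Z p q * W r s) := by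
  unfold u0 u1 quy
  simp only [Finset.sum_mul]
  refine Finset.sum_congr rfl fun p _ => Finset.sum_congr rfl fun q _ => ?_
  simp only [Finset.mul_sum, smul_mul_smul_comm]

theorem dsum_mul (Z W : B × Bool → B × Bool → ℂ) :
    dsum (fun p q r s => Z p q * W r s) = pfu Z * pfu W := by
  unfold dsum pfu
  rw [Finset.sum_mul]
  refine Finset.sum_congr rfl fun σ _ => ?_
  rw [Finset.mul_sum]
  refine Finset.sum_congr rfl fun τ _ => ?_
  rw [Finset.prod_mul_distrib]
  ring

theorem tl_diag (Z W : B × Bool → B × Bool → ℂ) :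
    tl ((u0 Z + u1 W) ^ (2 * Fintype.card B)) =
      ((2 * Fintype.card B).choose (Fintype.card B) : ℂ) * (kap B * (pfu Z * pfu W)) := by
  rw [add_pow, map_sum, Finset.sum_eq_single (Fintype.card B)]
  · rw [show 2 * Fintype.card B - Fintype.card B = Fintype.card B by omega, ← mul_pow, u0_u1,
      ← nsmul_eq_mul', map_nsmul, tl_quy, dsum_mul, nsmul_eq_mul]
  · intro k hk hne
    rcases Nat.lt_or_gt_of_ne hne with h | h
    · rw [u1_pow W (show Fintype.card B < 2 * Fintype.card B - k by omega), mul_zero, zero_mul,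
        map_zero]
    · rw [u0_pow Z h, zero_mul, zero_mul, map_zero]
  · intro h
    exact absurd (Finset.mem_range.2 (by omega)) h

theorem pfu_neg (Z : B × Bool → B × Bool → ℂ) :
    pfu (fun p q => -Z p q) = (-1) ^ Fintype.card B * pfu Z := by
  unfold pfu
  rw [Finset.mul_sum]
  refine Finset.sum_congr rfl fun σ _ => ?_
  rw [Finset.prod_neg, Finset.card_univ]
  ring

theorem pfu_conj (Z : B × Bool → B × Bool → ℂ) :
    pfu (fun p q => (starRingEnd ℂ) (Z p q)) = (starRingEnd ℂ) (pfu Z) := by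
  unfold pfu
  rw [map_sum]
  refine Finset.sum_congr rfl fun σ _ => ?_
  rw [map_mul, map_prod, map_intCast]

theorem tl_diag' (Z : B × Bool → B × Bool → ℂ) :
    tl ((u0 Z + u1 (fun p q => -(starRingEnd ℂ) (Z p q))) ^ (2 * Fintype.card B)) =
      ((2 * Fintype.card B).choose (Fintype.card B) : ℂ) * kap B * (-1) ^ Fintype.card B *
        (Complex.normSq (pfu Z) : ℂ) := by
  rw [tl_diag, pfu_neg (fun p q => (starRingEnd ℂ) (Z p q)), pfu_conj, ← Complex.mul_conj]
  ring

end Pool.Agent.H15.Pf
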