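import Pool.Agent.H15.PfBip

/-!
# The Pfaffian and the determinant
-/

set_option autoImplicit false
set_option linter.unusedSectionVars false

namespace Pool.Agent.H15.Pf

open Finset ExteriorAlgebra

theorem sq_zero_add_pow {A : Type} [CommRing A] (a S : A) (ha : a * a = 0) (n : ℕ) :
    (a + S) ^ (n + 1) = S ^ (n + 1) + ((n : A) + 1) * (a * S ^ n) := by
  induction n with
  | zero => simp; ring
  | succ n ih =>
    rw [pow_succ, ih]
    push_cast
    linear_combination (((n : A) + 1) * S ^ n) * ha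

theorem sq_pow {A : Type} [CommRing A] {ι : Type} [DecidableEq ι] (y : ι → A)
    (hy : ∀ i, y i * y i = 0) (s : Finset ι) :
    (∑ i ∈ s, y i) ^ s.card = (s.card.factorial : A) * ∏ i ∈ s, y i ∧
      (∑ i ∈ s, y i) ^ (s.card + 1) = 0 := by
  induction s using Finset.induction_on with
  | empty => simp
  | insert i s hi ih =>
    obtain ⟨h1, h2⟩ := ih
    rw [Finset.sum_insert hi, Finset.prod_insert hi, Finset.card_insert_of_notMem hi]
    constructor
    · rw [sq_zero_add_pow _ _ (hy i), h2, h1, Nat.factorial_succ]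
      push_cast
      ring
    · rw [sq_zero_add_pow _ _ (hy i), h2, pow_succ _ (s.card + 1), h2]
      ring

variable {B : Type} [Fintype B] [DecidableEq B]

/-- the standard form -/
def J0 (u v : (B × Bool) × Bool) : ℂ :=
  if u.1 = v.1 then (if u.2 = v.2 then 0 else if u.2 then -1 else 1) else 0

theorem yy_self (u v : (B × Bool) × Bool) : yy u v * yy u v = 0 := by
  have h1 := yy_exch u v u v
  have h2 : (yy u u : CA ((B × Bool) × Bool)) = 0 := by
    have h3 := yy_skew u u
    have h4 : (2 : ℂ) • (yy u u : CA ((B × Bool) × Bool)) = 0 := by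
      rw [two_smul]
      nth_rw 1 [h3]
      exact neg_add_cancel _
    exact (smul_eq_zero.1 h4).resolve_left two_ne_zero
  rw [h1, h2, zero_mul, neg_zero]

theorem qq_J0 : qq (J0 : (B × Bool) × Bool → (B × Bool) × Bool → ℂ) =
    (2 : ℂ) • ∑ p : B × Bool, yy (p, false) (p, true) := by
  rw [qq_bool]
  unfold J0
  simp only [if_true, ite_self, zero_smul, Finset.sum_const_zero, zero_add]
  have h1 : (∑ p : B × Bool, ∑ q : B × Bool, (if p = q then (if false = true then (0 : ℂ) else
      if false = true then -1 else 1) else 0) • (yy (p, false) (q, true) : CA ((B × Bool) × Bool))) =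
      ∑ p, yy (p, false) (p, true) := by
    refine Finset.sum_congr rfl fun p _ => ?_
    rw [Finset.sum_eq_single p]
    · simp
    · intro q _ hq
      simp [hq.symm]
    · intro h; exact absurd (mem_univ _) h
  have h2 : (∑ p : B × Bool, ∑ q : B × Bool, (if p = q then (if true = false then (0 : ℂ) else
      -1) else 0) • (yy (p, true) (q, false) : CA ((B × Bool) × Bool))) =
      ∑ p, yy (p, false) (p, true) := by
    refine Finset.sum_congr rfl fun p _ => ?_
    rw [Finset.sum_eq_single p]
    · rw [yy_skew (p, true) (p, false)]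
      simp
    · intro q _ hq
      simp [hq.symm]
    · intro h; exact absurd (mem_univ _) h
  rw [two_smul]
  simp only [Bool.false_eq_true, if_false, Bool.true_eq_false] at h1 h2 ⊢
  rw [h1, h2]

theorem prod_yy : ∏ p : B × Bool, (yy (p, false) (p, true) : CA ((B × Bool) × Bool)) =
    (-1) ^ Fintype.card B * (P0 (id : B × Bool → B × Bool) * P1 id) := by
  unfold P0 P1 y0 y1
  rw [Fintype.prod_prod_type, ← Finset.prod_mul_distrib, ← Finset.card_univ, ← Finset.prod_const,
    ← Finset.prod_mul_distrib]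
  refine Finset.prod_congr rfl fun b _ => ?_
  rw [Fintype.prod_bool]
  simp only [id]
  rw [mul_comm, yy_exch]
  ring

theorem tl_J0 : tl (qq (J0 : (B × Bool) × Bool → (B × Bool) × Bool → ℂ) ^ (2 * Fintype.card B)) =
    2 ^ (2 * Fintype.card B) * ((2 * Fintype.card B).factorial : ℂ) *
      ((-1) ^ Fintype.card B * kap B) := by
  have h1 := (sq_pow (fun p : B × Bool => (yy (p, false) (p, true) : CA ((B × Bool) × Bool)))
    (fun p => yy_self _ _) Finset.univ).1
  have h2 : (Finset.univ : Finset (B × Bool)).card = 2 * Fintype.card B := by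
    rw [Finset.card_univ, Fintype.card_prod, Fintype.card_bool, mul_comm]
  rw [h2] at h1
  rw [qq_J0, smul_pow, h1, prod_yy, map_smul, smul_eq_mul, ← nsmul_eq_mul, map_nsmul,
    nsmul_eq_mul]
  have h3 : ((-1 : CA ((B × Bool) × Bool)) ^ Fintype.card B * (P0 (id : B × Bool → B × Bool) * P1 id)) =
      ((-1 : ℂ) ^ Fintype.card B) • (P0 (id : B × Bool → B × Bool) * P1 id) := by
    rw [Algebra.smul_def, map_pow, map_neg, map_one]
  rw [h3, map_smul, smul_eq_mul]
  unfold kap
  ring

theorem tl_J0_ne :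
    tl (qq (J0 : (B × Bool) × Bool → (B × Bool) × Bool → ℂ) ^ (2 * Fintype.card B)) ≠ 0 := by
  rw [tl_J0]
  have := kap_ne (B := B)
  have h2 : ((2 * Fintype.card B).factorial : ℂ) ≠ 0 := by exact_mod_cast Nat.factorial_ne_zero _
  have h3 : ((-1 : ℂ)) ^ Fintype.card B ≠ 0 := pow_ne_zero _ (by norm_num)
  have h4 : (2 : ℂ) ^ (2 * Fintype.card B) ≠ 0 := pow_ne_zero _ (by norm_num)
  exact mul_ne_zero (mul_ne_zero h4 h2) (mul_ne_zero h3 this)

/-- splitting by the type -/
def spt (X : Type) : X × Bool ≃ X ⊕ X where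
  toFun u := if u.2 then Sum.inr u.1 else Sum.inl u.1
  invFun := Sum.elim (fun w => (w, false)) fun w => (w, true)
  left_inv := by
    rintro ⟨j, c⟩
    cases c <;> rfl
  right_inv := by
    rintro (w | w) <;> rfl

/-- **The determinant.** -/
theorem tl_det (A : B × Bool → B × Bool → ℂ) (hA : ∀ p q, A p q = -A q p) (n : ℕ) :
    tl (qq (fun u v : (B × Bool) × Bool => A u.1 v.1 * Sk 0 u.2 v.2) ^ n) =
      (Matrix.of A).det * tl (qq (J0 : (B × Bool) × Bool → (B × Bool) × Bool → ℂ) ^ n) := by
  set G : Matrix ((B × Bool) × Bool) ((B × Bool) × Bool) ℂ :=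
    (Matrix.fromBlocks 1 0 0 (Matrix.of A)).submatrix (spt (B × Bool)) (spt (B × Bool)) with hG
  have hd : G.det = (Matrix.of A).det := by
    rw [hG, Matrix.det_submatrix_equiv_self, Matrix.det_fromBlocks_zero₂₁, Matrix.det_one, one_mul]
  rw [← hd, ← tl_cong]
  congr 3
  have hJ : Matrix.of (J0 : (B × Bool) × Bool → (B × Bool) × Bool → ℂ) =
      (Matrix.fromBlocks 0 1 (-1) 0).submatrix (spt (B × Bool)) (spt (B × Bool)) := by
    ext u v
    obtain ⟨p, a⟩ := u
    obtain ⟨q, b⟩ := v
    cases a <;> cases b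
    · change J0 (p, false) (q, false) = 0
      unfold J0
      simp
    · change J0 (p, false) (q, true) = (1 : Matrix _ _ ℂ) p q
      unfold J0
      simp [Matrix.one_apply]
    · change J0 (p, true) (q, false) = -((1 : Matrix _ _ ℂ) p q)
      unfold J0
      rw [Matrix.one_apply]
      by_cases h : p = q <;> simp [h]
    · change J0 (p, true) (q, true) = 0
      unfold J0
      simp
  have h5 := cong_mat G (J0 : (B × Bool) × Bool → (B × Bool) × Bool → ℂ)
  rw [hJ, hG, Matrix.transpose_submatrix, Matrix.submatrix_mul_equiv, Matrix.submatrix_mul_equiv,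
    Matrix.fromBlocks_transpose, Matrix.fromBlocks_multiply, Matrix.fromBlocks_multiply] at h5
  simp only [Matrix.transpose_one, Matrix.transpose_zero, Matrix.mul_zero, Matrix.zero_mul,
    add_zero, zero_add, Matrix.one_mul, Matrix.mul_one, Matrix.mul_neg, neg_zero] at h5
  funext u v
  have h6 := congrFun (congrFun h5 u) v
  rw [Matrix.of_apply] at h6
  rw [hG, h6]
  obtain ⟨p, a⟩ := u
  obtain ⟨q, b⟩ := v
  cases a <;> cases b
  · change A p q * Sk 0 false false = 0
    rw [Sk_ff]
    simp
  · change A p q * Sk 0 false true = A p q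
    rw [Sk_ne]
    simp
  · change A p q * Sk 0 true false = -(A q p)
    rw [Sk_ne', hA p q]
    simp
  · change A p q * Sk 0 true true = 0
    rw [Sk_tt]
    simp

/-- **The Pfaffian.** -/
theorem tl_pf : ∃ c : ℂ, ∀ (A : B × Bool → B × Bool → ℂ), 
    tl (qq (fun u v : (B × Bool) × Bool => A u.1 v.1 * Sk 0 u.2 v.2) ^ (2 * Fintype.card B)) =
      c * pfu A ^ 2 := by
  set z0 : Fin 3 → ℝ := ![1, 0, 0] with hz0
  obtain ⟨h, hd, ⟨h1, h2, h3⟩, -⟩ := exists_rot z0 z0
  set ζ := rt h z0 false false with hζ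
  refine ⟨((2 * Fintype.card B).choose (Fintype.card B) : ℂ) * (kap B * (ζ ^ Fintype.card B *
    (-(starRingEnd ℂ) ζ) ^ Fintype.card B)), fun A => ?_⟩
  have e0 : ∀ a b, Sk 0 a b = Sx z0 a b := by
    intro a b
    unfold Sx
    rw [Fin.sum_univ_three]
    simp [hz0]
  simp only [e0]
  have e1 := tl_cong (bh h) (fun u v : (B × Bool) × Bool => A u.1 v.1 * Sx z0 u.2 v.2)
    (2 * Fintype.card B)
  rw [bh_det hd, one_mul] at e1
  rw [← e1]
  have e2 : qq (cong (bh h) fun u v : (B × Bool) × Bool => A u.1 v.1 * Sx z0 u.2 v.2) =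
      u0 (fun p q => ζ * A p q) + u1 (fun p q => -(starRingEnd ℂ) ζ * A p q) := by
    have e3 : ∀ p a q b, cong (bh h) (fun u v : (B × Bool) × Bool => A u.1 v.1 * Sx z0 u.2 v.2)
        (p, a) (q, b) = A p q * rt h z0 a b := by
      intro p a q b
      rw [cong_bh]
      unfold rt
      rw [Finset.mul_sum]
      refine Finset.sum_congr rfl fun a' _ => ?_
      rw [Finset.mul_sum]
      refine Finset.sum_congr rfl fun b' _ => ?_
      ring
    rw [qq_bool]
    simp only [e3, h1, h2, h3, mul_zero, zero_smul, Finset.sum_const_zero, add_zero]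
    unfold u0 u1
    simp only [← hζ, mul_comm]
  rw [e2, tl_diag]
  have e4 : ∀ c : ℂ, pfu (fun p q => c * A p q) = c ^ Fintype.card B * pfu A := by
    intro c
    unfold pfu
    rw [Finset.mul_sum]
    refine Finset.sum_congr rfl fun σ _ => ?_
    rw [Finset.prod_mul_distrib, Finset.prod_const, Finset.card_univ]
    ring
  rw [e4, e4]
  ring

theorem pf_det : ∃ c : ℂ, c ≠ 0 ∧ ∀ A : B × Bool → B × Bool → ℂ, (∀ p q, A p q = -A q p) →
    (Matrix.of A).det = c * pfu A ^ 2 := by
  obtain ⟨c, hc⟩ := tl_pf (B := B)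
  have h0 := tl_J0_ne (B := B)
  set t := tl (qq (J0 : (B × Bool) × Bool → (B × Bool) × Bool → ℂ) ^ (2 * Fintype.card B)) with ht
  have h1 : ∀ A : B × Bool → B × Bool → ℂ, (∀ p q, A p q = -A q p) →
      (Matrix.of A).det = (c / t) * pfu A ^ 2 := by
    intro A hA
    have h2 := tl_det A hA (2 * Fintype.card B)
    rw [hc, ← ht] at h2
    field_simp
    rw [h2]
  refine ⟨c / t, ?_, h1⟩
  intro hz
  set A0 : B × Bool → B × Bool → ℂ := fun p q =>
    if p.1 = q.1 then (if p.2 = q.2 then 0 else if p.2 then -1 else 1) else 0 with hA0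
  have hsk : ∀ p q, A0 p q = -A0 q p := by
    rintro ⟨p, a⟩ ⟨q, b⟩
    simp only [hA0]
    by_cases hpq : p = q
    · subst hpq
      cases a <;> cases b <;> simp
    · rw [if_neg hpq, if_neg (Ne.symm hpq), neg_zero]
  have h3 := h1 A0 hsk
  rw [hz, zero_mul] at h3
  set D : Matrix Bool Bool ℂ := fun a b => if a = b then 0 else if a then -1 else 1 with hD
  have h4 : Matrix.of A0 = bh D := by
    ext u v
    rw [bh_apply]
    rfl
  rw [h4, bh_det', det_bool] at h3
  have d1 : D false false = 0 := rfl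
  have d2 : D false true = 1 := rfl
  have d3 : D true false = -1 := rfl
  rw [d1, d2, d3] at h3
  norm_num at h3

end Pool.Agent.H15.Pf
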