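import Pool.Agent.H15.PfTop
import Pool.Agent.H15.GBRing

/-!
# Evaluation of the top functional
-/

set_option autoImplicit false
set_option linter.unusedSectionVars false

namespace Pool.Agent.H15.Pf

open Finset ExteriorAlgebra

variable {B : Type} [Fintype B] [DecidableEq B]

/-- generators of the two types -/
noncomputable def y0 (p q : B × Bool) : CA ((B × Bool) × Bool) := yy (p, false) (q, false)
noncomputable def y1 (p q : B × Bool) : CA ((B × Bool) × Bool) := yy (p, true) (q, true)

/-- products -/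
noncomputable def P0 (s : B × Bool → B × Bool) : CA ((B × Bool) × Bool) :=
  ∏ b, y0 (s (b, false)) (s (b, true))
noncomputable def P1 (s : B × Bool → B × Bool) : CA ((B × Bool) × Bool) :=
  ∏ b, y1 (s (b, false)) (s (b, true))

theorem P0_eq (s : B × Bool → B × Bool) : P0 s = PP (fun i => (s i, false)) := rfl
theorem P1_eq (s : B × Bool → B × Bool) : P1 s = PP (fun i => (s i, true)) := rfl

theorem P0_perm (σ : Equiv.Perm (B × Bool)) : P0 σ = ((Equiv.Perm.sign σ : ℤ) : ℂ) • P0 id := by
  rw [P0_eq, P0_eq, ← PP_perm σ]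
  rfl

theorem P1_perm (σ : Equiv.Perm (B × Bool)) : P1 σ = ((Equiv.Perm.sign σ : ℤ) : ℂ) • P1 id := by
  rw [P1_eq, P1_eq, ← PP_perm σ]
  rfl

theorem P0_zero {s : B × Bool → B × Bool} (hs : ¬ Function.Bijective s) : P0 s = 0 := by
  rw [P0_eq]
  apply PP_zero
  intro h
  apply hs
  rw [← Finite.injective_iff_bijective]
  intro a b hab
  exact h (by simp [hab])

theorem P1_zero {s : B × Bool → B × Bool} (hs : ¬ Function.Bijective s) : P1 s = 0 := by
  rw [P1_eq]
  apply PP_zero
  intro h
  apply hs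
  rw [← Finite.injective_iff_bijective]
  intro a b hab
  exact h (by simp [hab])

/-- the normalisation -/
noncomputable def kap (B : Type) [Fintype B] [DecidableEq B] : ℂ :=
  tl (P0 (id : B × Bool → B × Bool) * P1 id)

/-- functions and permutations -/
theorem sum_fun (f : (B × Bool → B × Bool) → ℂ) (hf : ∀ s, ¬ Function.Bijective s → f s = 0) :
    ∑ s, f s = ∑ σ : Equiv.Perm (B × Bool), f σ := by
  classical
  symm
  refine Finset.sum_of_injOn (fun σ : Equiv.Perm (B × Bool) => (σ : B × Bool → B × Bool)) ?_ ?_ ?_ ?_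
  · intro σ _ σ' _ h
    exact Equiv.coe_fn_injective h
  · intro σ _; exact Finset.mem_coe.2 (Finset.mem_univ _)
  · intro s _ hs
    apply hf
    intro hb
    apply hs
    exact ⟨Equiv.ofBijective s hb, Finset.mem_coe.2 (Finset.mem_univ _), rfl⟩
  · intro σ _
    rfl

/-- the alternating double sum -/
noncomputable def dsum (C : B × Bool → B × Bool → B × Bool → B × Bool → ℂ) : ℂ :=
  ∑ σ : Equiv.Perm (B × Bool), ∑ τ : Equiv.Perm (B × Bool),
      ((Equiv.Perm.sign σ : ℤ) : ℂ) * ((Equiv.Perm.sign τ : ℤ) : ℂ) *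
        ∏ b : B, C (σ (b, false)) (σ (b, true)) (τ (b, false)) (τ (b, true))

/-- the element of a tensor -/
noncomputable def quy (C : B × Bool → B × Bool → B × Bool → B × Bool → ℂ) :
    CA ((B × Bool) × Bool) :=
  ∑ p, ∑ q, ∑ r, ∑ s, C p q r s • (y0 p q * y1 r s)

theorem tl_quy (C : B × Bool → B × Bool → B × Bool → B × Bool → ℂ) :
    tl (quy C ^ Fintype.card B) = kap B * dsum C := by
  have h1 : quy C ^ Fintype.card B = ∏ _b : B,
      ∑ a : (B × Bool) × (B × Bool) × (B × Bool) × (B × Bool), C a.1 a.2.1 a.2.2.1 a.2.2.2 •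
        (y0 a.1 a.2.1 * y1 a.2.2.1 a.2.2.2) := by
    rw [Finset.prod_const, Finset.card_univ]
    unfold quy
    simp only [Fintype.sum_prod_type]
  have h2 : quy C ^ Fintype.card B = ∑ s : B × Bool → B × Bool, ∑ t : B × Bool → B × Bool,
      (∏ b : B, C (s (b, false)) (s (b, true)) (t (b, false)) (t (b, true))) • (P0 s * P1 t) := by
    rw [h1, Fintype.prod_sum, ← Fintype.sum_prod_type', ← Equiv.sum_comp Pool.Agent.H15.GB.grp]
    refine Finset.sum_congr rfl fun F _ => ?_
    unfold P0 P1
    rw [← Finset.prod_mul_distrib, ← Finset.prod_smul]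
    refine Finset.prod_congr rfl fun b _ => ?_
    simp [Pool.Agent.H15.GB.grp]
  rw [h2]
  simp only [map_sum, map_smul, smul_eq_mul]
  rw [sum_fun]
  · unfold dsum
    rw [Finset.mul_sum]
    refine Finset.sum_congr rfl fun σ _ => ?_
    rw [sum_fun, Finset.mul_sum]
    · refine Finset.sum_congr rfl fun τ _ => ?_
      rw [P0_perm, P1_perm, smul_mul_smul_comm, map_smul, smul_eq_mul]
      unfold kap
      ring
    · intro t ht
      rw [P1_zero ht, mul_zero, map_zero, mul_zero]
  · intro s hs
    refine Finset.sum_eq_zero fun t _ => ?_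
    rw [P0_zero hs, zero_mul, map_zero, mul_zero]

end Pool.Agent.H15.Pf
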