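import Pool.Agent.H15.PfSharp

/-!
# A tensor `- R_ω` whose curvature operator takes a positive value
-/

set_option autoImplicit false
set_option linter.unusedSectionVars false

namespace Pool.Agent.H15.Pf

open Finset Pool.Agent.W666.GB Pool.Agent.Y489.SM Pool.Agent.Q61.HP Pool.Agent.H15.GB

variable {V : Type} [NormedAddCommGroup V] [InnerProductSpace ℝ V] {m : ℕ}

theorem example_op (e : OrthonormalBasis (Fin m × Bool) ℝ V) (hm : 2 ≤ m) :
    ∃ ω : V → V → ℝ, TwoForm ω ∧ 0 < ∑ i, ∑ j,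
      -(ω (e (i, false)) (e (j, false)) * ω (e (i, true)) (e (j, true)) -
        ω (e (i, false)) (e (j, true)) * ω (e (i, true)) (e (j, false)) +
        2 * (ω (e (i, false)) (e (i, true)) * ω (e (j, false)) (e (j, true)))) := by
  set i0 : Fin m := ⟨0, by omega⟩ with hi0
  set i1 : Fin m := ⟨1, by omega⟩ with hi1
  have hne : i0 ≠ i1 := by
    intro h
    have := congrArg Fin.val h
    simp [hi0, hi1] at this
  set a : Fin m → Fin m → ℝ := fun i j =>
    (if i = i0 ∧ j = i1 then 1 else 0) - (if i = i1 ∧ j = i0 then 1 else 0) with ha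
  have hask : ∀ i j, a i j = -a j i := by
    intro i j
    simp only [ha, and_comm]
    ring
  obtain ⟨ω, hω, hw⟩ := exists_form e (fun p q =>
    (if p.2 = q.2 then (if p.2 then -1 else 1) else 0) * a p.1 q.1) (by
    rintro ⟨i, b⟩ ⟨j, c⟩
    simp only
    rw [hask i j]
    cases b <;> cases c <;> simp)
  refine ⟨ω, hω, ?_⟩
  have h1 : ∀ i j : Fin m, -(ω (e (i, false)) (e (j, false)) * ω (e (i, true)) (e (j, true)) -
        ω (e (i, false)) (e (j, true)) * ω (e (i, true)) (e (j, false)) +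
        2 * (ω (e (i, false)) (e (i, true)) * ω (e (j, false)) (e (j, true)))) = a i j ^ 2 := by
    intro i j
    rw [hw, hw, hw, hw, hw, hw]
    simp
    ring
  rw [Finset.sum_congr rfl fun i _ => Finset.sum_congr rfl fun j _ => h1 i j]
  have h2 : a i0 i1 ^ 2 = 1 := by
    simp only [ha]
    simp [hne, hne.symm]
  have h3 : a i0 i1 ^ 2 ≤ ∑ i, ∑ j, a i j ^ 2 := by
    calc a i0 i1 ^ 2 ≤ ∑ j, a i0 j ^ 2 :=
          Finset.single_le_sum (f := fun j => a i0 j ^ 2) (fun j _ => sq_nonneg _) (mem_univ i1)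
      _ ≤ ∑ i, ∑ j, a i j ^ 2 :=
          Finset.single_le_sum (f := fun i => ∑ j, a i j ^ 2)
            (fun i _ => Finset.sum_nonneg fun j _ => sq_nonneg _) (mem_univ i0)
  linarith

end Pool.Agent.H15.Pf
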