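import Pool.Agent.H15.PfBip
import Pool.Agent.H15.GBHw

/-!
# The Gauss–Bonnet–Chern integrand of a family of two-forms
-/

set_option autoImplicit false
set_option linter.unusedSectionVars false

namespace Pool.Agent.H15.Pf

open Finset Pool.Agent.W666.GB Pool.Agent.Y489.SM Pool.Agent.Q61.HP Pool.Agent.H15.GB

section real

variable {B : Type} [Fintype B] [DecidableEq B]

/-- the real alternating double sum -/
noncomputable def rsum (C : B × Bool → B × Bool → B × Bool → B × Bool → ℝ) : ℝ :=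
  ∑ σ : Equiv.Perm (B × Bool), ∑ τ : Equiv.Perm (B × Bool),
      ((Equiv.Perm.sign σ : ℤ) : ℝ) * ((Equiv.Perm.sign τ : ℤ) : ℝ) *
        ∏ b : B, C (σ (b, false)) (σ (b, true)) (τ (b, false)) (τ (b, true))

theorem rsum_cast (C : B × Bool → B × Bool → B × Bool → B × Bool → ℝ) :
    ((rsum C : ℝ) : ℂ) = dsum fun p q r s => (C p q r s : ℂ) := by
  unfold rsum dsum
  push_cast
  rfl

theorem rsum_link (C : B × Bool → B × Bool → B × Bool → B × Bool → ℝ) :
    rsum C = tp (quad C ^ Fintype.card B) := link C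

/-- the tensor of a two-form -/
def rC (A : B × Bool → B × Bool → ℝ) (p q r s : B × Bool) : ℝ :=
  A p r * A q s - A p s * A q r + 2 * (A p q * A r s)

theorem rsum_rC {N : Type} [Fintype N] (A : N → B × Bool → B × Bool → ℝ) :
    rsum (fun p q r s => ∑ ν, rC (A ν) p q r s) =
      2 ^ Fintype.card B * rsum (fun p q r s => ∑ ν, (A ν p r * A ν q s + A ν p q * A ν r s)) := by
  rw [rsum_link, rsum_link]
  have h1 : quad (fun p q r s => ∑ ν, rC (A ν) p q r s) =
      (2 : ℝ) • quad (fun p q r s => ∑ ν, (A ν p r * A ν q s + A ν p q * A ν r s)) := by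
    rw [quad_sum, quad_sum, Finset.smul_sum]
    refine Finset.sum_congr rfl fun ν _ => ?_
    have e1 : rC (A ν) = fun p q r s => (A ν p r * A ν q s + (-1) * (A ν p s * A ν q r)) +
        2 * (A ν p q * A ν r s) := by
      funext p q r s
      unfold rC
      ring
    rw [e1, quad_add, quad_add, quad_add, quad_smul, quad_smul, quad_prod, quad_prod']
    module
  rw [h1, smul_pow, map_smul, smul_eq_mul]

end real

variable {V : Type} [NormedAddCommGroup V] [InnerProductSpace ℝ V] {m : ℕ}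

/-- `- ∑ R_ω` -/
noncomputable def tfT {N : Type} [Fintype N] (ω : N → V → V → ℝ) (x y z w : V) : ℝ :=
  -∑ ν, (ω ν x z * ω ν y w - ω ν x w * ω ν y z + 2 * (ω ν x y * ω ν z w))

theorem tfT_curv {N : Type} [Fintype N] {ω : N → V → V → ℝ} (hω : ∀ ν, TwoForm (ω ν)) :
    AlgCurv (tfT ω) := by
  have h1 := curv_sum (Finset.univ : Finset N) _ fun ν _ =>
    curv_smul (-(1 / 2)) (curv_two (hω ν) (hω ν))
  have h2 : tfT ω = fun x y z w => ∑ ν ∈ (Finset.univ : Finset N), -(1 / 2) *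
      (ω ν x z * ω ν y w + ω ν x z * ω ν y w - ω ν x w * ω ν y z - ω ν x w * ω ν y z +
        2 * (ω ν x y * ω ν z w) + 2 * (ω ν x y * ω ν z w)) := by
    funext x y z w
    unfold tfT
    rw [← Finset.sum_neg_distrib]
    refine Finset.sum_congr rfl fun ν _ => ?_
    ring
  rw [h2]
  exact h1

theorem dd_tfT {N : Type} [Fintype N] (ω : N → V → V → ℝ) (f : Fin m × Bool → V) :
    (-1) ^ m * dd (tfT ω) f f =
      2 ^ m * rsum (fun p q r s => ∑ ν, (ω ν (f p) (f r) * ω ν (f q) (f s) +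
        ω ν (f p) (f q) * ω ν (f r) (f s))) := by
  have h1 := rsum_rC (fun ν p q => ω ν (f p) (f q))
  rw [Fintype.card_fin] at h1
  rw [← h1]
  unfold dd rsum
  rw [Finset.mul_sum]
  refine Finset.sum_congr rfl fun σ _ => ?_
  rw [Finset.mul_sum]
  refine Finset.sum_congr rfl fun τ _ => ?_
  have h2 : ∏ b : Fin m, tfT ω (f (σ (b, false))) (f (σ (b, true))) (f (τ (b, false)))
      (f (τ (b, true))) = (-1) ^ m * ∏ b : Fin m, ∑ ν, rC (fun p q => ω ν (f p) (f q))
        (σ (b, false)) (σ (b, true)) (τ (b, false)) (τ (b, true)) := by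
    unfold tfT
    rw [Finset.prod_neg, Finset.card_univ, Fintype.card_fin]
    rfl
  rw [h2]
  have h3 : ((-1 : ℝ) ^ m) * (-1) ^ m = 1 := by rw [← mul_pow]; norm_num
  linear_combination (((Equiv.Perm.sign σ : ℤ) : ℝ) * ((Equiv.Perm.sign τ : ℤ) : ℝ) *
    ∏ b : Fin m, ∑ ν, rC (fun p q => ω ν (f p) (f q))
        (σ (b, false)) (σ (b, true)) (τ (b, false)) (τ (b, true))) * h3

/-- the sign for a family of two-forms -/
theorem dd_sign {N : Type} [Fintype N] [DecidableEq N] [Nonempty N] {ω : N → V → V → ℝ}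
    (hω : ∀ ν, TwoForm (ω ν)) (f : Fin m × Bool → V)
    (hg : ∀ x : N → Fin 3 → ℝ, Good (Mx (fun ν p q => ω ν (f p) (f q)) x)) :
    0 ≤ (-1) ^ m * dd (tfT ω) f f ∧
      ((∃ x : N → Fin 3 → ℝ, tl (qq (Mx (fun ν p q => ω ν (f p) (f q)) x) ^ (2 * m)) ≠ 0) →
        0 < (-1) ^ m * dd (tfT ω) f f) := by
  obtain ⟨r, hr, h1, h2⟩ := sign (fun ν p q => ω ν (f p) (f q))
    (fun ν p q => (hω ν).skew _ _) hg
  have h3 : rsum (fun p q r s => ∑ ν, (ω ν (f p) (f r) * ω ν (f q) (f s) +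
        ω ν (f p) (f q) * ω ν (f r) (f s))) = r := by
    have h4 := rsum_cast (fun p q r s => ∑ ν, (ω ν (f p) (f r) * ω ν (f q) (f s) +
        ω ν (f p) (f q) * ω ν (f r) (f s)))
    have h5 : (dsum fun p q r s => ((∑ ν, (ω ν (f p) (f r) * ω ν (f q) (f s) +
        ω ν (f p) (f q) * ω ν (f r) (f s)) : ℝ) : ℂ)) = (r : ℂ) := by
      rw [← h1]
      congr 1
      funext p q r s
      push_cast
      rfl
    rw [h5] at h4
    exact_mod_cast h4
  rw [Fintype.card_fin] at h2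
  rw [dd_tfT, h3]
  exact ⟨by positivity, fun h => mul_pos (by positivity) (h2 h)⟩

theorem gbc_sign {N : Type} [Fintype N] [DecidableEq N] [Nonempty N] {ω : N → V → V → ℝ}
    (hω : ∀ ν, TwoForm (ω ν)) (e : OrthonormalBasis (Fin m × Bool) ℝ V)
    (f : Module.Basis (Fin m × Bool) ℝ V)
    (hg : ∀ x : N → Fin 3 → ℝ, Good (Mx (fun ν p q => ω ν (f p) (f q)) x)) :
    0 ≤ (-1) ^ m * gbc e (tfT ω) ∧
      ((∃ x : N → Fin 3 → ℝ, tl (qq (Mx (fun ν p q => ω ν (f p) (f q)) x) ^ (2 * m)) ≠ 0) →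
        0 < (-1) ^ m * gbc e (tfT ω)) := by
  obtain ⟨h1, h2⟩ := dd_sign hω f hg
  have h3 : (-1) ^ m * gbc e (tfT ω) = (1 / ((8 * Real.pi) ^ m * m.factorial) *
      f.det e ^ 2) * ((-1) ^ m * dd (tfT ω) f f) := by
    rw [gbc_dd, dd_det (tfT_curv hω) f e]
    ring
  have hπ := Real.pi_pos
  have h4 : 0 < 1 / ((8 * Real.pi) ^ m * m.factorial) * f.det e ^ 2 := by
    have h5 : f.det e ≠ 0 := by
      have := f.isUnit_det e.toBasis
      rw [OrthonormalBasis.coe_toBasis] at this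
      exact this.ne_zero
    positivity
  rw [h3]
  exact ⟨mul_nonneg h4.le h1, fun h => mul_pos h4 (h2 h)⟩

end Pool.Agent.H15.Pf
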