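import Pool.Agent.H15.PfMain

/-!
# The sign of the alternating double sum
-/

set_option autoImplicit false
set_option linter.unusedSectionVars false

namespace Pool.Agent.H15.Pf

open Finset ExteriorAlgebra MeasureTheory

section congr

variable {Y : Type} [Fintype Y] [DecidableEq Y]

theorem cong_mat (G : Matrix Y Y ℂ) (M : Y → Y → ℂ) :
    Matrix.of (cong G M) = G.transpose * Matrix.of M * G := by
  ext u v
  simp only [Matrix.of_apply, cong, Matrix.mul_apply, Matrix.transpose_apply, Finset.sum_mul]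
  rw [Finset.sum_comm]

/-- degenerate matrices -/
def Deg (M : Y → Y → ℂ) : Prop :=
  ∃ v : Y → ℂ, v ≠ 0 ∧ (∀ u, ∑ w, M u w * v w = 0) ∧ ∀ u, ∑ w, v w * M w u = 0

theorem deg_zero {M : Y → Y → ℂ} (hM : Deg M) (n : ℕ) : tl (qq M ^ n) = 0 := by
  obtain ⟨v, hv, h1, h2⟩ := hM
  obtain ⟨j, hj⟩ := Function.ne_iff.1 hv
  set w : Y → ℂ := Pi.single j 1 with hw
  set G : Matrix Y Y ℂ := 1 + Matrix.replicateCol Unit v * Matrix.replicateRow Unit w with hG
  have hdet : G.det = 1 + v j := by
    rw [hG, Matrix.det_one_add_replicateCol_mul_replicateRow, hw, single_dotProduct, one_mul]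
  have e1 : Matrix.of M * Matrix.replicateCol Unit v = 0 := by
    ext u i
    simp only [Matrix.mul_apply, Matrix.of_apply, Matrix.replicateCol_apply, Matrix.zero_apply]
    exact h1 u
  have e2 : (Matrix.replicateCol Unit v).transpose * Matrix.of M = 0 := by
    ext i u
    simp only [Matrix.mul_apply, Matrix.of_apply, Matrix.replicateCol_apply, Matrix.zero_apply,
      Matrix.transpose_apply]
    exact h2 u
  have e3 : Matrix.of (cong G M) = Matrix.of M := by
    rw [cong_mat, hG, Matrix.mul_add, Matrix.mul_one, ← Matrix.mul_assoc,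
      Matrix.mul_assoc _ _ (Matrix.replicateCol Unit v), e1, Matrix.mul_zero, Matrix.zero_mul,
      add_zero, Matrix.transpose_add, Matrix.transpose_one, Matrix.add_mul, Matrix.one_mul,
      Matrix.transpose_mul, Matrix.mul_assoc, e2, Matrix.mul_zero, add_zero]
  have e4 : cong G M = M := e3
  have h3 := tl_cong G M n
  rw [e4, hdet] at h3
  have h4 : v j * tl (qq M ^ n) = 0 := by linear_combination -h3
  exact (mul_eq_zero.1 h4).resolve_left hj

end congr

section good

variable {X : Type} [Fintype X] [DecidableEq X]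

/-- `Z` on the indices of type `false`, `-conj Z` on the indices of type `true` -/
noncomputable def dg (Z : X → X → ℂ) (u v : X × Bool) : ℂ :=
  if u.2 = v.2 then (if u.2 then -(starRingEnd ℂ) (Z u.1 v.1) else Z u.1 v.1) else 0

/-- matrices with the right sign -/
def Good (M : X × Bool → X × Bool → ℂ) : Prop :=
  (∃ (G : Matrix (X × Bool) (X × Bool) ℂ) (d : ℝ) (Z : X → X → ℂ), 0 < d ∧ G.det = (d : ℂ) ∧
    cong G M = dg Z) ∨ Deg M

end good

variable {B : Type} [Fintype B] [DecidableEq B]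

theorem qq_dg (Z : B × Bool → B × Bool → ℂ) :
    qq (dg Z) = u0 Z + u1 (fun p q => -(starRingEnd ℂ) (Z p q)) := by
  rw [qq_bool]
  unfold dg u0 u1
  simp

theorem good_val {M : (B × Bool) × Bool → (B × Bool) × Bool → ℂ} (hM : Good M) :
    ∃ r : ℝ, 0 ≤ r ∧ tl (qq M ^ (2 * Fintype.card B)) =
      kap B * (-1) ^ Fintype.card B * (r : ℂ) := by
  rcases hM with ⟨G, d, Z, hd, hG, hc⟩ | hM
  · have h1 := tl_cong G M (2 * Fintype.card B)
    rw [hc, qq_dg, tl_diag', hG] at h1
    refine ⟨d⁻¹ * (((2 * Fintype.card B).choose (Fintype.card B) : ℝ) * Complex.normSq (pfu Z)),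
      ?_, ?_⟩
    · have := Complex.normSq_nonneg (pfu Z)
      positivity
    · have hd' : (d : ℂ) ≠ 0 := by exact_mod_cast hd.ne'
      push_cast
      field_simp
      linear_combination -h1
  · exact ⟨0, le_rfl, by rw [deg_zero hM]; simp⟩

theorem expand {A : Type} [CommRing A] [Algebra ℂ A] (L : A →ₗ[ℂ] ℂ) {J : Type} [Fintype J]
    [DecidableEq J] (M : J → A) (n : ℕ) (x : J → ℝ) :
    L ((∑ j, ((x j : ℝ) : ℂ) • M j) ^ n) =
      ∑ g : Fin n → J, (((∏ i, x (g i) : ℝ)) : ℂ) * L (∏ i, M (g i)) := by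
  have : (∑ j, ((x j : ℝ) : ℂ) • M j) ^ n = ∏ _i : Fin n, ∑ j, ((x j : ℝ) : ℂ) • M j := by
    rw [Finset.prod_const, Finset.card_univ, Fintype.card_fin]
  rw [this, Fintype.prod_sum, map_sum]
  refine Finset.sum_congr rfl fun g _ => ?_
  rw [Finset.prod_smul, map_smul, smul_eq_mul, Complex.ofReal_prod]

section main

variable {N : Type} [Fintype N] [DecidableEq N]

theorem tl_Mx (ω : N → B × Bool → B × Bool → ℝ) (n : ℕ) (x : N → Fin 3 → ℝ) :
    tl (qq (Mx ω x) ^ n) = ∑ g : Fin n → N × Fin 3, (((∏ i, x (g i).1 (g i).2 : ℝ)) : ℂ) *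
      tl (∏ i, Mk (fun p q => (ω (g i).1 p q : ℂ)) (g i).2) := by
  rw [qq_Mx]
  exact expand tl (fun j : N × Fin 3 => Mk (fun p q => (ω j.1 p q : ℂ)) j.2) n
    (fun j => x j.1 j.2)

theorem tl_scale (ω : N → B × Bool → B × Bool → ℝ) (n : ℕ) (x : N → Fin 3 → ℝ) (t : ℝ) :
    tl (qq (Mx ω fun ν k => t * x ν k) ^ n) = (t : ℂ) ^ n * tl (qq (Mx ω x) ^ n) := by
  rw [tl_Mx, tl_Mx, Finset.mul_sum]
  refine Finset.sum_congr rfl fun g _ => ?_
  rw [Finset.prod_mul_distrib, Finset.prod_const, Finset.card_univ, Fintype.card_fin]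
  push_cast
  ring

theorem sign_aux [Nonempty N] (ω : N → B × Bool → B × Bool → ℝ)
    (hω : ∀ ν p q, ω ν p q = -ω ν q p) (f : (N → Fin 3 → ℝ) → ℝ)
    (hf : ∀ x, tl (qq (Mx ω x) ^ (2 * Fintype.card B)) =
      kap B * (-1) ^ Fintype.card B * (f x : ℂ)) (κ : ℝ) (hf0 : ∀ x, 0 ≤ κ * f x) :
    ∃ r : ℝ, 0 ≤ κ * r ∧
      dsum (fun p q r s => ∑ ν, cC (fun p q => (ω ν p q : ℂ)) p q r s) = (r : ℂ) ∧
      (κ ≠ 0 → (∃ x : N → Fin 3 → ℝ, tl (qq (Mx ω x) ^ (2 * Fintype.card B)) ≠ 0) →
        0 < κ * r) := by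
  have hk := kap_ne (B := B)
  set m := Fintype.card B with hm
  have hk1 : kap B * (-1) ^ m ≠ 0 := mul_ne_zero hk (pow_ne_zero _ (by norm_num))
  have hc := cst_pos (J := N × Fin 3) m
  have hc' : (cst (N × Fin 3) (2 * m) : ℂ) ≠ 0 := by exact_mod_cast hc.ne'
  have h1 := average ω hω m hm.symm
  simp only [hf] at h1
  rw [integral_const_mul, integral_complex_ofReal] at h1
  set R : ℝ := ∫ x in bal (N × Fin 3), f (fun ν k => x (ν, k)) with hR
  have h4 : ((-4 : ℂ)) ^ m = (-1) ^ m * 4 ^ m := by rw [← mul_pow]; norm_num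
  have h2 : dsum (fun p q r s => ∑ ν, cC (fun p q => (ω ν p q : ℂ)) p q r s) =
      ((R / (cst (N × Fin 3) (2 * m) * 4 ^ m) : ℝ) : ℂ) := by
    have h3 : kap B * (-1) ^ m * ((cst (N × Fin 3) (2 * m) : ℂ) * 4 ^ m *
        dsum (fun p q r s => ∑ ν, cC (fun p q => (ω ν p q : ℂ)) p q r s) - R) = 0 := by
      rw [h4] at h1
      linear_combination -h1
    have h5 := (mul_eq_zero.1 h3).resolve_left hk1
    push_cast
    have h6 : (4 : ℂ) ^ m ≠ 0 := pow_ne_zero _ (by norm_num)
    field_simp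
    linear_combination h5
  have hκR : κ * R = ∫ x in bal (N × Fin 3), κ * f (fun ν k => x (ν, k)) := by
    rw [hR, integral_const_mul]
  refine ⟨_, ?_, h2, ?_⟩
  · rw [mul_div_assoc', hκR]
    exact div_nonneg (integral_nonneg fun x => hf0 _) (by positivity)
  · rintro hκ ⟨x, hx⟩
    rw [mul_div_assoc', hκR]
    refine div_pos ?_ (by positivity)
    have hcont : Continuous fun x : EuclideanSpace ℝ (N × Fin 3) =>
        κ * f (fun ν k => x (ν, k)) := by
      have h7 : (fun x : EuclideanSpace ℝ (N × Fin 3) => f (fun ν k => x (ν, k))) =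
          fun x : EuclideanSpace ℝ (N × Fin 3) => (((kap B * (-1) ^ m)⁻¹ *
            tl (qq (Mx ω (fun ν k => x (ν, k))) ^ (2 * m)) : ℂ)).re := by
        funext x
        rw [hf, inv_mul_cancel_left₀ hk1, Complex.ofReal_re]
      have h8 : Continuous fun x : EuclideanSpace ℝ (N × Fin 3) => f (fun ν k => x (ν, k)) := by
        rw [h7]
        simp only [tl_Mx]
        fun_prop
      exact h8.const_mul κ
    rw [setIntegral_pos_iff_support_of_nonneg_ae]
    · set U : Set (EuclideanSpace ℝ (N × Fin 3)) :=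
        (Function.support fun x : EuclideanSpace ℝ (N × Fin 3) => κ * f (fun ν k => x (ν, k))) ∩
          Metric.ball 0 1 with hU
      have hUo : IsOpen U := (hcont.isOpen_support).inter Metric.isOpen_ball
      have hUn : U.Nonempty := by
        set z : EuclideanSpace ℝ (N × Fin 3) := WithLp.toLp 2 (fun j => x j.1 j.2) with hz
        set t : ℝ := 1 / (1 + ‖z‖) with ht
        have ht0 : 0 < t := by positivity
        refine ⟨t • z, ?_, ?_⟩
        · rw [Function.mem_support]
          have h8 : (fun ν k => (t • z) (ν, k)) = fun ν k => t * x ν k := by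
            funext ν k
            rfl
          rw [h8]
          intro h9
          have h9' := (mul_eq_zero.1 h9).resolve_left hκ
          have h10 := hf (fun ν k => t * x ν k)
          rw [h9', tl_scale] at h10
          simp only [Complex.ofReal_zero, mul_zero] at h10
          rcases mul_eq_zero.1 h10 with h | h
          · exact (pow_ne_zero _ (by exact_mod_cast ht0.ne')) h
          · exact hx h
        · rw [mem_ball_zero_iff, norm_smul, Real.norm_of_nonneg ht0.le, ht, one_div,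
            inv_mul_lt_iff₀ (by positivity)]
          linarith [norm_nonneg z]
      refine lt_of_lt_of_le (hUo.measure_pos volume hUn) (measure_mono ?_)
      exact Set.inter_subset_inter_right _ Metric.ball_subset_closedBall
    · exact Filter.Eventually.of_forall fun x => hf0 _
    · exact int_ball hcont

theorem sign [Nonempty N] (ω : N → B × Bool → B × Bool → ℝ)
    (hω : ∀ ν p q, ω ν p q = -ω ν q p) (hg : ∀ x : N → Fin 3 → ℝ, Good (Mx ω x)) :
    ∃ r : ℝ, 0 ≤ r ∧
      dsum (fun p q r s => ∑ ν, cC (fun p q => (ω ν p q : ℂ)) p q r s) = (r : ℂ) ∧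
      ((∃ x : N → Fin 3 → ℝ, tl (qq (Mx ω x) ^ (2 * Fintype.card B)) ≠ 0) → 0 < r) := by
  choose f hf0 hf using fun x => good_val (hg x)
  obtain ⟨r, h1, h2, h3⟩ := sign_aux ω hω f hf 1 (fun x => by rw [one_mul]; exact hf0 x)
  rw [one_mul] at h1 h3
  exact ⟨r, h1, h2, h3 one_ne_zero⟩

end main

end Pool.Agent.H15.Pf
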