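import Pool.Agent.H15.PfEval

/-!
# The normalisation is not zero
-/

set_option autoImplicit false
set_option linter.unusedSectionVars false

namespace Pool.Agent.H15.Pf

open Finset ExteriorAlgebra

variable {B : Type} [Fintype B] [DecidableEq B]

/-- enumeration of the basis by pairs -/
noncomputable def enu (B : Type) [Fintype B] [DecidableEq B] :
    Fin (Fintype.card (B × Bool) * 2) ≃ (B × Bool) × Bool :=
  finProdFinEquiv.symm.trans (((Fintype.equivFin (B × Bool)).symm.prodCongr finTwoEquiv).trans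
    ⟨fun x => ((x.1.1, x.2), x.1.2), fun x => ((x.1.1, x.2), x.1.2), fun _ => rfl, fun _ => rfl⟩)

theorem enu_apply (i : Fin (Fintype.card (B × Bool))) (j : Fin 2)
    (h : (i : ℕ) * 2 + j < Fintype.card (B × Bool) * 2) :
    enu B ⟨(i : ℕ) * 2 + j, h⟩ =
      ((((Fintype.equivFin (B × Bool)).symm i).1, finTwoEquiv j),
        ((Fintype.equivFin (B × Bool)).symm i).2) := by
  have h1 : (⟨(i : ℕ) * 2 + j, h⟩ : Fin (Fintype.card (B × Bool) * 2)) = finProdFinEquiv (i, j) := by
    apply Fin.ext
    simp [finProdFinEquiv]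
    ring
  rw [h1]
  unfold enu
  simp

theorem multi_enu : cv (P0 (id : B × Bool → B × Bool) * P1 id) =
    ιMulti ℂ (Fintype.card (B × Bool) * 2) (fun j => Pi.single (enu B j) (1 : ℂ)) := by
  rw [ιMulti_apply]
  have h1 : P0 (id : B × Bool → B × Bool) * P1 id =
      ∏ c : B × Bool, yy (((c.1, false) : B × Bool), c.2) ((c.1, true), c.2) := by
    unfold P0 P1 y0 y1
    rw [Fintype.prod_prod_type, ← Finset.prod_mul_distrib]
    refine Finset.prod_congr rfl fun b _ => ?_
    rw [Fintype.prod_bool]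
    simp only [id]
    exact mul_comm _ _
  rw [h1, ← Equiv.prod_comp (Fintype.equivFin (B × Bool)).symm, ← List.prod_ofFn, map_list_prod,
    List.map_ofFn, List.ofFn_mul, List.prod_flatten, List.map_ofFn]
  congr 1
  congr 1
  funext i
  simp only [Function.comp_apply, List.ofFn_succ, List.ofFn_zero, List.prod_cons, List.prod_nil,
    mul_one]
  rw [cv_yy]
  have e0 := enu_apply (B := B) i 0
  have e1 := enu_apply (B := B) i (Fin.succ 0)
  unfold th
  congr 2
  · rw [e0]; rfl
  · rw [e1]; rfl

theorem kap_ne : kap B ≠ 0 := by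
  unfold kap tl
  rw [LinearMap.comp_apply, AlgHom.toLinearMap_apply, multi_enu]
  unfold tpE
  rw [liftAlternating_apply_ιMulti]
  have hc : Fintype.card ((B × Bool) × Bool) = Fintype.card (B × Bool) * 2 := by
    rw [Fintype.card_prod, Fintype.card_bool]
  unfold topA
  rw [dif_pos hc, AlternatingMap.domDomCongr_apply]
  change Matrix.det (Matrix.of fun y => (Pi.single (enu B (Fintype.equivFinOfCardEq hc y)) (1 : ℂ) :
    (B × Bool) × Bool → ℂ)) ≠ 0
  have h2 : (Matrix.of fun y => (Pi.single (enu B (Fintype.equivFinOfCardEq hc y)) (1 : ℂ) :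
      (B × Bool) × Bool → ℂ)) = (1 : Matrix ((B × Bool) × Bool) ((B × Bool) × Bool) ℂ).submatrix
        ((Fintype.equivFinOfCardEq hc).trans (enu B) : Equiv.Perm ((B × Bool) × Bool)) id := by
    ext y z
    simp [Matrix.one_apply, Pi.single_apply, eq_comm]
  rw [h2, Matrix.det_permute, Matrix.det_one, mul_one]
  have : ((Equiv.Perm.sign ((Fintype.equivFinOfCardEq hc).trans (enu B) :
    Equiv.Perm ((B × Bool) × Bool)) : ℤ) : ℂ) ≠ 0 := by
    exact_mod_cast (Units.ne_zero _)
  exact this

end Pool.Agent.H15.Pf
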