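import Pool.Agent.H15.PfDiag
import Pool.Agent.H15.PfAvg

/-!
# The alternating double sum of a family of two-forms as an average
-/

set_option autoImplicit false
set_option linter.unusedSectionVars false

namespace Pool.Agent.H15.Pf

open Finset ExteriorAlgebra MeasureTheory

section congr

variable {Y : Type} [Fintype Y] [DecidableEq Y]

/-- congruence -/
noncomputable def cong (G : Matrix Y Y ℂ) (M : Y → Y → ℂ) (u' v' : Y) : ℂ :=
  ∑ u, ∑ v, G u u' * M u v * G v v'

theorem tl_cong (G : Matrix Y Y ℂ) (M : Y → Y → ℂ) (n : ℕ) :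
    tl (qq (cong G M) ^ n) = G.det * tl (qq M ^ n) := tl_qq G M n

theorem qq_sum {ι : Type} (S : Finset ι) (M : ι → Y → Y → ℂ) :
    qq (fun u v => ∑ i ∈ S, M i u v) = ∑ i ∈ S, qq (M i) := by
  unfold qq
  simp only [Finset.sum_smul]
  rw [Finset.sum_comm' (s := S) (t := fun _ => univ) (t' := univ) (s' := fun _ => S) (by simp)]
  refine Finset.sum_congr rfl fun u _ => ?_
  rw [Finset.sum_comm]

theorem qq_smul (c : ℂ) (M : Y → Y → ℂ) : qq (fun u v => c * M u v) = c • qq M := by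
  unfold qq
  simp only [mul_smul, Finset.smul_sum]

end congr

variable {B : Type} [Fintype B] [DecidableEq B]

/-- the three symmetric matrices -/
noncomputable def Sk (k : Fin 3) (a b : Bool) : ℂ :=
  if a = b then ![0, if a then -1 else 1, Complex.I] k else ![1, 0, 0] k

theorem Sk_ne (k : Fin 3) : Sk k false true = ![1, 0, 0] k := rfl
theorem Sk_ne' (k : Fin 3) : Sk k true false = ![1, 0, 0] k := rfl
theorem Sk_ff (k : Fin 3) : Sk k false false = ![0, 1, Complex.I] k := by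
  unfold Sk
  rw [if_pos rfl]
  rfl
theorem Sk_tt (k : Fin 3) : Sk k true true = ![0, -1, Complex.I] k := by
  unfold Sk
  rw [if_pos rfl]
  rfl

/-- the quadratic elements of a two-form -/
noncomputable def Mk (ω : B × Bool → B × Bool → ℂ) (k : Fin 3) : CA ((B × Bool) × Bool) :=
  qq (fun u v => ω u.1 v.1 * Sk k u.2 v.2)

noncomputable def Wm (ω : B × Bool → B × Bool → ℂ) : CA ((B × Bool) × Bool) :=
  ∑ p, ∑ q, ω p q • yy (p, false) (q, true)

theorem qq_bool (M : (B × Bool) × Bool → (B × Bool) × Bool → ℂ) :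
    qq M = (∑ p, ∑ q, M (p, false) (q, false) • y0 p q) +
      (∑ p, ∑ q, M (p, true) (q, true) • y1 p q) +
      ((∑ p, ∑ q, M (p, false) (q, true) • yy (p, false) (q, true)) +
      ∑ p, ∑ q, M (p, true) (q, false) • yy (p, true) (q, false)) := by
  unfold qq y0 y1
  rw [Fintype.sum_prod_type]
  simp only [Fintype.sum_prod_type (α₁ := B × Bool) (α₂ := Bool), Fintype.sum_bool,
    Finset.sum_add_distrib]
  abel

theorem Mk_eq {ω : B × Bool → B × Bool → ℂ} (hω : ∀ p q, ω p q = -ω q p) (k : Fin 3) :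
    Mk ω k = ![(2 : ℂ) • Wm ω, u0 ω - u1 ω, Complex.I • (u0 ω + u1 ω)] k := by
  have hW : (∑ p, ∑ q, ω p q • yy (p, true) (q, false) : CA ((B × Bool) × Bool)) = Wm ω := by
    rw [Finset.sum_comm]
    unfold Wm
    refine Finset.sum_congr rfl fun p _ => Finset.sum_congr rfl fun q _ => ?_
    rw [hω q p, yy_skew (q, true) (p, false), neg_smul, smul_neg, neg_neg]
  unfold Mk
  rw [qq_bool]
  simp only [Sk_ff, Sk_tt, Sk_ne, Sk_ne']
  fin_cases k
  · simp only [Fin.zero_eta, Fin.isValue, Matrix.cons_val_zero, mul_zero, zero_smul,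
      Finset.sum_const_zero, mul_one, zero_add]
    rw [hW, two_smul]
    rfl
  · simp only [Fin.mk_one, Fin.isValue, Matrix.cons_val_one, Matrix.cons_val_zero, mul_one,
      mul_neg, neg_smul, Finset.sum_neg_distrib, mul_zero, zero_smul, Finset.sum_const_zero,
      add_zero]
    rw [← sub_eq_add_neg]
    rfl
  · simp only [Fin.reduceFinMk, Matrix.cons_val, mul_zero, zero_smul, Finset.sum_const_zero,
      add_zero]
    unfold u0 u1
    rw [smul_add, Finset.smul_sum, Finset.smul_sum]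
    simp only [Finset.smul_sum, smul_smul, mul_comm Complex.I]

theorem Wm_sq (ω : B × Bool → B × Bool → ℂ) :
    Wm ω * Wm ω = -quy (fun p q r s => ω p r * ω q s) := by
  unfold Wm quy
  rw [← Finset.sum_neg_distrib, Finset.sum_mul]
  refine Finset.sum_congr rfl fun p _ => ?_
  rw [Finset.sum_mul]
  simp only [Finset.mul_sum]
  rw [Finset.sum_comm, ← Finset.sum_neg_distrib]
  refine Finset.sum_congr rfl fun q _ => ?_
  rw [← Finset.sum_neg_distrib]
  refine Finset.sum_congr rfl fun r _ => ?_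
  rw [← Finset.sum_neg_distrib]
  refine Finset.sum_congr rfl fun s _ => ?_
  rw [smul_mul_smul_comm, yy_exch, smul_neg]
  rfl

theorem quy_add (C D : B × Bool → B × Bool → B × Bool → B × Bool → ℂ) :
    quy (fun p q r s => C p q r s + D p q r s) = quy C + quy D := by
  unfold quy
  simp only [add_smul, Finset.sum_add_distrib]

theorem quy_sum {ι : Type} (S : Finset ι)
    (C : ι → B × Bool → B × Bool → B × Bool → B × Bool → ℂ) :
    quy (fun p q r s => ∑ k ∈ S, C k p q r s) = ∑ k ∈ S, quy (C k) := by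
  classical
  induction S using Finset.induction_on with
  | empty =>
    simp only [Finset.sum_empty]
    unfold quy
    simp
  | insert k S hk ih =>
    simp only [Finset.sum_insert hk]
    rw [quy_add, ih]

/-- the tensor of a two-form -/
def cC (ω : B × Bool → B × Bool → ℂ) (p q r s : B × Bool) : ℂ := ω p r * ω q s + ω p q * ω r s

theorem Mk_sq {ω : B × Bool → B × Bool → ℂ} (hω : ∀ p q, ω p q = -ω q p) :
    ∑ k, Mk ω k ^ 2 = (-4 : ℂ) • quy (cC ω) := by
  have h1 : quy (cC ω) = -(Wm ω * Wm ω) + u0 ω * u1 ω := by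
    rw [Wm_sq, u0_u1, neg_neg, ← quy_add]
    rfl
  rw [Fin.sum_univ_three, Mk_eq hω, Mk_eq hω, Mk_eq hω, h1]
  simp only [Matrix.cons_val_zero, Matrix.cons_val_one, Matrix.cons_val]
  rw [smul_pow, smul_pow, Complex.I_sq]
  have e1 : ((-4 : ℂ) • (-(Wm ω * Wm ω) + u0 ω * u1 ω)) =
      -(4 * (-(Wm ω * Wm ω) + u0 ω * u1 ω)) := by
    rw [neg_smul, Algebra.smul_def, map_ofNat]
  have e2 : ((2 : ℂ) ^ 2) • Wm ω ^ 2 = 4 * Wm ω ^ 2 := by
    rw [Algebra.smul_def, map_pow, map_ofNat]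
    norm_num
  rw [e1, e2, neg_smul, one_smul]
  ring

/-- the matrix of a point -/
noncomputable def Sx (x : Fin 3 → ℝ) (a b : Bool) : ℂ := ∑ k, (x k : ℂ) * Sk k a b

/-- the skew matrix of a family of two-forms and of a point -/
noncomputable def Mx {N X : Type} [Fintype N] (ω : N → X → X → ℝ)
    (x : N → Fin 3 → ℝ) (u v : X × Bool) : ℂ :=
  ∑ ν, (ω ν u.1 v.1 : ℂ) * Sx (x ν) u.2 v.2

theorem qq_Mx {N : Type} [Fintype N] (ω : N → B × Bool → B × Bool → ℝ) (x : N → Fin 3 → ℝ) :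
    qq (Mx ω x) = ∑ j : N × Fin 3, ((x j.1 j.2 : ℝ) : ℂ) • Mk (fun p q => (ω j.1 p q : ℂ)) j.2 := by
  have h1 : Mx ω x = fun u v => ∑ j ∈ (univ : Finset (N × Fin 3)),
      ((x j.1 j.2 : ℝ) : ℂ) * ((ω j.1 u.1 v.1 : ℂ) * Sk j.2 u.2 v.2) := by
    funext u v
    unfold Mx Sx
    rw [Fintype.sum_prod_type]
    refine Finset.sum_congr rfl fun ν _ => ?_
    rw [Finset.mul_sum]
    refine Finset.sum_congr rfl fun k _ => ?_
    ring
  rw [h1, qq_sum]
  refine Finset.sum_congr rfl fun j _ => ?_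
  rw [qq_smul]
  rfl

theorem average {N : Type} [Fintype N] [DecidableEq N] [Nonempty N]
    (ω : N → B × Bool → B × Bool → ℝ) (hω : ∀ ν p q, ω ν p q = -ω ν q p) (m : ℕ)
    (hm : Fintype.card B = m) :
    ∫ x in bal (N × Fin 3), tl (qq (Mx ω (fun ν k => x (ν, k))) ^ (2 * m)) =
      (cst (N × Fin 3) (2 * m) : ℂ) * ((-4) ^ m * (kap B *
        dsum (fun p q r s => ∑ ν, cC (fun p q => (ω ν p q : ℂ)) p q r s))) := by
  have h1 := avg (tl : CA ((B × Bool) × Bool) →ₗ[ℂ] ℂ)
    (fun j : N × Fin 3 => Mk (fun p q => (ω j.1 p q : ℂ)) j.2) m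
  have h0 : ∀ x : EuclideanSpace ℝ (N × Fin 3), qq (Mx ω (fun ν k => x (ν, k))) =
      ∑ j : N × Fin 3, ((x j : ℝ) : ℂ) • Mk (fun p q => (ω j.1 p q : ℂ)) j.2 :=
    fun x => qq_Mx ω (fun ν k => x (ν, k))
  simp only [h0]
  rw [h1]
  congr 1
  have h2 : ∑ j : N × Fin 3, Mk (fun p q => (ω j.1 p q : ℂ)) j.2 ^ 2 =
      (-4 : ℂ) • quy (fun p q r s => ∑ ν, cC (fun p q => (ω ν p q : ℂ)) p q r s) := by
    rw [Fintype.sum_prod_type, quy_sum, Finset.smul_sum]
    refine Finset.sum_congr rfl fun ν _ => ?_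
    have h3 : ∀ p q : B × Bool, (ω ν p q : ℂ) = -(ω ν q p : ℂ) := by
      intro p q
      rw [hω ν p q, Complex.ofReal_neg]
    have h4 := Mk_sq (ω := fun p q => (ω ν p q : ℂ)) h3
    rw [← h4]
  rw [h2, smul_pow, map_smul, smul_eq_mul, ← hm, tl_quy]

end Pool.Agent.H15.Pf
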