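import Pool.Agent.H15.PfEq

/-!
# Nondegenerate elements
-/

set_option autoImplicit false
set_option linter.unusedSectionVars false

namespace Pool.Agent.H15.Pf

open Finset

variable {B : Type} [Fintype B] [DecidableEq B] {N : Type} [Fintype N]

/-- a nondegenerate real combination -/
theorem comb_ne {ω : N → B × Bool → B × Bool → ℝ} (hω : ∀ ν p q, ω ν p q = -ω ν q p) (c : N → ℝ)
    (hc : (Matrix.of fun p q => ∑ ν, c ν * ω ν p q).det ≠ 0) :
    ∃ x : N → Fin 3 → ℝ, tl (qq (Mx ω x) ^ (2 * Fintype.card B)) ≠ 0 := by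
  refine ⟨fun ν => ![c ν, 0, 0], ?_⟩
  set A : B × Bool → B × Bool → ℂ := fun p q => ((∑ ν, c ν * ω ν p q : ℝ) : ℂ) with hA
  have h1 : Mx ω (fun ν => ![c ν, 0, 0]) = fun u v : (B × Bool) × Bool =>
      A u.1 v.1 * Sk 0 u.2 v.2 := by
    funext u v
    unfold Mx Sx
    rw [hA]
    simp only [Fin.sum_univ_three, Matrix.cons_val_zero, Matrix.cons_val_one, Matrix.cons_val,
      Complex.ofReal_zero, zero_mul, add_zero, Complex.ofReal_sum, Complex.ofReal_mul,
      Finset.sum_mul]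
    refine Finset.sum_congr rfl fun ν _ => ?_
    ring
  rw [h1, tl_det A (fun p q => ?_)]
  · refine mul_ne_zero ?_ tl_J0_ne
    have h2 : (Matrix.of A) = (Matrix.of fun p q => ∑ ν, c ν * ω ν p q).map
        (Complex.ofRealHom : ℝ → ℂ) := by
      ext p q
      rfl
    rw [h2, ← RingHom.mapMatrix_apply, ← RingHom.map_det]
    intro h
    exact hc (Complex.ofReal_eq_zero.1 h)
  · rw [hA]
    simp only
    rw [← Complex.ofReal_neg, ← Finset.sum_neg_distrib]
    congr 1
    refine Finset.sum_congr rfl fun ν _ => ?_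
    rw [hω ν p q]
    ring

/-- in a pencil the converse holds -/
theorem fam_zero {ω : N → B × Bool → B × Bool → ℝ} (hω : ∀ ν p q, ω ν p q = -ω ν q p)
    {α γ : B × Bool → B × Bool → ℝ} {s t : N → ℝ}
    (hp : ∀ ν p q, ω ν p q = s ν * α p q + t ν * γ p q)
    (hdet : ∀ c : N → ℝ, (Matrix.of fun p q => ∑ ν, c ν * ω ν p q).det = 0)
    (x : N → Fin 3 → ℝ) : tl (qq (Mx ω x) ^ (2 * Fintype.card B)) = 0 := by
  set P : MvPolynomial N ℝ := ∑ σ : Equiv.Perm (B × Bool),
    MvPolynomial.C ((Equiv.Perm.sign σ : ℤ) : ℝ) *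
      ∏ b : B, ∑ ν, (MvPolynomial.C (ω ν (σ (b, false)) (σ (b, true))) * MvPolynomial.X ν) with hP
  have hev : ∀ z : N → ℂ, MvPolynomial.eval₂Hom Complex.ofRealHom z P =
      pfu (fun p q => ∑ ν, (ω ν p q : ℂ) * z ν) := by
    intro z
    rw [hP]
    simp only [map_sum, map_mul, map_prod, MvPolynomial.eval₂Hom_C,
      MvPolynomial.eval₂Hom_X', Complex.ofRealHom_eq_coe]
    unfold pfu
    push_cast
    rfl
  obtain ⟨c, hc, hcd⟩ := pf_det (B := B)
  have hP0 : P = 0 := by
    apply MvPolynomial.funext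
    intro v
    rw [map_zero]
    have h1 := hev (fun ν => Complex.ofRealHom (v ν))
    have h2 : MvPolynomial.eval₂Hom Complex.ofRealHom (fun ν => Complex.ofRealHom (v ν)) P =
        ((MvPolynomial.eval v P : ℝ) : ℂ) :=
      (MvPolynomial.eval₂_comp (Complex.ofRealHom) v P).symm
    rw [h2] at h1
    have h4 := hcd (fun p q => ∑ ν, (ω ν p q : ℂ) * Complex.ofRealHom (v ν)) (fun p q => by
      rw [← Finset.sum_neg_distrib]
      refine Finset.sum_congr rfl fun ν _ => ?_
      rw [hω ν p q]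
      push_cast
      ring)
    have h5 : (Matrix.of fun p q : B × Bool => ∑ ν, (ω ν p q : ℂ) * Complex.ofRealHom (v ν)) =
        (Matrix.of fun p q => ∑ ν, v ν * ω ν p q).map (Complex.ofRealHom : ℝ → ℂ) := by
      ext p q
      simp only [Matrix.of_apply, Matrix.map_apply, Complex.ofRealHom_eq_coe]
      push_cast
      refine Finset.sum_congr rfl fun ν _ => ?_
      ring
    rw [h5, ← RingHom.mapMatrix_apply, ← RingHom.map_det, hdet, map_zero, ← h1] at h4
    have h6 := (mul_eq_zero.1 h4.symm).resolve_left hc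
    have h7 := pow_eq_zero_iff (two_ne_zero) |>.1 h6
    exact_mod_cast h7
  rw [Mx_pencil hp]
  obtain ⟨h, hd, hcg⟩ := pencil_form α γ (fun k => ∑ ν, s ν * x ν k) (fun k => ∑ ν, t ν * x ν k)
  have h8 := tl_cong (bh h) (fun u v : (B × Bool) × Bool =>
    (α u.1 v.1 : ℂ) * Sx (fun k => ∑ ν, s ν * x ν k) u.2 v.2 +
        (γ u.1 v.1 : ℂ) * Sx (fun k => ∑ ν, t ν * x ν k) u.2 v.2) (2 * Fintype.card B)
  have h9 : (fun p q : B × Bool => (α p q : ℂ) * rt h (fun k => ∑ ν, s ν * x ν k) false false +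
      (γ p q : ℂ) * rt h (fun k => ∑ ν, t ν * x ν k) false false) =
      fun p q => ∑ ν, (ω ν p q : ℂ) * rt h (x ν) false false := by
    funext p q
    rw [rt_sum, rt_sum, Finset.mul_sum, Finset.mul_sum, ← Finset.sum_add_distrib]
    refine Finset.sum_congr rfl fun ν _ => ?_
    rw [hp]
    push_cast
    ring
  rw [bh_det hd, one_mul, hcg, h9, qq_dg, tl_diag', ← hev, hP0, map_zero, map_zero] at h8
  rw [← h8]
  simp

end Pool.Agent.H15.Pf
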