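import Mathlib

/-!
# The even part of an exterior algebra and its top functional
-/

set_option autoImplicit false
set_option linter.unusedSectionVars false

namespace Pool.Agent.H15.Pf

open Finset ExteriorAlgebra

variable {Y : Type} [Fintype Y] [DecidableEq Y]

/-- the exterior algebra -/
abbrev EA (Y : Type) := ExteriorAlgebra ℂ (Y → ℂ)

/-- the generators -/
noncomputable def th (u : Y) : EA Y := ι ℂ (Pi.single u (1 : ℂ))

omit [Fintype Y] [DecidableEq Y] in
theorem ι_swap (a b : Y → ℂ) : ι ℂ a * ι ℂ b = -(ι ℂ b * ι ℂ a) :=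
  eq_neg_of_add_eq_zero_left (ι_add_mul_swap a b)

omit [Fintype Y] [DecidableEq Y] in
theorem mem_center (a b : Y → ℂ) : ι ℂ a * ι ℂ b ∈ Subalgebra.center ℂ (EA Y) := by
  rw [Subalgebra.mem_center_iff]
  intro x
  induction x using ExteriorAlgebra.induction with
  | algebraMap r => rw [Algebra.commutes]
  | ι c =>
    calc ι ℂ c * (ι ℂ a * ι ℂ b) = (ι ℂ c * ι ℂ a) * ι ℂ b := by rw [mul_assoc]
      _ = -(ι ℂ a * ι ℂ c) * ι ℂ b := by rw [ι_swap c a]
      _ = -(ι ℂ a * (ι ℂ c * ι ℂ b)) := by rw [neg_mul, mul_assoc]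
      _ = -(ι ℂ a * (-(ι ℂ b * ι ℂ c))) := by rw [ι_swap c b]
      _ = ι ℂ a * ι ℂ b * ι ℂ c := by rw [mul_neg, neg_neg, mul_assoc]
  | mul x y hx hy => rw [mul_assoc, hy, ← mul_assoc, hx, mul_assoc]
  | add x y hx hy => rw [add_mul, hx, hy, mul_add]

/-- the commutative ring -/
def CA (Y : Type) : Type := Subalgebra.center ℂ (EA Y)

noncomputable instance : CommRing (CA Y) :=
  inferInstanceAs (CommRing (Subalgebra.center ℂ (EA Y)))

noncomputable instance : Algebra ℂ (CA Y) :=
  inferInstanceAs (Algebra ℂ (Subalgebra.center ℂ (EA Y)))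

/-- the inclusion -/
noncomputable def cv : CA Y →ₐ[ℂ] EA Y := (Subalgebra.center ℂ (EA Y)).val

theorem cv_inj : Function.Injective (cv : CA Y → EA Y) := Subtype.coe_injective

/-- the quadratic generators -/
noncomputable def yy (u v : Y) : CA Y := (⟨th u * th v, mem_center _ _⟩ : Subalgebra.center ℂ (EA Y))

theorem cv_yy (u v : Y) : cv (yy u v) = th u * th v := rfl

theorem th_swap (u v : Y) : th u * th v = -(th v * th u) := ι_swap _ _

theorem yy_skew (u v : Y) : yy u v = -yy v u := by
  apply cv_inj
  rw [map_neg, cv_yy, cv_yy, th_swap]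

theorem yy_exch (u v w z : Y) : yy u v * yy w z = -(yy u w * yy v z) := by
  apply cv_inj
  rw [map_neg, map_mul, map_mul]
  simp only [cv_yy]
  calc th u * th v * (th w * th z) = th u * (th v * th w) * th z := by simp only [mul_assoc]
    _ = -(th u * th w * (th v * th z)) := by
      rw [th_swap v w]; simp only [mul_neg, neg_mul, mul_assoc]

section prod

variable {B : Type} [Fintype B] [DecidableEq B]

/-- the product over pairs -/
noncomputable def PP (s : B × Bool → Y) : CA Y := ∏ b, yy (s (b, false)) (s (b, true))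

theorem PP_swap (s : B × Bool → Y) {i j : B × Bool} (hij : i ≠ j) :
    PP (s ∘ Equiv.swap i j) = -PP s := by
  obtain ⟨b, β⟩ := i
  obtain ⟨c, γ⟩ := j
  unfold PP
  by_cases hbc : b = c
  · subst hbc
    have hβ : β ≠ γ := fun h => hij (by rw [h])
    rw [← Finset.mul_prod_erase univ _ (mem_univ b), ← Finset.mul_prod_erase univ _ (mem_univ b)]
    have h1 : ∏ x ∈ univ.erase b, yy ((s ∘ Equiv.swap (b, β) (b, γ)) (x, false))
        ((s ∘ Equiv.swap (b, β) (b, γ)) (x, true)) =
        ∏ x ∈ univ.erase b, yy (s (x, false)) (s (x, true)) := by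
      refine Finset.prod_congr rfl fun x hx => ?_
      have hx : x ≠ b := Finset.ne_of_mem_erase hx
      simp only [Function.comp_apply]
      rw [Equiv.swap_apply_of_ne_of_ne, Equiv.swap_apply_of_ne_of_ne] <;>
        simp [Prod.ext_iff, hx]
    rw [h1, ← neg_mul]
    congr 1
    cases β <;> cases γ <;> simp only [ne_eq, not_true_eq_false, reduceCtorEq,
      not_false_eq_true] at hβ <;>
      simp only [Function.comp_apply, Equiv.swap_apply_left, Equiv.swap_apply_right]
    · exact yy_skew _ _
    · exact yy_skew _ _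
  · have hcb : c ∈ univ.erase b := Finset.mem_erase.2 ⟨fun h => hbc h.symm, mem_univ c⟩
    rw [← Finset.mul_prod_erase univ _ (mem_univ b), ← Finset.mul_prod_erase univ _ (mem_univ b),
      ← Finset.mul_prod_erase _ _ hcb, ← Finset.mul_prod_erase _ _ hcb]
    have h1 : ∏ x ∈ (univ.erase b).erase c, yy ((s ∘ Equiv.swap (b, β) (c, γ)) (x, false))
        ((s ∘ Equiv.swap (b, β) (c, γ)) (x, true)) =
        ∏ x ∈ (univ.erase b).erase c, yy (s (x, false)) (s (x, true)) := by
      refine Finset.prod_congr rfl fun x hx => ?_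
      have hx1 : x ≠ c := Finset.ne_of_mem_erase hx
      have hx2 : x ≠ b := Finset.ne_of_mem_erase (Finset.mem_of_mem_erase hx)
      simp only [Function.comp_apply]
      rw [Equiv.swap_apply_of_ne_of_ne, Equiv.swap_apply_of_ne_of_ne] <;>
        simp [Prod.ext_iff, hx1, hx2]
    rw [h1, ← mul_assoc, ← mul_assoc, ← neg_mul]
    congr 1
    have hcb' : c ≠ b := fun h => hbc h.symm
    have e1 : ∀ δ : Bool, δ ≠ β → Equiv.swap (b, β) (c, γ) (b, δ) = (b, δ) := fun δ h =>
      Equiv.swap_apply_of_ne_of_ne (by simp [h]) (by simp [hbc])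
    have e2 : ∀ δ : Bool, δ ≠ γ → Equiv.swap (b, β) (c, γ) (c, δ) = (c, δ) := fun δ h =>
      Equiv.swap_apply_of_ne_of_ne (by simp [hcb']) (by simp [h])
    simp only [Function.comp_apply]
    cases β <;> cases γ
    · rw [Equiv.swap_apply_left, Equiv.swap_apply_right, e1 true (by simp), e2 true (by simp)]
      generalize s (b, false) = u
      generalize s (b, true) = v
      generalize s (c, false) = w
      generalize s (c, true) = z
      rw [yy_exch w v u z, yy_skew w u, yy_exch u v w z]
      ring
    · rw [Equiv.swap_apply_left, Equiv.swap_apply_right, e1 true (by simp), e2 false (by simp)]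
      generalize s (b, false) = u
      generalize s (b, true) = v
      generalize s (c, false) = w
      generalize s (c, true) = z
      rw [yy_skew z v, yy_skew w u, neg_mul_neg, yy_exch v z u w, yy_skew v u, yy_skew z w]
      ring
    · rw [Equiv.swap_apply_left, Equiv.swap_apply_right, e1 false (by simp), e2 true (by simp)]
      exact yy_exch _ _ _ _
    · rw [Equiv.swap_apply_left, Equiv.swap_apply_right, e1 false (by simp), e2 false (by simp)]
      generalize s (b, false) = u
      generalize s (b, true) = v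
      generalize s (c, false) = w
      generalize s (c, true) = z
      rw [yy_skew w v, mul_neg, neg_inj, yy_exch u z v w, yy_skew z w, mul_neg, neg_neg]

theorem PP_perm (σ : Equiv.Perm (B × Bool)) : ∀ s : B × Bool → Y,
    PP (s ∘ σ) = ((Equiv.Perm.sign σ : ℤ) : ℂ) • PP s := by
  refine Equiv.Perm.swap_induction_on σ ?_ ?_
  · intro s
    simp
  · intro f x y hxy ih s
    have h1 : s ∘ (Equiv.swap x y * f : Equiv.Perm (B × Bool)) = (s ∘ Equiv.swap x y) ∘ f := rfl
    rw [h1, ih, PP_swap s hxy, Equiv.Perm.sign_mul, Equiv.Perm.sign_swap hxy]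
    simp

theorem PP_zero {s : B × Bool → Y} (hs : ¬ Function.Injective s) : PP s = 0 := by
  rw [Function.Injective] at hs
  push Not at hs
  obtain ⟨i, j, hij, hne⟩ := hs
  have h1 : s ∘ Equiv.swap i j = s := by
    funext x
    simp only [Function.comp_apply]
    by_cases hx : x = i
    · rw [hx, Equiv.swap_apply_left, hij]
    · by_cases hx' : x = j
      · rw [hx', Equiv.swap_apply_right, hij]
      · rw [Equiv.swap_apply_of_ne_of_ne hx hx']
  have h2 := PP_swap s hne
  rw [h1] at h2
  have h3 : (2 : ℂ) • PP s = 0 := by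
    rw [two_smul]
    nth_rw 1 [h2]
    exact neg_add_cancel _
  exact (smul_eq_zero.1 h3).resolve_left two_ne_zero

end prod

end Pool.Agent.H15.Pf
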