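import Pool.Agent.H15.PfGood

/-!
# Rotations
-/

set_option autoImplicit false
set_option linter.unusedSectionVars false

namespace Pool.Agent.H15.Pf

open Finset

/-- a unit vector perpendicular to two vectors -/
theorem exists_perp (y y' : Fin 3 → ℝ) : ∃ n : Fin 3 → ℝ, n 0 ^ 2 + n 1 ^ 2 + n 2 ^ 2 = 1 ∧
    y 0 * n 0 + y 1 * n 1 + y 2 * n 2 = 0 ∧ y' 0 * n 0 + y' 1 * n 1 + y' 2 * n 2 = 0 := by
  set L : (Fin 3 → ℝ) →ₗ[ℝ] (Fin 2 → ℝ) := Matrix.toLin' !![y 0, y 1, y 2; y' 0, y' 1, y' 2] with hL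
  have h1 : LinearMap.ker L ≠ ⊥ := LinearMap.ker_ne_bot_of_finrank_lt (by simp)
  obtain ⟨v, hv, hv0⟩ := Submodule.exists_mem_ne_zero_of_ne_bot h1
  have h2 : L v = 0 := hv
  have e0 := congrFun h2 0
  have e1 := congrFun h2 1
  rw [hL, Matrix.toLin'_apply] at e0 e1
  simp only [Matrix.mulVec, dotProduct, Fin.sum_univ_three, Matrix.of_apply, Matrix.cons_val_zero,
    Matrix.cons_val_one, Matrix.cons_val, Pi.zero_apply] at e0 e1
  set s := v 0 ^ 2 + v 1 ^ 2 + v 2 ^ 2 with hs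
  have hs0 : 0 < s := by
    rcases lt_or_eq_of_le (show 0 ≤ s by positivity) with h | h
    · exact h
    · exfalso
      apply hv0
      have g0 : v 0 = 0 := by nlinarith [sq_nonneg (v 0), sq_nonneg (v 1), sq_nonneg (v 2)]
      have g1 : v 1 = 0 := by nlinarith [sq_nonneg (v 0), sq_nonneg (v 1), sq_nonneg (v 2)]
      have g2 : v 2 = 0 := by nlinarith [sq_nonneg (v 0), sq_nonneg (v 1), sq_nonneg (v 2)]
      funext i
      fin_cases i
      · exact g0
      · exact g1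
      · exact g2
  have hr := Real.sq_sqrt hs0.le
  have hr0 := Real.sqrt_pos.2 hs0
  refine ⟨fun i => v i / Real.sqrt s, ?_, ?_, ?_⟩
  · simp only [div_pow]
    rw [hr, ← add_div, ← add_div, ← hs, div_self hs0.ne']
  · have : y 0 * (v 0 / Real.sqrt s) + y 1 * (v 1 / Real.sqrt s) + y 2 * (v 2 / Real.sqrt s) =
      (y 0 * v 0 + y 1 * v 1 + y 2 * v 2) / Real.sqrt s := by ring
    rw [this, e0, zero_div]
  · have : y' 0 * (v 0 / Real.sqrt s) + y' 1 * (v 1 / Real.sqrt s) + y' 2 * (v 2 / Real.sqrt s) =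
      (y' 0 * v 0 + y' 1 * v 1 + y' 2 * v 2) / Real.sqrt s := by ring
    rw [this, e1, zero_div]

/-- the Hopf map is onto; `a = (a₁, 0)`, `conj b = (b₁, b₂)` -/
theorem exists_spin (n : Fin 3 → ℝ) (hn : n 0 ^ 2 + n 1 ^ 2 + n 2 ^ 2 = 1) :
    ∃ a b c : ℝ, a ^ 2 + b ^ 2 + c ^ 2 = 1 ∧ a ^ 2 - b ^ 2 - c ^ 2 = n 0 ∧ -2 * (a * b) = n 1 ∧
      2 * (a * c) = n 2 := by
  by_cases h : n 0 = -1
  · have h1 : n 1 = 0 := by nlinarith [sq_nonneg (n 1), sq_nonneg (n 2)]
    have h2 : n 2 = 0 := by nlinarith [sq_nonneg (n 1), sq_nonneg (n 2)]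
    exact ⟨0, 1, 0, by norm_num, by rw [h]; norm_num, by rw [h1]; norm_num, by rw [h2]; norm_num⟩
  · have h3 : -1 ≤ n 0 := by nlinarith [sq_nonneg (n 1), sq_nonneg (n 2)]
    have h4 : 0 < (1 + n 0) / 2 := by
      have := lt_of_le_of_ne h3 (Ne.symm h)
      linarith
    have hr := Real.sq_sqrt h4.le
    have hr0 := Real.sqrt_pos.2 h4
    set a := Real.sqrt ((1 + n 0) / 2) with ha
    have e1 : (-(n 1) / (2 * a)) ^ 2 + (n 2 / (2 * a)) ^ 2 = (1 - n 0) / 2 := by
      rw [div_pow, div_pow, ← add_div, mul_pow, hr]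
      have : (-n 1) ^ 2 + n 2 ^ 2 = (1 - n 0) * (1 + n 0) := by linear_combination hn
      rw [this]
      have : 1 + n 0 ≠ 0 := by linarith
      field_simp
    refine ⟨a, -(n 1) / (2 * a), n 2 / (2 * a), ?_, ?_, ?_, ?_⟩
    · rw [add_assoc, e1, hr]; ring
    · rw [sub_sub, e1, hr]; ring
    · field_simp
    · field_simp

/-- the transformed symmetric matrix -/
noncomputable def rt (h : Matrix Bool Bool ℂ) (z : Fin 3 → ℝ) (a' b' : Bool) : ℂ :=
  ∑ a, ∑ b, h a a' * Sx z a b * h b b'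

theorem Sx_ff (z : Fin 3 → ℝ) : Sx z false false = z 1 + Complex.I * z 2 := by
  unfold Sx
  rw [Fin.sum_univ_three, Sk_ff, Sk_ff, Sk_ff]
  simp
  ring

theorem Sx_tt (z : Fin 3 → ℝ) : Sx z true true = -z 1 + Complex.I * z 2 := by
  unfold Sx
  rw [Fin.sum_univ_three, Sk_tt, Sk_tt, Sk_tt]
  simp
  ring

theorem Sx_ft (z : Fin 3 → ℝ) : Sx z false true = z 0 := by
  unfold Sx
  rw [Fin.sum_univ_three, Sk_ne, Sk_ne, Sk_ne]
  simp

theorem Sx_tf (z : Fin 3 → ℝ) : Sx z true false = z 0 := by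
  unfold Sx
  rw [Fin.sum_univ_three, Sk_ne', Sk_ne', Sk_ne']
  simp

theorem exists_rot (y y' : Fin 3 → ℝ) : ∃ h : Matrix Bool Bool ℂ, h.det = 1 ∧
    (rt h y false true = 0 ∧ rt h y true false = 0 ∧
      rt h y true true = -(starRingEnd ℂ) (rt h y false false)) ∧
    (rt h y' false true = 0 ∧ rt h y' true false = 0 ∧
      rt h y' true true = -(starRingEnd ℂ) (rt h y' false false)) := by
  obtain ⟨n, hn, h1, h2⟩ := exists_perp y y'
  obtain ⟨a, b, c, e0, e1, e2, e3⟩ := exists_spin n hn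
  set h : Matrix Bool Bool ℂ := fun p q => if p then (if q then (a : ℂ) else (b : ℂ) - Complex.I * c)
    else (if q then -((b : ℂ) + Complex.I * c) else (a : ℂ)) with hh
  have hff : h false false = a := rfl
  have htf : h true false = (b : ℂ) - Complex.I * c := rfl
  have hft : h false true = -((b : ℂ) + Complex.I * c) := rfl
  have htt : h true true = a := rfl
  have key : ∀ z : Fin 3 → ℝ, z 0 * n 0 + z 1 * n 1 + z 2 * n 2 = 0 →
      (rt h z false true = 0 ∧ rt h z true false = 0 ∧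
      rt h z true true = -(starRingEnd ℂ) (rt h z false false)) := by
    intro z hz
    have hz' : (z 0 : ℂ) * (a ^ 2 - b ^ 2 - c ^ 2) + z 1 * (-2 * (a * b)) + z 2 * (2 * (a * c)) = 0 := by
      rw [← e1, ← e2, ← e3] at hz
      exact_mod_cast hz
    have hI := Complex.I_sq
    have hI3 : Complex.I ^ 3 = -Complex.I := by rw [pow_succ, hI]; ring
    refine ⟨?_, ?_, ?_⟩
    · unfold rt
      simp only [Fintype.sum_bool, hff, htf, hft, htt, Sx_ff, Sx_ft, Sx_tf, Sx_tt]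
      linear_combination hz' + (z 0 * c ^ 2 - z 2 * (2 * (a * c)) : ℂ) * hI
    · unfold rt
      simp only [Fintype.sum_bool, hff, htf, hft, htt, Sx_ff, Sx_ft, Sx_tf, Sx_tt]
      linear_combination hz' + (z 0 * c ^ 2 - z 2 * (2 * (a * c)) : ℂ) * hI
    · unfold rt
      simp only [Fintype.sum_bool, hff, htf, hft, htt, Sx_ff, Sx_ft, Sx_tf, Sx_tt, map_add, map_sub,
        map_mul, map_neg, Complex.conj_ofReal, Complex.conj_I]
      ring
  refine ⟨h, ?_, key y h1, key y' h2⟩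
  have e0' : (a : ℂ) ^ 2 + b ^ 2 + c ^ 2 = 1 := by exact_mod_cast e0
  have h3 : h.det = h true true * h false false - h true false * h false true := by
    rw [← Matrix.det_reindex_self finTwoEquiv.symm h, Matrix.det_fin_two]
    simp only [Matrix.reindex_apply, Matrix.submatrix_apply, Equiv.symm_symm]
    have t0 : finTwoEquiv 0 = false := rfl
    have t1 : finTwoEquiv 1 = true := rfl
    rw [t0, t1]
    ring
  rw [h3, hff, htf, hft, htt]
  linear_combination e0' + (-(c : ℂ) ^ 2) * Complex.I_sq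

end Pool.Agent.H15.Pf

namespace Pool.Agent.H15.Pf

open Finset

section pencil

variable {X : Type} [Fintype X] [DecidableEq X]

/-- the block matrix of a transformation of the type -/
noncomputable def bh (h : Matrix Bool Bool ℂ) : Matrix (X × Bool) (X × Bool) ℂ :=
  (Matrix.blockDiagonal fun _ : X => h).submatrix Prod.swap Prod.swap

theorem bh_apply (h : Matrix Bool Bool ℂ) (u v : X × Bool) :
    bh h u v = if u.1 = v.1 then h u.2 v.2 else 0 := by
  unfold bh
  rw [Matrix.submatrix_apply, Matrix.blockDiagonal_apply]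
  rfl

theorem bh_det {h : Matrix Bool Bool ℂ} (hd : h.det = 1) : (bh h : Matrix (X × Bool) _ ℂ).det = 1 := by
  have h1 : (bh h : Matrix (X × Bool) (X × Bool) ℂ) =
      (Matrix.blockDiagonal fun _ : X => h).submatrix (Equiv.prodComm X Bool) (Equiv.prodComm X Bool) :=
    rfl
  rw [h1, Matrix.det_submatrix_equiv_self, Matrix.det_blockDiagonal]
  simp [hd]

theorem cong_bh (h : Matrix Bool Bool ℂ) (M : X × Bool → X × Bool → ℂ) (p q : X) (a b : Bool) :
    cong (bh h) M (p, a) (q, b) = ∑ a', ∑ b', h a' a * M (p, a') (q, b') * h b' b := by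
  unfold cong
  simp only [bh_apply]
  rw [Fintype.sum_prod_type, Finset.sum_eq_single p]
  · refine Finset.sum_congr rfl fun a' _ => ?_
    rw [Fintype.sum_prod_type, Finset.sum_eq_single q]
    · simp
    · intro r _ hr
      simp [hr]
    · intro h; exact absurd (mem_univ _) h
  · intro r _ hr
    simp [hr]
  · intro h; exact absurd (mem_univ _) h

/-- two-forms in a pencil -/
theorem pencil_form (α γ : X → X → ℝ) (y y' : Fin 3 → ℝ) :
    ∃ h : Matrix Bool Bool ℂ, h.det = 1 ∧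
      cong (bh h) (fun u v : X × Bool => (α u.1 v.1 : ℂ) * Sx y u.2 v.2 +
        (γ u.1 v.1 : ℂ) * Sx y' u.2 v.2) =
      dg (fun p q => (α p q : ℂ) * rt h y false false + (γ p q : ℂ) * rt h y' false false) := by
  obtain ⟨h, hd, ⟨h1, h2, h3⟩, ⟨h4, h5, h6⟩⟩ := exists_rot y y'
  refine ⟨h, hd, ?_⟩
  funext u v
  obtain ⟨p, a⟩ := u
  obtain ⟨q, b⟩ := v
  rw [cong_bh]
  have e1 : ∑ a', ∑ b', h a' a * ((α p q : ℂ) * Sx y a' b' + (γ p q : ℂ) * Sx y' a' b') * h b' b =
      (α p q : ℂ) * rt h y a b + (γ p q : ℂ) * rt h y' a b := by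
    unfold rt
    rw [Finset.mul_sum, Finset.mul_sum, ← Finset.sum_add_distrib]
    refine Finset.sum_congr rfl fun a' _ => ?_
    rw [Finset.mul_sum, Finset.mul_sum, ← Finset.sum_add_distrib]
    refine Finset.sum_congr rfl fun b' _ => ?_
    ring
  simp only [e1]
  unfold dg
  cases a <;> cases b
  · simp
  · simp [h1, h4]
  · simp [h2, h5]
  · simp [h3, h6]
    ring

theorem good_pencil (α γ : X → X → ℝ) (y y' : Fin 3 → ℝ) :
    Good (fun u v : X × Bool => (α u.1 v.1 : ℂ) * Sx y u.2 v.2 + (γ u.1 v.1 : ℂ) * Sx y' u.2 v.2) := by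
  obtain ⟨h, hd, hc⟩ := pencil_form α γ y y'
  exact Or.inl ⟨bh h, 1, _, one_pos, by rw [bh_det hd]; simp, hc⟩

theorem Sx_sum {N : Type} [Fintype N] (s : N → ℝ) (x : N → Fin 3 → ℝ) (a b : Bool) :
    Sx (fun k => ∑ ν, s ν * x ν k) a b = ∑ ν, (s ν : ℂ) * Sx (x ν) a b := by
  unfold Sx
  simp only [Complex.ofReal_sum, Complex.ofReal_mul, Finset.sum_mul, Finset.mul_sum]
  rw [Finset.sum_comm]
  refine Finset.sum_congr rfl fun ν _ => Finset.sum_congr rfl fun k _ => ?_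
  ring

theorem rt_sum {N : Type} [Fintype N] (h : Matrix Bool Bool ℂ) (s : N → ℝ) (x : N → Fin 3 → ℝ)
    (a b : Bool) : rt h (fun k => ∑ ν, s ν * x ν k) a b = ∑ ν, (s ν : ℂ) * rt h (x ν) a b := by
  unfold rt
  simp only [Sx_sum, Finset.mul_sum, Finset.sum_mul]
  rw [Finset.sum_comm' (s := Finset.univ) (t := fun _ => Finset.univ) (t' := Finset.univ)
    (s' := fun _ => Finset.univ) (by simp)]
  rw [← Finset.sum_comm]
  simp only [Fintype.sum_bool, ← Finset.sum_add_distrib]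
  refine Finset.sum_congr rfl fun ν _ => ?_
  ring

theorem Mx_pencil {N : Type} [Fintype N] {ω : N → X → X → ℝ} {α γ : X → X → ℝ} {s t : N → ℝ}
    (h : ∀ ν p q, ω ν p q = s ν * α p q + t ν * γ p q) (x : N → Fin 3 → ℝ) :
    Mx ω x = fun u v : X × Bool => (α u.1 v.1 : ℂ) * Sx (fun k => ∑ ν, s ν * x ν k) u.2 v.2 +
      (γ u.1 v.1 : ℂ) * Sx (fun k => ∑ ν, t ν * x ν k) u.2 v.2 := by
  funext u v
  unfold Mx
  rw [Sx_sum, Sx_sum, Finset.mul_sum, Finset.mul_sum, ← Finset.sum_add_distrib]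
  refine Finset.sum_congr rfl fun ν _ => ?_
  rw [h]
  push_cast
  ring

theorem good_Mx_pencil {N : Type} [Fintype N] {ω : N → X → X → ℝ} {α γ : X → X → ℝ} {s t : N → ℝ}
    (h : ∀ ν p q, ω ν p q = s ν * α p q + t ν * γ p q) (x : N → Fin 3 → ℝ) : Good (Mx ω x) := by
  rw [Mx_pencil h]
  exact good_pencil α γ _ _

end pencil

end Pool.Agent.H15.Pf
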