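import Pool.Agent.H15.PfAll

/-!
# Three two-forms with the wrong sign in all dimensions at least six
-/

set_option autoImplicit false
set_option linter.unusedSectionVars false

namespace Pool.Agent.H15.Pf

open Finset Pool.Agent.W666.GB Pool.Agent.Y489.SM Pool.Agent.Q61.HP Pool.Agent.H15.GB

noncomputable def K8 : Matrix (Bool × Bool) (Bool × Bool) ℂ :=
  (!![1, 0, 0, 0; 0, 0, 0, 1; 0, 1, 0, 0; 0, 0, -1, 0] : Matrix (Fin 4) (Fin 4) ℂ).submatrix e4 e4

theorem K8_det : K8.det = -1 := by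
  unfold K8
  rw [Matrix.det_submatrix_equiv_self, Matrix.det_succ_row_zero]
  simp only [Fin.sum_univ_four, Matrix.det_fin_three, Matrix.submatrix_apply]
  simp [Fin.succAbove]

theorem Mx_wd (x : Fin 3 → Fin 3 → ℝ) (j k : Fin 3) (c d a b : Bool) :
    Mx wd x ((j, c), a) ((k, d), b) = if c = d then Nn x (j, a) (k, b) else 0 := by
  unfold Mx Nn wd
  split_ifs with h
  · rfl
  · simp

theorem conj_Nn (x : Fin 3 → Fin 3 → ℝ) (j k : Fin 3) (a b : Bool) :
    (starRingEnd ℂ) (Nn x (j, a) (k, b)) = (if a = b then -1 else 1) * Nn x (j, !a) (k, !b) := by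
  unfold Nn
  rw [map_sum, Finset.mul_sum]
  refine Finset.sum_congr rfl fun i _ => ?_
  rw [map_mul, Complex.conj_ofReal, conj_Sx]
  ring

theorem gd_wd (x : Fin 3 → Fin 3 → ℝ) : Gd (-1) (Mx wd x) := by
  refine Or.inl ⟨bj K8, -1, Nn x, by norm_num, ?_, ?_⟩
  · rw [bj_det, K8_det, Fintype.card_fin]
    norm_num
  · funext u v
    obtain ⟨⟨j, c⟩, a⟩ := u
    obtain ⟨⟨k, c'⟩, a'⟩ := v
    rw [cong_bj]
    simp only [Fintype.sum_prod_type, Fintype.sum_bool, Mx_wd]
    unfold dg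
    cases a <;> cases a' <;> cases c <;> cases c' <;>
      simp [K8, e4, conj_Nn]

theorem det_wd : (Matrix.of (Mx wd fun i => Pi.single i 1)).det ≠ 0 := by
  set R : (Fin 3 × Bool) × Bool ≃ (Fin 3 × Bool) × Bool :=
    { toFun := fun u => ((u.1.1, u.2), u.1.2)
      invFun := fun u => ((u.1.1, u.2), u.1.2)
      left_inv := fun _ => rfl
      right_inv := fun _ => rfl } with hR
  have h1 : Matrix.of (Mx wd fun i => Pi.single i 1) = (Matrix.blockDiagonal fun _ : Bool =>
      Matrix.of (Nn fun i => Pi.single i 1)).submatrix R R := by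
    ext u v
    obtain ⟨⟨j, c⟩, a⟩ := u
    obtain ⟨⟨k, d⟩, b⟩ := v
    rw [Matrix.of_apply, Mx_wd, Matrix.submatrix_apply, Matrix.blockDiagonal_apply]
    rfl
  rw [h1, Matrix.det_submatrix_equiv_self, Matrix.det_blockDiagonal, Nn_std,
    Matrix.det_submatrix_equiv_self, Finset.prod_const]
  exact pow_ne_zero _ N6_det

/-- the standard two-form, only in the first place -/
def stf {k : ℕ} (i : Fin 3) (u v : Fin k × Bool) : ℝ :=
  (if i = 0 then 1 else 0) *
    if u.1 = v.1 then (if u.2 = v.2 then 0 else if u.2 then -1 else 1) else 0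

theorem stf_skew {k : ℕ} (i : Fin 3) (u v : Fin k × Bool) : stf i u v = -stf i v u := by
  obtain ⟨p, a⟩ := u
  obtain ⟨q, b⟩ := v
  unfold stf
  by_cases hpq : p = q
  · subst hpq
    cases a <;> cases b <;> simp
  · simp only
    rw [if_neg hpq, if_neg (Ne.symm hpq)]
    simp

theorem det_stf {k : ℕ} : (Matrix.of (Mx (stf : Fin 3 → Fin k × Bool → Fin k × Bool → ℝ)
    fun i => Pi.single i 1)).det ≠ 0 := by
  set D : Matrix Bool Bool ℂ := fun a b => if a = b then 0 else if a then -1 else 1 with hD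
  set S : Matrix Bool Bool ℂ := fun a b => Sk 0 a b with hS
  have h1 : Matrix.of (Mx (stf : Fin 3 → Fin k × Bool → Fin k × Bool → ℝ) fun i => Pi.single i 1) =
      Matrix.kroneckerMap (· * ·) (bh D : Matrix (Fin k × Bool) (Fin k × Bool) ℂ) S := by
    ext u v
    obtain ⟨p, a⟩ := u
    obtain ⟨q, b⟩ := v
    rw [Matrix.of_apply, Matrix.kroneckerMap_apply, bh_apply]
    unfold Mx
    rw [Finset.sum_eq_single 0]
    · have e1 : Sx (Pi.single 0 1) a b = Sk 0 a b := by
        unfold Sx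
        rw [Fin.sum_univ_three]
        simp
      unfold stf
      simp only [e1, hS, hD, if_true, one_mul]
      congr 1
      split_ifs <;> simp
    · intro i _ hi
      unfold stf
      simp [hi]
    · intro h; exact absurd (mem_univ _) h
  have h2 : S.det = -1 := by
    rw [det_bool]
    have d1 : S false false = 0 := by rw [hS]; simp only; rw [Sk_ff]; simp
    have d2 : S false true = 1 := by rw [hS]; simp only; rw [Sk_ne]; simp
    have d3 : S true false = 1 := by rw [hS]; simp only; rw [Sk_ne']; simp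
    rw [d1, d2, d3]
    ring
  have h3 : D.det = 1 := by
    rw [det_bool]
    have d1 : D false false = 0 := rfl
    have d2 : D false true = 1 := rfl
    have d3 : D true false = -1 := rfl
    rw [d1, d2, d3]
    ring
  rw [h1, Matrix.det_kronecker, bh_det', h2, h3]
  simp

/-- the three forms -/
def w3 (k : ℕ) (i : Fin 3) (u v : Σ j : Fin 2, Fin (![3, k] j) × Bool) : ℝ :=
  match u, v with
  | ⟨0, u⟩, ⟨0, v⟩ => wd i u v
  | ⟨1, u⟩, ⟨1, v⟩ => stf i u v
  | ⟨0, _⟩, ⟨1, _⟩ => 0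
  | ⟨1, _⟩, ⟨0, _⟩ => 0

theorem w3_skew (k : ℕ) (i : Fin 3) (u v : Σ j : Fin 2, Fin (![3, k] j) × Bool) :
    w3 k i u v = -w3 k i v u := by
  obtain ⟨a, u⟩ := u
  obtain ⟨b, v⟩ := v
  fin_cases a <;> fin_cases b
  · exact wd_skew i u v
  · exact neg_zero.symm
  · exact neg_zero.symm
  · exact stf_skew i u v

theorem w3_off (k : ℕ) (i : Fin 3) {a b : Fin 2} (hab : a ≠ b) (u : Fin (![3, k] a) × Bool)
    (v : Fin (![3, k] b) × Bool) : w3 k i ⟨a, u⟩ ⟨b, v⟩ = 0 := by
  fin_cases a <;> fin_cases b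
  · exact absurd rfl hab
  · rfl
  · rfl
  · exact absurd rfl hab

theorem w3_off' (k : ℕ) (x : Fin 3 → Fin 3 → ℝ) (i j : Fin 2) (p : Fin (![3, k] i) × Bool)
    (q : Fin (![3, k] j) × Bool) (a b : Bool) (hij : i ≠ j) :
    Mx (w3 k) x (⟨i, p⟩, a) (⟨j, q⟩, b) = 0 := by
  unfold Mx
  refine Finset.sum_eq_zero fun ν _ => ?_
  simp only
  rw [w3_off k ν hij]
  simp

theorem gd_w3 (k : ℕ) (x : Fin 3 → Fin 3 → ℝ) : Gd (-1) (Mx (w3 k) x) := by
  have h1 : (-1 : ℝ) = ∏ i : Fin 2, (![-1, 1] : Fin 2 → ℝ) i := by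
    rw [Fin.prod_univ_two]
    simp
  rw [h1]
  refine Gd.sigma (w3_off' k x) ?_
  intro i
  fin_cases i
  · exact gd_wd x
  · refine Good.gd (good_Mx_pencil (ω := (stf : Fin 3 → Fin k × Bool → Fin k × Bool → ℝ))
      (α := stf 0) (γ := fun _ _ => 0) (s := fun i => if i = 0 then 1 else 0) (t := fun _ => 0) ?_ x)
    intro ν p q
    unfold stf
    simp

theorem det_w3 (k : ℕ) : (Matrix.of (Mx (w3 k) fun i => Pi.single i 1)).det ≠ 0 := by
  rw [det_sigma (w3_off' k _), Fin.prod_univ_two]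
  exact mul_ne_zero det_wd det_stf

variable {V : Type} [NormedAddCommGroup V] [InnerProductSpace ℝ V] {m : ℕ}

/-- forms with given coefficients -/
theorem exists_form (e : OrthonormalBasis (Fin m × Bool) ℝ V)
    (w : Fin m × Bool → Fin m × Bool → ℝ) (hw : ∀ p q, w p q = -w q p) :
    ∃ ω : V → V → ℝ, TwoForm ω ∧ ∀ p q, ω (e p) (e q) = w p q := by
  refine ⟨fun x y => ∑ p, ∑ q, w p q * (inner ℝ (e p) x * inner ℝ (e q) y),
    ⟨fun x x' y => ?_, fun t x y => ?_, fun x y => ?_⟩, fun p q => ?_⟩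
  · rw [← Finset.sum_add_distrib]
    refine Finset.sum_congr rfl fun p _ => ?_
    rw [← Finset.sum_add_distrib]
    refine Finset.sum_congr rfl fun q _ => ?_
    rw [inner_add_right]
    ring
  · rw [Finset.mul_sum]
    refine Finset.sum_congr rfl fun p _ => ?_
    rw [Finset.mul_sum]
    refine Finset.sum_congr rfl fun q _ => ?_
    rw [inner_smul_right]
    ring
  · rw [Finset.sum_comm, ← Finset.sum_neg_distrib]
    refine Finset.sum_congr rfl fun p _ => ?_
    rw [← Finset.sum_neg_distrib]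
    refine Finset.sum_congr rfl fun q _ => ?_
    rw [hw]
    ring
  · have h4 : ∀ p q, inner ℝ (e p) (e q) = if p = q then (1 : ℝ) else 0 := fun p q =>
      orthonormal_iff_ite.1 e.orthonormal p q
    simp only [h4]
    simp

/-- **Three two-forms with the wrong sign in every dimension at least six.** -/
theorem three_all (hm : 3 ≤ m) (e : OrthonormalBasis (Fin m × Bool) ℝ V) :
    ∃ ω : Fin 3 → V → V → ℝ, (∀ ν, TwoForm (ω ν)) ∧ (-1) ^ m * gbc e (tfT ω) < 0 := by
  obtain ⟨k, rfl⟩ := Nat.exists_eq_add_of_le hm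
  have hc : Fintype.card (Fin (3 + k) × Bool) =
      Fintype.card (Σ j : Fin 2, Fin (![3, k] j) × Bool) := by
    have hcj : ∀ j : Fin 2, Fintype.card (Fin (![3, k] j) × Bool) = ![3, k] j * 2 := by
      intro j
      rw [Fintype.card_prod, Fintype.card_fin, Fintype.card_bool]
    rw [Fintype.card_sigma, Fin.sum_univ_two, hcj, hcj, Fintype.card_prod, Fintype.card_fin,
      Fintype.card_bool]
    simp only [Matrix.cons_val_zero, Matrix.cons_val_one]
    ring
  set E : Fin (3 + k) × Bool ≃ Σ j : Fin 2, Fin (![3, k] j) × Bool := Fintype.equivOfCardEq hc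
  set w : Fin 3 → Fin (3 + k) × Bool → Fin (3 + k) × Bool → ℝ :=
    fun i p q => w3 k i (E p) (E q) with hw
  have hwsk : ∀ i p q, w i p q = -w i q p := fun i p q => w3_skew k i _ _
  choose ω h2 h3 using fun i => exists_form e (w i) (hwsk i)
  refine ⟨ω, h2, ?_⟩
  have hG : ∀ x : Fin 3 → Fin 3 → ℝ, Gd (-1) (Mx w x) := fun x => (gd_w3 k x).reindex E
  choose f hf0 hf using fun x => gd_val (hG x)
  obtain ⟨r, h5, h6, h7⟩ := sign_aux w hwsk f hf (-1) hf0
  have h8 : 0 < -1 * r := by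
    refine h7 (by norm_num) ⟨fun i => Pi.single i 1, ?_⟩
    refine tl_ne (Mx_skew hwsk _) ?_
    have h9 : Matrix.of (Mx w fun i => Pi.single i 1) =
        (Matrix.of (Mx (w3 k) fun i => Pi.single i 1)).submatrix
          (E.prodCongr (Equiv.refl Bool)) (E.prodCongr (Equiv.refl Bool)) := rfl
    rw [h9, Matrix.det_submatrix_equiv_self]
    exact det_w3 k
  have h12 : rsum (fun p q r s => ∑ ν, (ω ν (e p) (e r) * ω ν (e q) (e s) +
      ω ν (e p) (e q) * ω ν (e r) (e s))) = r := by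
    have h11 := rsum_cast (fun p q r s => ∑ ν, (ω ν (e p) (e r) * ω ν (e q) (e s) +
      ω ν (e p) (e q) * ω ν (e r) (e s)))
    have h13 : (dsum fun p q r s => ((∑ ν, (ω ν (e p) (e r) * ω ν (e q) (e s) +
      ω ν (e p) (e q) * ω ν (e r) (e s)) : ℝ) : ℂ)) = (r : ℂ) := by
      rw [← h6]
      congr 1
      funext p q r s
      simp only [h3]
      push_cast
      rfl
    rw [h13] at h11
    exact_mod_cast h11
  have h14 := dd_tfT ω (e : Fin (3 + k) × Bool → V)
  rw [h12] at h14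
  rw [gbc_dd, mul_left_comm, h14]
  have hπ := Real.pi_pos
  have h15 : 0 < 1 / ((8 * Real.pi) ^ (3 + k) * ((3 + k).factorial : ℝ)) := by positivity
  have h16 : (0 : ℝ) < 2 ^ (3 + k) := by positivity
  have h17 : 1 / ((8 * Real.pi) ^ (3 + k) * ((3 + k).factorial : ℝ)) * (2 ^ (3 + k) * r) =
      -(1 / ((8 * Real.pi) ^ (3 + k) * ((3 + k).factorial : ℝ)) * (2 ^ (3 + k) * (-1 * r))) := by
    ring
  rw [h17]
  exact neg_neg_of_pos (mul_pos h15 (mul_pos h16 h8))

end Pool.Agent.H15.Pf
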