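import Pool.Agent.H15.PfPen
import Pool.Agent.H15.PfGB

/-!
# The sign for two arbitrary two-forms
-/

set_option autoImplicit false
set_option linter.unusedSectionVars false

namespace Pool.Agent.H15.Pf

open Finset Pool.Agent.W666.GB Pool.Agent.Y489.SM Pool.Agent.Q61.HP Pool.Agent.H15.GB

variable {V : Type} [NormedAddCommGroup V] [InnerProductSpace ℝ V] {m : ℕ}

/-- degenerate forms -/
def Degen (ω : V → V → ℝ) : Prop := ∃ x : V, x ≠ 0 ∧ ∀ y, ω x y = 0

theorem degen_det {ω : V → V → ℝ} (hω : TwoForm ω) (f : Module.Basis (Fin m × Bool) ℝ V) :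
    Degen ω ↔ (Matrix.of fun p q => ω (f p) (f q)).det = 0 := by
  have hsum1 : ∀ (c : Fin m × Bool → ℝ) (y : V), ω (∑ p, c p • f p) y = ∑ p, c p * ω (f p) y := by
    intro c y
    rw [hω.skew, hω.sum2, ← Finset.sum_neg_distrib]
    refine Finset.sum_congr rfl fun p _ => ?_
    rw [hω.smul2, hω.skew y]
    ring
  rw [← Matrix.exists_vecMul_eq_zero_iff]
  constructor
  · rintro ⟨x, hx, h⟩
    refine ⟨fun p => f.repr x p, ?_, ?_⟩
    · intro h0
      apply hx
      rw [← f.sum_repr x]
      refine Finset.sum_eq_zero fun p _ => ?_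
      rw [show f.repr x p = 0 from congrFun h0 p, zero_smul]
    · funext q
      have h1 := h (f q)
      rw [← f.sum_repr x, hsum1] at h1
      exact h1
  · rintro ⟨v, hv, h⟩
    refine ⟨∑ p, v p • f p, ?_, ?_⟩
    · intro h0
      apply hv
      have h1 := congrArg f.repr h0
      funext p
      have h2 := congrArg (fun g => g p) h1
      simpa [Module.Basis.repr_self, Finsupp.single_apply] using h2
    · intro y
      rw [hsum1]
      have h1 : ∀ q, ∑ p, v p * ω (f p) (f q) = 0 := fun q => congrFun h q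
      rw [← f.sum_repr y]
      simp only [hω.sum2, hω.smul2, Finset.mul_sum]
      rw [Finset.sum_comm]
      refine Finset.sum_eq_zero fun q _ => ?_
      have h2 : ∑ p, v p * (f.repr y q * ω (f p) (f q)) =
          f.repr y q * ∑ p, v p * ω (f p) (f q) := by
        rw [Finset.mul_sum]
        refine Finset.sum_congr rfl fun p _ => ?_
        ring
      rw [h2, h1, mul_zero]

theorem comb_two {N : Type} [Fintype N] {ω : N → V → V → ℝ} (hω : ∀ ν, TwoForm (ω ν))
    (c : N → ℝ) : TwoForm fun x y => ∑ ν, c ν * ω ν x y where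
  add x x' y := by
    rw [← Finset.sum_add_distrib]
    refine Finset.sum_congr rfl fun ν _ => ?_
    rw [(hω ν).add]
    ring
  smul t x y := by
    rw [Finset.mul_sum]
    refine Finset.sum_congr rfl fun ν _ => ?_
    rw [(hω ν).smul]
    ring
  skew x y := by
    rw [← Finset.sum_neg_distrib]
    refine Finset.sum_congr rfl fun ν _ => ?_
    rw [(hω ν).skew]
    ring

theorem gbc_sign' {N : Type} [Fintype N] [DecidableEq N] {ω : N → V → V → ℝ}
    (hω : ∀ ν, TwoForm (ω ν)) (e : OrthonormalBasis (Fin m × Bool) ℝ V)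
    (f : Module.Basis (Fin m × Bool) ℝ V)
    (hg : ∀ x : N → Fin 3 → ℝ, Good (Mx (fun ν p q => ω ν (f p) (f q)) x)) :
    0 ≤ (-1) ^ m * gbc e (tfT ω) ∧
      ((∃ x : N → Fin 3 → ℝ, tl (qq (Mx (fun ν p q => ω ν (f p) (f q)) x) ^ (2 * m)) ≠ 0) →
        0 < (-1) ^ m * gbc e (tfT ω)) := by
  set ω' : Option N → V → V → ℝ := fun o => o.elim (fun _ _ => 0) ω with hω'
  have hM : ∀ x : Option N → Fin 3 → ℝ, Mx (fun ν p q => ω' ν (f p) (f q)) x =
      Mx (fun ν p q => ω ν (f p) (f q)) (fun ν => x (some ν)) := by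
    intro x
    funext u v
    unfold Mx
    rw [Fintype.sum_option]
    simp [hω']
  have hT : tfT ω' = tfT ω := by
    funext x y z w
    unfold tfT
    rw [Fintype.sum_option]
    simp [hω']
  have h1 : ∀ o, TwoForm (ω' o) := by
    rintro (_ | ν)
    · exact ⟨fun _ _ _ => by simp [hω'], fun _ _ _ => by simp [hω'], fun _ _ => by simp [hω']⟩
    · exact hω ν
  obtain ⟨h2, h3⟩ := gbc_sign h1 e f (fun x => by rw [hM]; exact hg _)
  rw [hT] at h2 h3
  refine ⟨h2, fun ⟨x, hx⟩ => h3 ⟨fun o => o.elim 0 x, ?_⟩⟩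
  rw [hM]
  exact hx

/-- **The sign and the equality case for two-forms in a pencil.** -/
theorem fam_sign {N : Type} [Fintype N] [DecidableEq N]
    (e : OrthonormalBasis (Fin m × Bool) ℝ V) {ω : N → V → V → ℝ} (hω : ∀ ν, TwoForm (ω ν))
    {α γ : V → V → ℝ} {s t : N → ℝ} (hp : ∀ ν x y, ω ν x y = s ν * α x y + t ν * γ x y) :
    0 ≤ (-1) ^ m * gbc e (tfT ω) ∧
      ((-1) ^ m * gbc e (tfT ω) = 0 ↔ ∀ c : N → ℝ, Degen fun x y => ∑ ν, c ν * ω ν x y) := by
  have hp' : ∀ ν p q, ω ν (e.toBasis p) (e.toBasis q) =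
      s ν * α (e.toBasis p) (e.toBasis q) + t ν * γ (e.toBasis p) (e.toBasis q) :=
    fun ν p q => hp ν _ _
  obtain ⟨h1, h2⟩ := gbc_sign' hω e e.toBasis (fun x => good_Mx_pencil hp' x)
  refine ⟨h1, ?_, ?_⟩
  · intro h0 c
    by_contra hnd
    rw [degen_det (comb_two hω _) e.toBasis] at hnd
    have h4 := comb_ne (ω := fun ν p q => ω ν (e.toBasis p) (e.toBasis q))
      (fun ν p q => (hω ν).skew _ _) c hnd
    rw [Fintype.card_fin] at h4
    exact (h2 h4).ne' h0
  · intro hdeg
    have hdet : ∀ c : N → ℝ, (Matrix.of fun p q =>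
        ∑ ν, c ν * ω ν (e.toBasis p) (e.toBasis q)).det = 0 := by
      intro c
      have h4 := hdeg c
      rw [degen_det (comb_two hω _) e.toBasis] at h4
      exact h4
    have hz : ∀ x : N → Fin 3 → ℝ,
        tl (qq (Mx (fun ν p q => ω ν (e.toBasis p) (e.toBasis q)) x) ^ (2 * Fintype.card (Fin m))) =
          0 := fun x => fam_zero (fun ν p q => (hω ν).skew _ _) hp' hdet x
    -- reduce to a nonempty index set
    set ω' : Option N → V → V → ℝ := fun o => o.elim (fun _ _ => 0) ω with hω'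
    have hM : ∀ x : Option N → Fin 3 → ℝ,
        Mx (fun ν p q => ω' ν (e.toBasis p) (e.toBasis q)) x =
        Mx (fun ν p q => ω ν (e.toBasis p) (e.toBasis q)) (fun ν => x (some ν)) := by
      intro x
      funext u v
      unfold Mx
      rw [Fintype.sum_option]
      simp [hω']
    have hT : tfT ω' = tfT ω := by
      funext x y z w
      unfold tfT
      rw [Fintype.sum_option]
      simp [hω']
    have h1' : ∀ o, TwoForm (ω' o) := by
      rintro (_ | ν)
      · exact ⟨fun _ _ _ => by simp [hω'], fun _ _ _ => by simp [hω'], fun _ _ => by simp [hω']⟩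
      · exact hω ν
    obtain ⟨r, h3, h4, -⟩ := sign_aux (fun ν p q => ω' ν (e.toBasis p) (e.toBasis q))
      (fun ν p q => (h1' ν).skew _ _) (fun _ => 0) (fun x => by rw [hM, hz]; simp) (-1)
      (fun x => by simp)
    obtain ⟨r', h5, h6, -⟩ := sign (fun ν p q => ω' ν (e.toBasis p) (e.toBasis q))
      (fun ν p q => (h1' ν).skew _ _) (fun x => by rw [hM]; exact good_Mx_pencil hp' _)
    have h7 : (r : ℂ) = (r' : ℂ) := by rw [← h4, ← h6]
    have h8 : r = r' := by exact_mod_cast h7
    have h9 : r = 0 := by linarith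
    rw [h9] at h4
    have h10 : rsum (fun p q r s => ∑ ν, (ω' ν (e.toBasis p) (e.toBasis r) *
        ω' ν (e.toBasis q) (e.toBasis s) + ω' ν (e.toBasis p) (e.toBasis q) *
        ω' ν (e.toBasis r) (e.toBasis s))) = 0 := by
      have h11 := rsum_cast (fun p q r s => ∑ ν, (ω' ν (e.toBasis p) (e.toBasis r) *
        ω' ν (e.toBasis q) (e.toBasis s) + ω' ν (e.toBasis p) (e.toBasis q) *
        ω' ν (e.toBasis r) (e.toBasis s)))
      have h12 : (dsum fun p q r s => ((∑ ν, (ω' ν (e.toBasis p) (e.toBasis r) *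
        ω' ν (e.toBasis q) (e.toBasis s) + ω' ν (e.toBasis p) (e.toBasis q) *
        ω' ν (e.toBasis r) (e.toBasis s)) : ℝ) : ℂ)) = ((0 : ℝ) : ℂ) := by
        rw [← h4]
        congr 1
        funext p q r s
        push_cast
        rfl
      rw [h12] at h11
      exact_mod_cast h11
    have h13 := dd_tfT ω' (e.toBasis : Fin m × Bool → V)
    rw [h10, mul_zero, hT] at h13
    rw [gbc_dd, mul_left_comm]
    have h14 : (e.toBasis : Fin m × Bool → V) = e := e.coe_toBasis
    rw [h14] at h13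
    rw [h13, mul_zero]

end Pool.Agent.H15.Pf
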