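import Pool.Agent.H15.PfTF

/-!
# Block decompositions
-/

set_option autoImplicit false
set_option linter.unusedSectionVars false

namespace Pool.Agent.H15.Pf

open Finset Pool.Agent.W666.GB Pool.Agent.Y489.SM Pool.Agent.Q61.HP Pool.Agent.H15.GB

section sumtype

variable {N : Type} [Fintype N]

theorem Mx_skew {X : Type} {ω : N → X → X → ℝ} (hω : ∀ ν p q, ω ν p q = -ω ν q p)
    (x : N → Fin 3 → ℝ) (u v : X × Bool) : Mx ω x u v = -Mx ω x v u := by
  unfold Mx
  rw [← Finset.sum_neg_distrib]
  refine Finset.sum_congr rfl fun ν _ => ?_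
  rw [hω ν u.1 v.1, Sx_symm (x ν) u.2 v.2]
  push_cast
  ring

theorem deg_skew {Y : Type} [Fintype Y] [DecidableEq Y] {M : Y → Y → ℂ}
    (hM : ∀ u v, M u v = -M v u) {v : Y → ℂ} (hv : v ≠ 0) (h : ∀ u, ∑ w, M u w * v w = 0) :
    Deg M := by
  refine ⟨v, hv, h, fun u => ?_⟩
  have h1 := h u
  have h2 : ∑ w, v w * M w u = -∑ w, M u w * v w := by
    rw [← Finset.sum_neg_distrib]
    refine Finset.sum_congr rfl fun w _ => ?_
    rw [hM w u]
    ring
  rw [h2, h1, neg_zero]

variable {A A' : Type} [Fintype A] [DecidableEq A] [Fintype A'] [DecidableEq A']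

/-- one isotropic part of too large dimension -/
theorem good_big {ω : N → A ⊕ A' → A ⊕ A' → ℝ} (hω : ∀ ν p q, ω ν p q = -ω ν q p)
    (h2 : ∀ ν i j, ω ν (Sum.inr i) (Sum.inr j) = 0) (hc : Fintype.card A < Fintype.card A')
    (x : N → Fin 3 → ℝ) : Good (Mx ω x) := by
  set L : (A' × Bool → ℂ) →ₗ[ℂ] (A × Bool → ℂ) :=
    Matrix.toLin' (Matrix.of fun (u : A × Bool) (w : A' × Bool) =>
      Mx ω x (Sum.inl u.1, u.2) (Sum.inr w.1, w.2)) with hL
  have h3 : LinearMap.ker L ≠ ⊥ := LinearMap.ker_ne_bot_of_finrank_lt (by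
    rw [Module.finrank_fintype_fun_eq_card, Module.finrank_fintype_fun_eq_card, Fintype.card_prod,
      Fintype.card_prod, Fintype.card_bool]
    omega)
  obtain ⟨v, hv, hv0⟩ := Submodule.exists_mem_ne_zero_of_ne_bot h3
  have h4 : ∀ u : A × Bool, ∑ w : A' × Bool, Mx ω x (Sum.inl u.1, u.2) (Sum.inr w.1, w.2) * v w = 0 := by
    intro u
    have h5 : L v = 0 := hv
    have h6 := congrFun h5 u
    rw [hL, Matrix.toLin'_apply] at h6
    exact h6
  refine Or.inr (deg_skew (Mx_skew hω x) (v := fun w => Sum.elim (fun _ => 0)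
    (fun j => v (j, w.2)) w.1) ?_ ?_)
  · intro h
    apply hv0
    funext w
    have := congrFun h (Sum.inr w.1, w.2)
    simpa using this
  · rintro ⟨u, a⟩
    rw [Fintype.sum_prod_type, Fintype.sum_sum_type]
    have e1 : ∑ i : A, ∑ b : Bool, Mx ω x (u, a) (Sum.inl i, b) *
        Sum.elim (fun _ => (0 : ℂ)) (fun j => v (j, b)) (Sum.inl i : A ⊕ A') = 0 := by
      simp
    simp only [e1, zero_add, Sum.elim_inr]
    rcases u with i | j
    · have := h4 (i, a)
      rw [Fintype.sum_prod_type] at this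
      exact this
    · refine Finset.sum_eq_zero fun k _ => Finset.sum_eq_zero fun b _ => ?_
      have : Mx ω x (Sum.inr j, a) (Sum.inr k, b) = 0 := by
        unfold Mx
        simp [h2]
      rw [this, zero_mul]

theorem good_sum {ω : N → A ⊕ A' → A ⊕ A' → ℝ} (hω : ∀ ν p q, ω ν p q = -ω ν q p)
    (h1 : ∀ ν i j, ω ν (Sum.inl i) (Sum.inl j) = 0)
    (h2 : ∀ ν i j, ω ν (Sum.inr i) (Sum.inr j) = 0) (x : N → Fin 3 → ℝ) : Good (Mx ω x) := by
  rcases lt_trichotomy (Fintype.card A) (Fintype.card A') with h | h | h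
  · exact good_big hω h2 h x
  · set e : A ≃ A' := Fintype.equivOfCardEq h with he
    set E : A ⊕ A' ≃ A × Bool :=
      { toFun := Sum.elim (fun i => (i, false)) fun j => (e.symm j, true)
        invFun := fun w => if w.2 then Sum.inr (e w.1) else Sum.inl w.1
        left_inv := by
          rintro (i | j)
          · simp
          · simp
        right_inv := by
          rintro ⟨i, b⟩
          cases b <;> simp } with hE
    have h3 : Good (Mx (fun ν (p q : A × Bool) => ω ν (E.symm p) (E.symm q)) x) := by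
      refine good_bip _ (fun ν p q => hω ν _ _) ?_ x
      intro ν j k c
      cases c
      · exact h1 ν j k
      · exact h2 ν (e j) (e k)
    have h4 := h3.reindex E
    have h5 : (fun u v : (A ⊕ A') × Bool => Mx (fun ν (p q : A × Bool) => ω ν (E.symm p) (E.symm q)) x
        (E u.1, u.2) (E v.1, v.2)) = Mx ω x := by
      funext u v
      unfold Mx
      simp only [Equiv.symm_apply_apply]
    rw [h5] at h4
    exact h4
  · have h3 : Good (Mx (fun ν (p q : A' ⊕ A) => ω ν (Equiv.sumComm A' A p) (Equiv.sumComm A' A q)) x) :=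
      good_big (fun ν p q => hω ν _ _) (fun ν i j => h1 ν i j) h x
    have h4 := h3.reindex (Equiv.sumComm A A')
    have h5 : (fun u v : (A ⊕ A') × Bool => Mx (fun ν (p q : A' ⊕ A) =>
        ω ν (Equiv.sumComm A' A p) (Equiv.sumComm A' A q)) x
        (Equiv.sumComm A A' u.1, u.2) (Equiv.sumComm A A' v.1, v.2)) = Mx ω x := by
      funext u v
      unfold Mx
      simp
    rw [h5] at h4
    exact h4

end sumtype

variable {V : Type} [NormedAddCommGroup V] [InnerProductSpace ℝ V] {m : ℕ}

/-- The restrictions of the forms to `W` are in the span of two functions, or there is an operator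
`κ` of `W` with `κ² = 1` or `κ² = -1` and `ω (κ x) (κ y) = - ω x y` for all forms of the family. -/
def Tame {N : Type} (W : Submodule ℝ V) (ω : N → V → V → ℝ) : Prop :=
  (∃ α γ : V → V → ℝ, ∀ ν, ∃ s t : ℝ, ∀ x ∈ W, ∀ y ∈ W, ω ν x y = s * α x y + t * γ x y) ∨
  ∃ (κ : V →ₗ[ℝ] V) (ε : ℝ), (ε = 1 ∨ ε = -1) ∧ (∀ x ∈ W, κ x ∈ W ∧ κ (κ x) = ε • x) ∧
    ∀ ν, ∀ x ∈ W, ∀ y ∈ W, ω ν (κ x) (κ y) = -ω ν x y

theorem basis_any {N : Type} [Fintype N] {W : Submodule ℝ V} {ω : N → V → V → ℝ}
    {X : Type} [Fintype X] [DecidableEq X] (f : Module.Basis X ℝ W)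
    (h : ∀ x : N → Fin 3 → ℝ, Good (Mx (fun ν (p q : X) => ω ν (f p) (f q)) x)) :
    ∃ g : Module.Basis (Fin (Module.finrank ℝ W)) ℝ W,
      ∀ x : N → Fin 3 → ℝ, Good (Mx (fun ν p q => ω ν (g p) (g q)) x) := by
  have hc : Fintype.card X = Fintype.card (Fin (Module.finrank ℝ W)) := by
    rw [Module.finrank_eq_card_basis f, Fintype.card_fin]
  set e : X ≃ Fin (Module.finrank ℝ W) := Fintype.equivOfCardEq hc
  refine ⟨f.reindex e, fun x => ?_⟩
  have h1 := (h x).reindex e.symm
  have h2 : (fun u v : Fin (Module.finrank ℝ W) × Bool => Mx (fun ν (p q : X) => ω ν (f p) (f q)) x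
      (e.symm u.1, u.2) (e.symm v.1, v.2)) = Mx (fun ν p q => ω ν (f.reindex e p) (f.reindex e q)) x := by
    funext u v
    unfold Mx
    simp only [Module.Basis.reindex_apply]
  rw [h2] at h1
  exact h1

theorem tame_basis [FiniteDimensional ℝ V] {N : Type} [Fintype N] {W : Submodule ℝ V}
    {ω : N → V → V → ℝ} (hω : ∀ ν, TwoForm (ω ν)) (hW : Tame W ω) :
    ∃ g : Module.Basis (Fin (Module.finrank ℝ W)) ℝ W,
      ∀ x : N → Fin 3 → ℝ, Good (Mx (fun ν p q => ω ν (g p) (g q)) x) := by
  rcases hW with ⟨α, γ, h⟩ | ⟨κ, ε, hε, hκ, hκω⟩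
  · choose s t hst using h
    refine ⟨Module.finBasis ℝ W, fun x => ?_⟩
    exact good_Mx_pencil (α := fun p q => α (Module.finBasis ℝ W p) (Module.finBasis ℝ W q))
      (γ := fun p q => γ (Module.finBasis ℝ W p) (Module.finBasis ℝ W q)) (s := s) (t := t)
      (fun ν p q => hst ν _ (Module.finBasis ℝ W p).2 _ (Module.finBasis ℝ W q).2) x
  · set K : W →ₗ[ℝ] W := κ.restrict fun x hx => (hκ x hx).1 with hK
    have hKa : ∀ x : W, ((K x : W) : V) = κ x := fun x => rfl
    have hKK : ∀ x : W, K (K x) = ε • x := by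
      intro x
      apply Subtype.ext
      rw [hKa, hKa, (hκ x x.2).2]
      rfl
    have hKω : ∀ ν (x y : W), ω ν (K x) (K y) = -ω ν x y := fun ν x y => hκω ν x x.2 y y.2
    rcases hε with rfl | rfl
    · simp only [one_smul] at hKK
      set U : Submodule ℝ W := LinearMap.ker (K - LinearMap.id) with hU
      set U' : Submodule ℝ W := LinearMap.ker (K + LinearMap.id) with hU'
      have mU : ∀ x : W, x ∈ U ↔ K x = x := by
        intro x
        rw [hU, LinearMap.mem_ker, LinearMap.sub_apply, LinearMap.id_apply, sub_eq_zero]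
      have mU' : ∀ x : W, x ∈ U' ↔ K x = -x := by
        intro x
        rw [hU', LinearMap.mem_ker, LinearMap.add_apply, LinearMap.id_apply, add_eq_zero_iff_eq_neg]
      have hcompl : IsCompl U U' := by
        constructor
        · rw [Submodule.disjoint_def]
          intro x h1 h2
          rw [mU] at h1
          rw [mU'] at h2
          rw [h1] at h2
          have h3 : (2 : ℝ) • x = 0 := by
            rw [two_smul]
            nth_rw 1 [h2]
            exact neg_add_cancel _
          exact (smul_eq_zero.1 h3).resolve_left two_ne_zero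
        · rw [codisjoint_iff, eq_top_iff]
          intro x _
          rw [Submodule.mem_sup]
          refine ⟨(1 / 2 : ℝ) • (x + K x), ?_, (1 / 2 : ℝ) • (x - K x), ?_, ?_⟩
          · rw [mU, map_smul, map_add, hKK, add_comm]
          · rw [mU', map_smul, map_sub, hKK, ← smul_neg, neg_sub]
          · rw [← smul_add, add_add_sub_cancel, ← two_smul ℝ x, smul_smul]
            norm_num
      set b := Module.finBasis ℝ U
      set b' := Module.finBasis ℝ U'
      set f := (b.prod b').map (Submodule.prodEquivOfIsCompl U U' hcompl) with hf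
      have f1 : ∀ i, f (Sum.inl i) = (b i : W) := by
        intro i
        rw [hf, Module.Basis.map_apply, Module.Basis.prod_apply]
        simp
      have f2 : ∀ i, f (Sum.inr i) = (b' i : W) := by
        intro i
        rw [hf, Module.Basis.map_apply, Module.Basis.prod_apply]
        simp
      refine basis_any f fun x => good_sum (fun ν p q => (hω ν).skew _ _) ?_ ?_ x
      · intro ν i j
        rw [f1, f1]
        have h1 := hKω ν (b i) (b j)
        rw [(mU _).1 (b i).2, (mU _).1 (b j).2] at h1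
        linarith
      · intro ν i j
        rw [f2, f2]
        have h1 := hKω ν (b' i) (b' j)
        rw [(mU' _).1 (b' i).2, (mU' _).1 (b' j).2, Submodule.coe_neg, Submodule.coe_neg,
          ← neg_one_smul ℝ ((b' i : W) : V), (hω ν).smul, ← neg_one_smul ℝ ((b' j : W) : V),
          (hω ν).smul2] at h1
        linarith
    · have hKK' : (K : Module.End ℝ W) * K = -1 := by
        ext x
        rw [Module.End.mul_apply, hKK]
        simp
      set φ : ℂ →ₐ[ℝ] Module.End ℝ W := Complex.liftAux K hKK' with hφ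
      have hφI : φ Complex.I = K := Complex.liftAux_apply_I _ _
      let _ : Module ℂ W := Module.compHom W φ.toRingHom
      have hs : ∀ (z : ℂ) (x : W), z • x = φ z x := fun _ _ => rfl
      have : IsScalarTower ℝ ℂ W := ⟨fun r z x => by
        rw [hs, hs, map_smul]
        rfl⟩
      have : Module.Finite ℂ W := Module.Finite.of_restrictScalars_finite ℝ ℂ W
      set c := Module.finBasis ℂ W
      set f := (Complex.basisOneI.smulTower c).reindex
        ((Equiv.prodComm (Fin 2) (Fin (Module.finrank ℂ W))).trans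
          ((Equiv.refl _).prodCongr finTwoEquiv)) with hf
      have f1 : ∀ j, f (j, false) = c j := by
        intro j
        rw [hf, Module.Basis.reindex_apply, Module.Basis.smulTower_apply]
        change Complex.basisOneI 0 • c j = c j
        rw [Complex.coe_basisOneI]
        simp
      have f2 : ∀ j, f (j, true) = K (c j) := by
        intro j
        rw [hf, Module.Basis.reindex_apply, Module.Basis.smulTower_apply]
        change Complex.basisOneI 1 • c j = K (c j)
        rw [Complex.coe_basisOneI]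
        simp only [Matrix.cons_val_one, Matrix.cons_val_zero]
        rw [hs, hφI]
      refine basis_any f fun x => good_cx _ ?_ ?_ x
      · intro ν j k
        rw [f1, f1, f2, f2]
        exact hKω ν _ _
      · intro ν j k
        rw [f1, f1, f2, f2]
        have h1 := hKω ν (c j) (K (c k))
        rw [hKK, neg_one_smul, Submodule.coe_neg, ← neg_one_smul ℝ ((c k : W) : V),
          (hω ν).smul2] at h1
        linarith

/-- **The sign for block decompositions.** -/
theorem blocks_sign {N : Type} [Fintype N] [DecidableEq N] {r : ℕ} {W : Fin r → Submodule ℝ V}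
    (hW : DirectSum.IsInternal W) {ω : N → V → V → ℝ} (hω : ∀ ν, TwoForm (ω ν))
    (horth : ∀ i j, i ≠ j → ∀ ν, ∀ x ∈ W i, ∀ y ∈ W j, ω ν x y = 0) (htame : ∀ i, Tame (W i) ω)
    (e : OrthonormalBasis (Fin m × Bool) ℝ V) :
    0 ≤ (-1) ^ m * gbc e (tfT ω) ∧
      ((∃ c : N → ℝ, ¬ Degen fun x y => ∑ ν, c ν * ω ν x y) → 0 < (-1) ^ m * gbc e (tfT ω)) := by
  have hfin : FiniteDimensional ℝ V := e.toBasis.finiteDimensional_of_finite
  choose g hg using fun i => tame_basis hω (htame i)
  set F := hW.collectedBasis g with hF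
  have hFa : ∀ a, F a = g a.1 a.2 := by
    intro a
    rw [hF, DirectSum.IsInternal.collectedBasis_coe]
  have hc : Fintype.card (Fin m × Bool) = Fintype.card (Σ i, Fin (Module.finrank ℝ (W i))) := by
    rw [← Module.finrank_eq_card_basis e.toBasis, ← Module.finrank_eq_card_basis F]
  set E : Fin m × Bool ≃ Σ i, Fin (Module.finrank ℝ (W i)) := Fintype.equivOfCardEq hc
  set F' := F.reindex E.symm with hF'
  have h1 : ∀ x : N → Fin 3 → ℝ, Good (Mx (fun ν p q => ω ν (F p) (F q)) x) := by
    intro x
    refine Good.sigma ?_ ?_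
    · intro i j p q a b hij
      unfold Mx
      refine Finset.sum_eq_zero fun ν _ => ?_
      simp only [hFa]
      rw [horth i j hij ν _ (g i p).2 _ (g j q).2]
      simp
    · intro i
      have h2 := hg i x
      have h3 : (fun u v : Fin (Module.finrank ℝ (W i)) × Bool =>
          Mx (fun ν (p q : Σ i, Fin (Module.finrank ℝ (W i))) => ω ν (F p) (F q)) x
            (⟨i, u.1⟩, u.2) (⟨i, v.1⟩, v.2)) = Mx (fun ν p q => ω ν (g i p) (g i q)) x := by
        funext u v
        unfold Mx
        simp only [hFa]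
      rw [h3]
      exact h2
  have h4 : ∀ x : N → Fin 3 → ℝ, Good (Mx (fun ν p q => ω ν (F' p) (F' q)) x) := by
    intro x
    have h5 := (h1 x).reindex E
    have h6 : (fun u v : (Fin m × Bool) × Bool => Mx (fun ν p q => ω ν (F p) (F q)) x
        (E u.1, u.2) (E v.1, v.2)) = Mx (fun ν p q => ω ν (F' p) (F' q)) x := by
      funext u v
      unfold Mx
      simp only [hF', Module.Basis.reindex_apply, Equiv.symm_symm]
    rw [h6] at h5
    exact h5
  obtain ⟨h7, h8⟩ := gbc_sign' hω e F' h4
  refine ⟨h7, fun ⟨c, hc⟩ => h8 ?_⟩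
  rw [degen_det (comb_two hω c) F'] at hc
  have h9 := comb_ne (ω := fun ν p q => ω ν (F' p) (F' q)) (fun ν p q => (hω ν).skew _ _) c hc
  rw [Fintype.card_fin] at h9
  exact h9

end Pool.Agent.H15.Pf
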