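import Pool.Agent.H15.PfTame

/-!
# Three two-forms in dimension six
-/

set_option autoImplicit false
set_option linter.unusedSectionVars false

namespace Pool.Agent.H15.Pf

open Finset Pool.Agent.W666.GB Pool.Agent.Y489.SM Pool.Agent.Q61.HP Pool.Agent.H15.GB

/-- the three basic skew matrices of size three -/
def lc (i p q : Fin 3) : ℝ :=
  ![![![0, 0, 0], ![0, 0, 1], ![0, -1, 0]], ![![0, 0, -1], ![0, 0, 0], ![1, 0, 0]],
    ![![0, 1, 0], ![-1, 0, 0], ![0, 0, 0]]] i p q

theorem lc_skew (i p q : Fin 3) : lc i p q = -lc i q p := by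
  fin_cases i <;> fin_cases p <;> fin_cases q <;> simp [lc]

/-- the doubled forms -/
def wd (i : Fin 3) (u v : Fin 3 × Bool) : ℝ := if u.2 = v.2 then lc i u.1 v.1 else 0

theorem wd_skew (i : Fin 3) (u v : Fin 3 × Bool) : wd i u v = -wd i v u := by
  unfold wd
  by_cases h : u.2 = v.2
  · rw [if_pos h, if_pos h.symm, lc_skew]
  · rw [if_neg h, if_neg (Ne.symm h), neg_zero]

/-- the matrix of one half -/
noncomputable def Nn (x : Fin 3 → Fin 3 → ℝ) (u v : Fin 3 × Bool) : ℂ :=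
  ∑ i, (lc i u.1 v.1 : ℂ) * Sx (x i) u.2 v.2

/-- the exchange -/
noncomputable def Ksw : Matrix (Bool × Bool) (Bool × Bool) ℂ :=
  (!![1, 0, 0, 0; 0, 0, 1, 0; 0, 1, 0, 0; 0, 0, 0, 1] : Matrix (Fin 4) (Fin 4) ℂ).submatrix e4 e4

theorem Ksw_det : Ksw.det = -1 := by
  unfold Ksw
  rw [Matrix.det_submatrix_equiv_self, Matrix.det_succ_row_zero]
  simp only [Fin.sum_univ_four, Matrix.det_fin_three, Matrix.submatrix_apply]
  simp [Fin.succAbove]

theorem Ksw_apply (u v : Bool × Bool) : Ksw u v = if u.1 = v.2 ∧ u.2 = v.1 then 1 else 0 := by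
  obtain ⟨a, b⟩ := u
  obtain ⟨c, d⟩ := v
  cases a <;> cases b <;> cases c <;> cases d <;> simp [Ksw, e4]

theorem cong_sw (M : (Fin 3 × Bool) × Bool → (Fin 3 × Bool) × Bool → ℂ) (j k : Fin 3)
    (c c' a a' : Bool) :
    cong (bj Ksw) M ((j, c), a) ((k, c'), a') = M ((j, a), c) ((k, a'), c') := by
  rw [cong_bj]
  rw [Finset.sum_eq_single (a, c)]
  · rw [Finset.sum_eq_single (a', c')]
    · rw [Ksw_apply, Ksw_apply]
      simp
    · rintro ⟨p, q⟩ _ hpq
      rw [Ksw_apply (p, q), if_neg, mul_zero]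
      rintro ⟨h1, h2⟩
      exact hpq (Prod.ext h1 h2)
    · intro h; exact absurd (mem_univ _) h
  · rintro ⟨p, q⟩ _ hpq
    refine Finset.sum_eq_zero fun w _ => ?_
    rw [Ksw_apply (p, q), if_neg, zero_mul, zero_mul]
    rintro ⟨h1, h2⟩
    exact hpq (Prod.ext h1 h2)
  · intro h; exact absurd (mem_univ _) h

theorem tl_wd (x : Fin 3 → Fin 3 → ℝ) : tl (qq (Mx wd x) ^ (2 * Fintype.card (Fin 3))) =
    kap (Fin 3) * (-1) ^ Fintype.card (Fin 3) *
      (((2 * Fintype.card (Fin 3)).choose (Fintype.card (Fin 3)) : ℂ) * pfu (Nn x) ^ 2) := by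
  have h1 := tl_cong (bj Ksw) (Mx wd x) (2 * Fintype.card (Fin 3))
  rw [bj_det, Ksw_det] at h1
  have h2 : qq (cong (bj Ksw) (Mx wd x)) = u0 (Nn x) + u1 (Nn x) := by
    rw [qq_bool]
    have h3 : ∀ (p : Fin 3 × Bool) a (q : Fin 3 × Bool) b,
        cong (bj Ksw) (Mx wd x) (p, a) (q, b) = if a = b then Nn x p q else 0 := by
      rintro ⟨p, c⟩ a ⟨q, d⟩ b
      rw [cong_sw]
      unfold Mx Nn wd
      split_ifs with h
      · rfl
      · simp
    simp only [h3, if_true]
    unfold u0 u1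
    simp
  rw [h2, tl_diag] at h1
  have h4 : ((-1 : ℂ) ^ Fintype.card (Fin 3)) * (-1) ^ Fintype.card (Fin 3) = 1 := by
    rw [← mul_pow]; norm_num
  linear_combination (-(-1 : ℂ) ^ Fintype.card (Fin 3)) * h1 -
    tl (qq (Mx wd x) ^ (2 * Fintype.card (Fin 3))) * h4

/-- exchanging the second index -/
def flp : Equiv.Perm (Fin 3 × Bool) := (Equiv.refl (Fin 3)).prodCongr Equiv.boolNot

theorem flp_sign : Equiv.Perm.sign flp = -1 := by
  have h1 : flp = Equiv.prodCongrRight fun _ : Fin 3 => Equiv.boolNot := by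
    ext u <;> rfl
  rw [h1, Equiv.Perm.sign_prodCongrRight, Finset.prod_const, Finset.card_univ, Fintype.card_fin]
  decide

theorem pfu_Nn (x : Fin 3 → Fin 3 → ℝ) : (starRingEnd ℂ) (pfu (Nn x)) = -pfu (Nn x) := by
  rw [← pfu_conj]
  set g : Bool → ℂ := fun a => if a then -1 else 1 with hg
  have h1 : ∀ p q : Fin 3 × Bool, (starRingEnd ℂ) (Nn x p q) =
      (-1) * (g p.2 * g q.2) * Nn x (flp p) (flp q) := by
    rintro ⟨p, a⟩ ⟨q, b⟩
    unfold Nn
    rw [map_sum, Finset.mul_sum]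
    refine Finset.sum_congr rfl fun i _ => ?_
    rw [map_mul, Complex.conj_ofReal, conj_Sx]
    have e1 : flp (p, a) = (p, !a) := rfl
    have e2 : flp (q, b) = (q, !b) := rfl
    rw [e1, e2]
    simp only [hg]
    cases a <;> cases b <;> simp
  unfold pfu
  simp only [h1]
  have h2 : ∀ σ : Equiv.Perm (Fin 3 × Bool), ∏ b : Fin 3, (-1) *
      (g (σ (b, false)).2 * g (σ (b, true)).2) * Nn x (flp (σ (b, false))) (flp (σ (b, true))) =
      ∏ b : Fin 3, Nn x (flp (σ (b, false))) (flp (σ (b, true))) := by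
    intro σ
    rw [Finset.prod_mul_distrib, Finset.prod_mul_distrib, Finset.prod_const, Finset.card_univ,
      Fintype.card_fin]
    have h3 : ∏ b : Fin 3, (g (σ (b, false)).2 * g (σ (b, true)).2) = ∏ u : Fin 3 × Bool, g (σ u).2 := by
      rw [Fintype.prod_prod_type]
      refine Finset.prod_congr rfl fun b _ => ?_
      rw [Fintype.prod_bool, mul_comm]
    have h4 : ∏ u : Fin 3 × Bool, g (σ u).2 = -1 := by
      rw [Equiv.prod_comp σ (fun u => g u.2), Fintype.prod_prod_type]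
      simp [hg]
      norm_num
    rw [h3, h4]
    norm_num
  simp only [h2]
  rw [← Equiv.sum_comp (Equiv.mulLeft flp) (fun σ : Equiv.Perm (Fin 3 × Bool) =>
    ((Equiv.Perm.sign σ : ℤ) : ℂ) * ∏ b : Fin 3, Nn x (σ (b, false)) (σ (b, true)))]
  rw [← Finset.sum_neg_distrib]
  refine Finset.sum_congr rfl fun σ _ => ?_
  rw [show (Equiv.mulLeft flp) σ = flp * σ from rfl, Equiv.Perm.sign_mul, flp_sign]
  simp only [Equiv.Perm.mul_apply]
  push_cast
  ring

/-- numbering of six indices -/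
def e6 : Fin 3 × Bool ≃ Fin 6 where
  toFun u := if u.2 then ![1, 3, 5] u.1 else ![0, 2, 4] u.1
  invFun i := ![(0, false), (0, true), (1, false), (1, true), (2, false), (2, true)] i
  left_inv := by decide
  right_inv := by decide

noncomputable def N6 : Matrix (Fin 6) (Fin 6) ℂ :=
  !![0, 0, Complex.I, 0, -1, 0;
     0, 0, 0, Complex.I, 0, 1;
     -Complex.I, 0, 0, 0, 0, 1;
     0, -Complex.I, 0, 0, 1, 0;
     1, 0, 0, -1, 0, 0;
     0, -1, -1, 0, 0, 0]

noncomputable def I6 : Matrix (Fin 6) (Fin 6) ℂ :=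
  !![0, -Complex.I, Complex.I, 0, 1, 0;
     Complex.I, 0, 0, Complex.I, 0, -1;
     -Complex.I, 0, 0, -Complex.I, 0, -1;
     0, -Complex.I, Complex.I, 0, -1, 0;
     -1, 0, 0, 1, 0, -Complex.I;
     0, 1, 1, 0, Complex.I, 0]

theorem N6_mul : N6 * I6 = (2 : ℂ) • (1 : Matrix (Fin 6) (Fin 6) ℂ) := by
  ext i j
  fin_cases i <;> fin_cases j <;>
    simp [N6, I6, Matrix.mul_apply, Fin.sum_univ_six] <;> norm_num

theorem N6_det : N6.det ≠ 0 := by
  intro h
  have h1 := congrArg Matrix.det N6_mul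
  rw [Matrix.det_mul, h, zero_mul, Matrix.det_smul, Matrix.det_one] at h1
  norm_num at h1

theorem Nn_std : Matrix.of (Nn fun i => Pi.single i 1) = N6.submatrix e6 e6 := by
  have h1 : ∀ (i : Fin 3) (a b : Bool), Sx (Pi.single i 1) a b = Sk i a b := by
    intro i a b
    unfold Sx
    rw [Finset.sum_eq_single i]
    · simp
    · intro j _ hj
      simp [hj]
    · intro h; exact absurd (mem_univ _) h
  ext u v
  obtain ⟨p, a⟩ := u
  obtain ⟨q, b⟩ := v
  rw [Matrix.of_apply]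
  unfold Nn
  simp only [h1, Fin.sum_univ_three]
  fin_cases p <;> fin_cases q <;> cases a <;> cases b <;>
    simp [lc, N6, e6, Sk]

theorem pfu_std : pfu (Nn fun i => Pi.single i 1) ≠ 0 := by
  obtain ⟨c, -, hc⟩ := pf_det (B := Fin 3)
  have h1 := hc (Nn fun i => Pi.single i 1) (fun p q => by
    unfold Nn
    rw [← Finset.sum_neg_distrib]
    refine Finset.sum_congr rfl fun i _ => ?_
    rw [lc_skew i p.1 q.1, Sx_symm _ p.2 q.2]
    push_cast
    ring)
  rw [Nn_std, Matrix.det_submatrix_equiv_self] at h1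
  intro h0
  rw [h0] at h1
  exact N6_det (by rw [h1]; ring)

variable {V : Type} [NormedAddCommGroup V] [InnerProductSpace ℝ V]

/-- **Three two-forms with the wrong sign.** -/
theorem three_wrong (e : OrthonormalBasis (Fin 3 × Bool) ℝ V) :
    ∃ ω : Fin 3 → V → V → ℝ, (∀ ν, TwoForm (ω ν)) ∧ (-1) ^ 3 * gbc e (tfT ω) < 0 := by
  set ω : Fin 3 → V → V → ℝ := fun i x y =>
    ∑ p, ∑ q, wd i p q * (inner ℝ (e p) x * inner ℝ (e q) y) with hω
  have h2 : ∀ ν, TwoForm (ω ν) := by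
    intro ν
    refine ⟨fun x x' y => ?_, fun t x y => ?_, fun x y => ?_⟩
    · simp only [hω]
      rw [← Finset.sum_add_distrib]
      refine Finset.sum_congr rfl fun p _ => ?_
      rw [← Finset.sum_add_distrib]
      refine Finset.sum_congr rfl fun q _ => ?_
      rw [inner_add_right]
      ring
    · simp only [hω]
      rw [Finset.mul_sum]
      refine Finset.sum_congr rfl fun p _ => ?_
      rw [Finset.mul_sum]
      refine Finset.sum_congr rfl fun q _ => ?_
      rw [inner_smul_right]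
      ring
    · simp only [hω]
      rw [Finset.sum_comm, ← Finset.sum_neg_distrib]
      refine Finset.sum_congr rfl fun p _ => ?_
      rw [← Finset.sum_neg_distrib]
      refine Finset.sum_congr rfl fun q _ => ?_
      rw [wd_skew]
      ring
  have h3 : ∀ ν p q, ω ν (e p) (e q) = wd ν p q := by
    intro ν p q
    have h4 : ∀ p q, inner ℝ (e p) (e q) = if p = q then (1 : ℝ) else 0 := fun p q =>
      orthonormal_iff_ite.1 e.orthonormal p q
    simp only [hω, h4]
    simp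
  refine ⟨ω, h2, ?_⟩
  have hval : ∀ x : Fin 3 → Fin 3 → ℝ, tl (qq (Mx wd x) ^ (2 * Fintype.card (Fin 3))) =
      kap (Fin 3) * (-1) ^ Fintype.card (Fin 3) *
        ((-(((2 * Fintype.card (Fin 3)).choose (Fintype.card (Fin 3)) : ℝ) *
          Complex.normSq (pfu (Nn x))) : ℝ) : ℂ) := by
    intro x
    rw [tl_wd]
    have h5 : pfu (Nn x) ^ 2 = -(Complex.normSq (pfu (Nn x)) : ℂ) := by
      rw [← Complex.mul_conj, pfu_Nn]
      ring
    rw [h5]
    push_cast
    ring
  obtain ⟨r, h5, h6, h7⟩ := sign_aux wd wd_skew _ hval (-1) (fun x => by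
    have := Complex.normSq_nonneg (pfu (Nn x))
    rw [neg_one_mul, neg_neg]
    positivity)
  have h8 : 0 < -1 * r := by
    refine h7 (by norm_num) ⟨fun i => Pi.single i 1, ?_⟩
    rw [hval]
    have h9 := Complex.normSq_pos.2 pfu_std
    have h10 := kap_ne (B := Fin 3)
    have h11 : (0 : ℝ) < ((2 * Fintype.card (Fin 3)).choose (Fintype.card (Fin 3)) : ℝ) := by
      exact_mod_cast Nat.choose_pos (by omega)
    refine mul_ne_zero (mul_ne_zero h10 (pow_ne_zero _ (by norm_num))) ?_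
    rw [Complex.ofReal_ne_zero]
    exact (neg_neg_of_pos (mul_pos h11 h9)).ne
  have h12 : rsum (fun p q r s => ∑ ν, (ω ν (e p) (e r) * ω ν (e q) (e s) +
      ω ν (e p) (e q) * ω ν (e r) (e s))) = r := by
    have h11 := rsum_cast (fun p q r s => ∑ ν, (ω ν (e p) (e r) * ω ν (e q) (e s) +
      ω ν (e p) (e q) * ω ν (e r) (e s)))
    have h13 : (dsum fun p q r s => ((∑ ν, (ω ν (e p) (e r) * ω ν (e q) (e s) +
      ω ν (e p) (e q) * ω ν (e r) (e s)) : ℝ) : ℂ)) = (r : ℂ) := by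
      rw [← h6]
      congr 1
      funext p q r s
      simp only [h3]
      push_cast
      rfl
    rw [h13] at h11
    exact_mod_cast h11
  have h14 := dd_tfT ω (e : Fin 3 × Bool → V)
  rw [h12] at h14
  rw [gbc_dd, mul_left_comm, h14]
  have hπ := Real.pi_pos
  have h15 : 0 < 1 / ((8 * Real.pi) ^ 3 * (Nat.factorial 3 : ℝ)) := by positivity
  nlinarith [mul_pos h15 h8]

end Pool.Agent.H15.Pf
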