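import Pool.Agent.H15.PfRing

/-!
# The top functional
-/

set_option autoImplicit false
set_option linter.unusedSectionVars false

namespace Pool.Agent.H15.Pf

open Finset ExteriorAlgebra

variable {Y : Type} [Fintype Y] [DecidableEq Y]

/-- the alternating maps of the functional -/
noncomputable def topA (Y : Type) [Fintype Y] [DecidableEq Y] (n : ℕ) :
    (Y → ℂ) [⋀^Fin n]→ₗ[ℂ] ℂ :=
  if h : Fintype.card Y = n then
    (Matrix.detRowAlternating (n := Y) (R := ℂ)).domDomCongr (Fintype.equivFinOfCardEq h)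
  else 0

/-- the top functional -/
noncomputable def tpE : EA Y →ₗ[ℂ] ℂ := liftAlternating (topA Y)

theorem tpE_map (G : Matrix Y Y ℂ) (x : EA Y) :
    tpE (ExteriorAlgebra.map G.vecMulLinear x) = G.det * tpE x := by
  have h : tpE ∘ₗ (ExteriorAlgebra.map G.vecMulLinear).toLinearMap = G.det • (tpE : EA Y →ₗ[ℂ] ℂ) := by
    apply lhom_ext
    intro n
    ext v
    simp only [LinearMap.compAlternatingMap_apply, LinearMap.comp_apply, AlgHom.toLinearMap_apply,
      map_apply_ιMulti, LinearMap.smul_apply, smul_eq_mul]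
    unfold tpE
    rw [liftAlternating_apply_ιMulti, liftAlternating_apply_ιMulti]
    unfold topA
    split_ifs with hn
    · rw [AlternatingMap.domDomCongr_apply, AlternatingMap.domDomCongr_apply]
      change Matrix.det (Matrix.of fun y => Matrix.vecMul (v (Fintype.equivFinOfCardEq hn y)) G) =
        G.det * Matrix.det (Matrix.of fun y => v (Fintype.equivFinOfCardEq hn y))
      rw [mul_comm, ← Matrix.det_mul]
      congr 1
    · simp
  have := LinearMap.congr_fun h x
  simpa using this

/-- the functional on the commutative ring -/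
noncomputable def tl : CA Y →ₗ[ℂ] ℂ := tpE ∘ₗ cv.toLinearMap

/-- the quadratic element of a matrix -/
noncomputable def qq (M : Y → Y → ℂ) : CA Y := ∑ u, ∑ v, M u v • yy u v

theorem map_th (G : Matrix Y Y ℂ) (u : Y) :
    ExteriorAlgebra.map G.vecMulLinear (th u) = ∑ v, G u v • th v := by
  unfold th
  rw [map_apply_ι, Matrix.vecMulLinear_apply, Matrix.single_one_vecMul]
  have h : G.row u = ∑ v, G u v • Pi.single v (1 : ℂ) := by
    funext w
    rw [Finset.sum_apply, Finset.sum_eq_single w]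
    · simp
    · intro b _ hb
      simp [hb.symm]
    · intro h; exact absurd (mem_univ _) h
  rw [h, map_sum]
  simp only [map_smul]

theorem sum4 {α : Type*} [AddCommMonoid α] {U V : Type} [Fintype U] [Fintype V]
    (f : U → U → V → V → α) :
    ∑ u, ∑ v, ∑ b, ∑ a, f u v a b = ∑ a, ∑ b, ∑ u, ∑ v, f u v a b := by
  calc ∑ u, ∑ v, ∑ b, ∑ a, f u v a b = ∑ p : U × U, ∑ q : V × V, f p.1 p.2 q.2 q.1 := by
        simp only [Fintype.sum_prod_type]
    _ = ∑ q : V × V, ∑ p : U × U, f p.1 p.2 q.2 q.1 := Finset.sum_comm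
    _ = ∑ b, ∑ a, ∑ u, ∑ v, f u v a b := by simp only [Fintype.sum_prod_type]
    _ = _ := Finset.sum_comm

theorem map_qq (G : Matrix Y Y ℂ) (M : Y → Y → ℂ) :
    ExteriorAlgebra.map G.vecMulLinear (cv (qq M)) =
      cv (qq fun u' v' => ∑ u, ∑ v, G u u' * M u v * G v v') := by
  unfold qq
  simp only [map_sum, map_smul, cv_yy, map_mul, map_th, Finset.sum_mul, Finset.mul_sum,
    smul_mul_smul_comm, Finset.smul_sum, Finset.sum_smul, smul_smul]
  rw [sum4 fun x x_1 x_3 x_2 => (M x x_1 * (G x x_3 * G x_1 x_2)) • (th x_3 * th x_2 : EA Y)]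
  refine Finset.sum_congr rfl fun a _ => Finset.sum_congr rfl fun b _ =>
    Finset.sum_congr rfl fun u _ => Finset.sum_congr rfl fun v _ => ?_
  congr 1
  ring

theorem tl_qq (G : Matrix Y Y ℂ) (M : Y → Y → ℂ) (n : ℕ) :
    tl (qq (fun u' v' => ∑ u, ∑ v, G u u' * M u v * G v v') ^ n) = G.det * tl (qq M ^ n) := by
  unfold tl
  simp only [LinearMap.comp_apply, AlgHom.toLinearMap_apply, map_pow]
  rw [← map_qq, ← map_pow, tpE_map]

end Pool.Agent.H15.Pf
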